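import Pool.Agent.WW47.Base

/-!
# The polynomials of the differentiated Bernoulli equation
-/

open Complex

namespace WW47

/-- coefficients of the derivative -/
noncomputable def Dc (c : ℤ → ℂ) : ℤ → ℂ := fun k => I * k * c k

/-- `G = η_t - γ η η_x`, `G_x` and `G_t` written with `H = η`, `H1 = η_x`, `H2 = η_xx`, `E = η_t`,
`E1 = η_tx`, `F = η_tt`. -/
def Gp (γ H H1 E : ℂ) : ℂ := E - γ * (H * H1)
def Gxp (γ H H1 H2 E1 : ℂ) : ℂ := E1 - γ * (H1 * H1 + H * H2)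
def Gtp (γ H H1 E E1 F : ℂ) : ℂ := F - γ * (E * H1 + H * E1)

/-- The (cleared) derivative of the Bernoulli equation. -/
def Jp (g γ H H1 H2 G Gx a ax at' : ℂ) : ℂ :=
  2 * (1 + H1 ^ 2) ^ 2 * (at' + g * H1 - γ * (H1 * a + H * ax) - γ * G)
    - ((-2 * a * ax + 2 * H2 * a * G + 2 * H1 * ax * G + 2 * H1 * a * Gx + 2 * G * Gx)
        * (1 + H1 ^ 2)
      - (-a ^ 2 + 2 * H1 * a * G + G ^ 2) * (2 * H1 * H2))

def Kp (H1 H2 H3 : ℂ) : ℂ := H3 * (1 + H1 ^ 2) - 3 * H1 * H2 ^ 2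

end WW47
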