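import Pool.Agent.WW47.TP
import Pool.Agent.WW47.Alg0

/-!
# Module M4: the final identity between trigonometric polynomials is impossible
-/

open Complex Filter Topology

namespace WW47.M4

/-! ### Leading coefficients -/

/-- `f (-i s) e^{-m s} → a` as `s → +∞`. -/
def Lead (m : ℤ) (f : ℂ → ℂ) (a : ℂ) : Prop :=
  Tendsto (fun s : ℝ => f (-(I * s)) * exp (-(m * s))) atTop (𝓝 a)

lemma Lead.mul {m n : ℤ} {f g : ℂ → ℂ} {a b : ℂ} (hf : Lead m f a) (hg : Lead n g b) :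
    Lead (m + n) (f * g) (a * b) := by
  refine (Tendsto.mul hf hg).congr fun s => ?_
  have : exp (-(((m + n : ℤ) : ℂ) * s)) = exp (-(m * s)) * exp (-(n * s)) := by
    rw [← exp_add]; congr 1; push_cast; ring
  rw [this, Pi.mul_apply]; ring

lemma Lead.add {m : ℤ} {f g : ℂ → ℂ} {a b : ℂ} (hf : Lead m f a) (hg : Lead m g b) :
    Lead m (f + g) (a + b) := by
  refine (Tendsto.add hf hg).congr fun s => ?_
  rw [Pi.add_apply]; ring

lemma Lead.sub {m : ℤ} {f g : ℂ → ℂ} {a b : ℂ} (hf : Lead m f a) (hg : Lead m g b) :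
    Lead m (f - g) (a - b) := by
  refine (Tendsto.sub hf hg).congr fun s => ?_
  rw [Pi.sub_apply]; ring

lemma Lead.smul {m : ℤ} {f : ℂ → ℂ} {a : ℂ} (k : ℂ) (hf : Lead m f a) :
    Lead m (k • f) (k * a) := by
  refine (Tendsto.const_mul k hf).congr fun s => ?_
  rw [Pi.smul_apply, smul_eq_mul]; ring

lemma Lead.unique {m : ℤ} {f : ℂ → ℂ} {a b : ℂ} (hf : Lead m f a) (hg : Lead m f b) : a = b :=
  tendsto_nhds_unique hf hg

lemma lead_one : Lead 0 (1 : ℂ → ℂ) 1 := by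
  refine tendsto_const_nhds.congr fun s => ?_
  simp

lemma tendsto_exp_neg {m : ℤ} (hm : m < 0) :
    Tendsto (fun s : ℝ => exp ((m : ℂ) * s)) atTop (𝓝 0) := by
  rw [tendsto_zero_iff_norm_tendsto_zero]
  have h1 : Tendsto (fun s : ℝ => Real.exp ((m : ℝ) * s)) atTop (𝓝 0) := by
    refine Real.tendsto_exp_atBot.comp ?_
    exact tendsto_id.const_mul_atTop_of_neg (by exact_mod_cast hm)
  refine h1.congr fun s => ?_
  rw [norm_exp]
  simp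

lemma Lead.zero_of_lt {m n : ℤ} {f : ℂ → ℂ} {a : ℂ} (hf : Lead m f a) (h : m < n) :
    Lead n f 0 := by
  have h1 := Tendsto.mul hf (tendsto_exp_neg (m := m - n) (by omega))
  rw [mul_zero] at h1
  refine h1.congr fun s => ?_
  rw [mul_assoc, ← exp_add]
  congr 2
  push_cast
  ring

lemma lead_tp_top {M : ℕ} {b : ℤ → ℂ} {j : ℤ}
    (h : ∀ k ∈ Finset.Icc (-(M : ℤ)) M, j < k → b k = 0) :
    Lead j (tp M b) (if j ∈ Finset.Icc (-(M : ℤ)) M then b j else 0) := by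
  have h1 : Tendsto (fun s : ℝ => ∑ k ∈ Finset.Icc (-(M : ℤ)) M, b k * exp (((k - j : ℤ) : ℂ) * s))
      atTop (𝓝 (∑ k ∈ Finset.Icc (-(M : ℤ)) M, if j = k then b k else 0)) := by
    refine tendsto_finsetSum _ fun k hk => ?_
    rcases lt_trichotomy j k with hlt | heq | hgt
    · rw [if_neg (by omega), h k hk hlt]
      simp
    · subst heq
      simp
    · rw [if_neg (by omega)]
      have := (tendsto_exp_neg (m := k - j) (by omega)).const_mul (b k)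
      rwa [mul_zero] at this
  rw [Finset.sum_ite_eq] at h1
  refine h1.congr fun s => ?_
  unfold tp
  rw [Finset.sum_mul]
  refine Finset.sum_congr rfl fun k _ => ?_
  rw [mul_assoc, ← exp_add]
  congr 2
  push_cast
  ring_nf
  rw [I_sq]
  ring

lemma lead_tp (N : ℕ) (c : ℤ → ℂ) : Lead N (tp N c) (c N) := by
  have := lead_tp_top (M := N) (b := c) (j := N) (fun k hk hlt => by
    rw [Finset.mem_Icc] at hk; omega)
  rwa [if_pos (by rw [Finset.mem_Icc]; omega)] at this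

lemma deriv_tp (N : ℕ) (c : ℤ → ℂ) : deriv (tp N c) = tp N (Dc c) := by
  funext x
  exact (hasDerivAt_tp N c x).deriv

lemma TPA_differentiable {f : ℂ → ℂ} (hf : f ∈ TPA) : Differentiable ℂ f := by
  obtain ⟨m, c, -, rfl⟩ := exists_tp hf
  exact differentiable_tp m c

lemma TPA_deriv {f : ℂ → ℂ} (hf : f ∈ TPA) : deriv f ∈ TPA := by
  obtain ⟨m, c, -, rfl⟩ := exists_tp hf
  rw [deriv_tp]
  exact tp_mem _ _

lemma Lead.deriv {m : ℤ} {f : ℂ → ℂ} {a : ℂ} (hf : f ∈ TPA) (h : Lead m f a) :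
    Lead m (deriv f) (I * m * a) := by
  obtain ⟨M, b, hb, rfl⟩ := exists_tp hf
  have hvan : ∀ k : ℤ, m < k → b k = 0 := by
    intro k0 hk0
    by_contra hne
    have hk0M : k0 ∈ Finset.Icc (-(M : ℤ)) M := by
      by_contra hk
      rw [Finset.mem_Icc, ← abs_le, not_le] at hk
      exact hne (hb k0 hk)
    obtain ⟨j, hj, hbj, hjt⟩ := exists_top ⟨k0, hk0M, hne⟩
    have hj0 : k0 ≤ j := by
      by_contra hlt
      exact hne (hjt k0 hk0M (by omega))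
    have h1 := lead_tp_top hjt
    rw [if_pos hj] at h1
    exact hbj (h1.unique (h.zero_of_lt (by omega)))
  have h1 := lead_tp_top (M := M) (b := b) (j := m) (fun k _ hk => hvan k hk)
  have h2 := lead_tp_top (M := M) (b := Dc b) (j := m) (fun k _ hk => by
    simp [Dc, hvan k hk])
  rw [deriv_tp]
  have h3 := h.unique h1
  convert h2 using 1
  rw [h3]
  split_ifs
  · rfl
  · simp

/-- identity theorem from the real line -/
lemma eq_of_real {f g : ℂ → ℂ} (hf : Differentiable ℂ f) (hg : Differentiable ℂ g)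
    (h : ∀ x : ℝ, f x = g x) : f = g := by
  have hfa : AnalyticOnNhd ℂ f Set.univ := fun z _ => hf.analyticAt z
  have hga : AnalyticOnNhd ℂ g Set.univ := fun z _ => hg.analyticAt z
  refine AnalyticOnNhd.eq_of_frequently_eq (z₀ := 0) hfa hga ?_
  have h1 : Tendsto (fun n : ℕ => ((1 / ((n : ℝ) + 1) : ℝ) : ℂ)) atTop (𝓝[≠] 0) := by
    rw [tendsto_nhdsWithin_iff]
    constructor
    · have h2 := (continuous_ofReal.tendsto 0).comp
        (tendsto_one_div_add_atTop_nhds_zero_nat (𝕜 := ℝ))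
      rw [ofReal_zero] at h2
      exact h2
    · refine Eventually.of_forall fun n => ?_
      have : (1 / ((n : ℝ) + 1) : ℝ) ≠ 0 := by positivity
      exact ofReal_ne_zero.2 this
  exact h1.frequently (Frequently.of_forall fun n => h _)

lemma RealC_Dc {c : ℤ → ℂ} (hc : RealC c) : RealC (Dc c) := by
  intro k
  simp [Dc, hc k]

lemma tp_real (N : ℕ) {c : ℤ → ℂ} (hc : RealC c) (x : ℝ) :
    tp N c (x : ℂ) = (((tp N c (x : ℂ)).re : ℝ) : ℂ) := by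
  apply Complex.ext
  · simp
  · simp [tp_real_im N c hc x]

lemma Jp_split (g γ H H1 H2 G Gx Gt : ℂ) :
    Jp g γ H H1 H2 G Gx (I * G) (I * Gx) (I * Gt) =
      (2 * (1 + H1 ^ 2) ^ 2 * (g * H1 - γ * G) -
        (4 * G * Gx * (1 + H1 ^ 2) - 2 * G ^ 2 * (2 * H1 * H2))) +
      I * (2 * (1 + H1 ^ 2) ^ 2 * (Gt - γ * (H1 * G + H * Gx)) -
        ((2 * H2 * G ^ 2 + 4 * H1 * G * Gx) * (1 + H1 ^ 2) - 2 * H1 * G ^ 2 * (2 * H1 * H2))) := by
  unfold Jp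
  linear_combination (2 * G * Gx * (1 + H1 ^ 2) - 2 * G ^ 2 * H1 * H2) * I_sq

lemma real_part_split {u v κ K p : ℝ}
    (h : ((u : ℂ) + I * v) ^ 2 * (1 + (p : ℂ) ^ 2) = 4 * κ ^ 2 * (K : ℂ) ^ 2) :
    v = 0 ∧ u ^ 2 * (1 + p ^ 2) = 4 * κ ^ 2 * K ^ 2 := by
  have h' : (((u ^ 2 - v ^ 2) * (1 + p ^ 2) : ℝ) : ℂ) + I * ((2 * u * v * (1 + p ^ 2) : ℝ) : ℂ) =
      ((4 * κ ^ 2 * K ^ 2 : ℝ) : ℂ) := by
    push_cast
    linear_combination h - (v : ℂ) ^ 2 * (1 + (p : ℂ) ^ 2) * I_sq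
  have hre : (u ^ 2 - v ^ 2) * (1 + p ^ 2) = 4 * κ ^ 2 * K ^ 2 := by
    have h1 := congrArg Complex.re h'
    rw [add_re, ofReal_re, ofReal_re, I_mul_re, ofReal_im] at h1
    linarith
  have him : 2 * u * v * (1 + p ^ 2) = 0 := by
    have h1 := congrArg Complex.im h'
    rw [add_im, ofReal_im, ofReal_im, I_mul_im, ofReal_re] at h1
    linarith
  have hD : 0 < 1 + p ^ 2 := by positivity
  have huv : u * v = 0 := by
    have : (2 * (1 + p ^ 2)) * (u * v) = 0 := by linarith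
    rcases mul_eq_zero.1 this with h1 | h1
    · exfalso; linarith
    · exact h1
  have hv0 : v = 0 := by
    rcases mul_eq_zero.1 huv with h1 | h1
    · rw [h1] at hre
      have h0 : 0 ≤ 4 * κ ^ 2 * K ^ 2 := by positivity
      have h3 : v ^ 2 ≤ 0 := by
        by_contra h4
        push Not at h4
        nlinarith [mul_pos h4 hD]
      nlinarith [sq_nonneg v]
    · exact h1
  refine ⟨hv0, ?_⟩
  rw [hv0] at hre
  linarith

/-- Separation of real and imaginary parts. -/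
lemma real_split {g κ γ p0 p1 p2 p3 e0 e1 f0 : ℝ}
    (h : (Jp g γ p0 p1 p2 (Gp γ p0 p1 e0) (Gxp γ p0 p1 p2 e1) (I * Gp γ p0 p1 e0)
      (I * Gxp γ p0 p1 p2 e1) (I * Gtp γ p0 p1 e0 e1 f0)) ^ 2 * (1 + (p1 : ℂ) ^ 2) =
      4 * κ ^ 2 * (Kp p1 p2 p3) ^ 2) :
    (2 * (1 + (p1 : ℂ) ^ 2) ^ 2 * (Gtp γ p0 p1 e0 e1 f0 - γ * (p1 * Gp γ p0 p1 e0 +
        p0 * Gxp γ p0 p1 p2 e1)) -
      ((2 * p2 * Gp γ p0 p1 e0 ^ 2 + 4 * p1 * Gp γ p0 p1 e0 * Gxp γ p0 p1 p2 e1) *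
        (1 + (p1 : ℂ) ^ 2) - 2 * p1 * Gp γ p0 p1 e0 ^ 2 * (2 * p1 * p2)) = 0) ∧
    (2 * (1 + (p1 : ℂ) ^ 2) ^ 2 * (g * p1 - γ * Gp γ p0 p1 e0) -
      (4 * Gp γ p0 p1 e0 * Gxp γ p0 p1 p2 e1 * (1 + (p1 : ℂ) ^ 2) -
        2 * Gp γ p0 p1 e0 ^ 2 * (2 * p1 * p2))) ^ 2 * (1 + (p1 : ℂ) ^ 2) =
      4 * κ ^ 2 * (Kp p1 p2 p3) ^ 2 := by
  obtain ⟨G, eG⟩ : ∃ G : ℝ, Gp γ p0 p1 e0 = (G : ℂ) :=
    ⟨e0 - γ * (p0 * p1), by simp [Gp]⟩
  obtain ⟨Gx, eGx⟩ : ∃ G : ℝ, Gxp γ p0 p1 p2 e1 = (G : ℂ) :=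
    ⟨e1 - γ * (p1 * p1 + p0 * p2), by simp [Gxp]⟩
  obtain ⟨Gt, eGt⟩ : ∃ G : ℝ, Gtp γ p0 p1 e0 e1 f0 = (G : ℂ) :=
    ⟨f0 - γ * (e0 * p1 + p0 * e1), by simp [Gtp]⟩
  obtain ⟨K, eK⟩ : ∃ K : ℝ, Kp p1 p2 p3 = (K : ℂ) :=
    ⟨p3 * (1 + p1 ^ 2) - 3 * p1 * p2 ^ 2, by simp [Kp]⟩
  rw [eG, eGx, eGt, eK] at h ⊢
  obtain ⟨u, hu⟩ : ∃ u : ℝ, 2 * (1 + (p1 : ℂ) ^ 2) ^ 2 * (g * p1 - γ * G) -
      (4 * G * Gx * (1 + (p1 : ℂ) ^ 2) - 2 * (G : ℂ) ^ 2 * (2 * p1 * p2)) = (u : ℂ) :=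
    ⟨2 * (1 + p1 ^ 2) ^ 2 * (g * p1 - γ * G) -
      (4 * G * Gx * (1 + p1 ^ 2) - 2 * G ^ 2 * (2 * p1 * p2)), by simp⟩
  obtain ⟨v, hv⟩ : ∃ v : ℝ, 2 * (1 + (p1 : ℂ) ^ 2) ^ 2 * (Gt - γ * (p1 * G + p0 * Gx)) -
      ((2 * p2 * (G : ℂ) ^ 2 + 4 * p1 * G * Gx) * (1 + (p1 : ℂ) ^ 2) -
        2 * p1 * (G : ℂ) ^ 2 * (2 * p1 * p2)) = (v : ℂ) :=
    ⟨2 * (1 + p1 ^ 2) ^ 2 * (Gt - γ * (p1 * G + p0 * Gx)) -
      ((2 * p2 * G ^ 2 + 4 * p1 * G * Gx) * (1 + p1 ^ 2) - 2 * p1 * G ^ 2 * (2 * p1 * p2)),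
      by simp⟩
  rw [Jp_split, hu, hv] at h
  rw [hu, hv]
  obtain ⟨h1, h2⟩ := real_part_split h
  refine ⟨by rw [h1]; simp, ?_⟩
  exact_mod_cast h2

/-- division of leading coefficients -/
lemma Lead.of_mul {m n : ℤ} {f g : ℂ → ℂ} {a b : ℂ} (hf : Lead m f a) (ha : a ≠ 0)
    (hfg : Lead (m + n) (f * g) b) : Lead n g (b / a) := by
  refine (Tendsto.div hfg hf ha).congr' ?_
  filter_upwards [hf.eventually_ne ha] with s hs
  have h1 : exp (-(((m + n : ℤ) : ℂ) * s)) = exp (-(m * s)) * exp (-(n * s)) := by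
    rw [← exp_add]; congr 1; push_cast; ring
  rw [Pi.div_apply, h1, div_eq_iff hs, Pi.mul_apply]
  ring

lemma lead_zero_of_sq {f : ℂ → ℂ} (h : Lead 0 (f * f) 0) : Lead 0 f 0 := by
  unfold Lead at h ⊢
  simp only [Int.cast_zero, zero_mul, neg_zero, exp_zero, mul_one, Pi.mul_apply] at h ⊢
  rw [tendsto_zero_iff_norm_tendsto_zero] at h ⊢
  have h1 := (Real.continuous_sqrt.tendsto 0).comp h
  rw [Real.sqrt_zero] at h1
  refine h1.congr fun s => ?_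
  simp

/-- primitive of a trigonometric polynomial -/
lemma exists_primitive {T : ℂ → ℂ} (hT : T ∈ TPA) :
    ∃ (Q : ℂ → ℂ) (t0 : ℂ), Q ∈ TPA ∧ (∀ z, Q (z + 2 * Real.pi) = Q z) ∧
      ∀ z, HasDerivAt Q (T z - t0) z := by
  obtain ⟨M, t, -, rfl⟩ := exists_tp hT
  refine ⟨tp M (fun k => t k / (I * k)), t 0, tp_mem _ _, tp_add_two_pi _ _, fun z => ?_⟩
  refine (hasDerivAt_tp M (fun k => t k / (I * k)) z).congr_deriv ?_
  have h1 : tp M t z - tp M (fun k => I * k * (t k / (I * k))) z = t 0 := by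
    unfold tp
    rw [← Finset.sum_sub_distrib, Finset.sum_eq_single (0 : ℤ)]
    · simp
    · intro k _ hk
      have : (I * (k : ℂ)) ≠ 0 := mul_ne_zero I_ne_zero (by exact_mod_cast hk)
      have e : I * (k : ℂ) * (t k / (I * k)) = t k := by field_simp
      simp only [e, sub_self]
    · intro h0
      exfalso
      apply h0
      rw [Finset.mem_Icc]
      constructor <;> simp
  rw [← h1]
  ring

/-- The abstract form of the algebraic contradiction. -/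
theorem core (N : ℕ) (hN : 1 ≤ N) {h0 eN : ℂ} (hh : h0 ≠ 0) {H H1 H2 H3 E E1 F : ℂ → ℂ}
    (mH : H ∈ TPA) (mH1 : H1 ∈ TPA) (mH2 : H2 ∈ TPA) (mH3 : H3 ∈ TPA) (mE : E ∈ TPA)
    (mE1 : E1 ∈ TPA) (mF : F ∈ TPA)
    (dH : ∀ x, HasDerivAt H (H1 x) x) (dH1 : ∀ x, HasDerivAt H1 (H2 x) x)
    (dE : ∀ x, HasDerivAt E (E1 x) x)
    (rH : ∀ x : ℝ, ∃ p : ℝ, H x = p) (rH1 : ∀ x : ℝ, ∃ p : ℝ, H1 x = p)
    (rH2 : ∀ x : ℝ, ∃ p : ℝ, H2 x = p) (rH3 : ∀ x : ℝ, ∃ p : ℝ, H3 x = p)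
    (rE : ∀ x : ℝ, ∃ p : ℝ, E x = p) (rE1 : ∀ x : ℝ, ∃ p : ℝ, E1 x = p)
    (rF : ∀ x : ℝ, ∃ p : ℝ, F x = p)
    (pH : ∀ x, H (x + 2 * Real.pi) = H x) (pH1 : ∀ x, H1 (x + 2 * Real.pi) = H1 x)
    (pE : ∀ x, E (x + 2 * Real.pi) = E x)
    (lH : Lead N H h0) (lH1 : Lead N H1 (I * N * h0)) (lH2 : Lead N H2 (I * N * (I * N * h0)))
    (lH3 : Lead N H3 (I * N * (I * N * (I * N * h0)))) (lE : Lead N E eN)
    {g κ γ : ℝ} (hg : 0 < g)
    (h : ∀ x : ℂ,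
      (Jp g γ (H x) (H1 x) (H2 x)
        (Gp γ (H x) (H1 x) (E x))
        (Gxp γ (H x) (H1 x) (H2 x) (E1 x))
        (I * Gp γ (H x) (H1 x) (E x))
        (I * Gxp γ (H x) (H1 x) (H2 x) (E1 x))
        (I * Gtp γ (H x) (H1 x) (E x) (E1 x) (F x))) ^ 2
        * (1 + (H1 x) ^ 2)
      = 4 * κ ^ 2 * (Kp (H1 x) (H2 x) (H3 x)) ^ 2) :
    False := by
  have hNC : (N : ℂ) ≠ 0 := by
    have : N ≠ 0 := by omega
    exact_mod_cast this
  -- the functions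
  obtain ⟨G, hG⟩ : ∃ G : ℂ → ℂ, G = E - (γ : ℂ) • (H * H1) := ⟨_, rfl⟩
  obtain ⟨Gx, hGx⟩ : ∃ Gx : ℂ → ℂ, Gx = E1 - (γ : ℂ) • (H1 * H1 + H * H2) := ⟨_, rfl⟩
  obtain ⟨Gt, hGt⟩ : ∃ Gt : ℂ → ℂ, Gt = F - (γ : ℂ) • (E * H1 + H * E1) := ⟨_, rfl⟩
  obtain ⟨T, hT⟩ : ∃ T : ℂ → ℂ, T = Gt - (γ : ℂ) • (H1 * G + H * Gx) := ⟨_, rfl⟩
  obtain ⟨D, hD⟩ : ∃ D : ℂ → ℂ, D = 1 + H1 * H1 := ⟨_, rfl⟩
  obtain ⟨K, hK⟩ : ∃ K : ℂ → ℂ, K = H3 * D - (3 : ℂ) • (H1 * (H2 * H2)) := ⟨_, rfl⟩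
  have eG : ∀ x, Gp γ (H x) (H1 x) (E x) = G x := fun x => by
    rw [hG]; simp [Gp]
  have eGx : ∀ x, Gxp γ (H x) (H1 x) (H2 x) (E1 x) = Gx x := fun x => by
    rw [hGx]; simp only [Gxp, Pi.sub_apply, Pi.add_apply, Pi.mul_apply, Pi.smul_apply, smul_eq_mul]
  have eGt : ∀ x, Gtp γ (H x) (H1 x) (E x) (E1 x) (F x) = Gt x := fun x => by
    rw [hGt]; simp only [Gtp, Pi.sub_apply, Pi.add_apply, Pi.mul_apply, Pi.smul_apply, smul_eq_mul]
  have eD : ∀ x, 1 + (H1 x) ^ 2 = D x := fun x => by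
    rw [hD]; simp [pow_two]
  have eK : ∀ x, Kp (H1 x) (H2 x) (H3 x) = K x := fun x => by
    rw [hK]; simp only [Kp, eD, Pi.sub_apply, Pi.mul_apply, Pi.smul_apply, smul_eq_mul]; ring
  have mG : G ∈ TPA := by
    rw [hG]; exact TPA.sub_mem mE (TPA.smul_mem (TPA.mul_mem mH mH1) _)
  have mGx : Gx ∈ TPA := by
    rw [hGx]
    exact TPA.sub_mem mE1 (TPA.smul_mem (TPA.add_mem (TPA.mul_mem mH1 mH1) (TPA.mul_mem mH mH2)) _)
  have mGt : Gt ∈ TPA := by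
    rw [hGt]
    exact TPA.sub_mem mF (TPA.smul_mem (TPA.add_mem (TPA.mul_mem mE mH1) (TPA.mul_mem mH mE1)) _)
  have mT : T ∈ TPA := by
    rw [hT]
    exact TPA.sub_mem mGt (TPA.smul_mem (TPA.add_mem (TPA.mul_mem mH1 mG) (TPA.mul_mem mH mGx)) _)
  have mD : D ∈ TPA := by
    rw [hD]; exact TPA.add_mem TPA.one_mem (TPA.mul_mem mH1 mH1)
  have mK : K ∈ TPA := by
    rw [hK]
    exact TPA.sub_mem (TPA.mul_mem mH3 mD)
      (TPA.smul_mem (TPA.mul_mem mH1 (TPA.mul_mem mH2 mH2)) _)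
  have eT : ∀ x, T x = Gt x - γ * (H1 x * G x + H x * Gx x) := fun x => by
    rw [hT]; simp only [Pi.sub_apply, Pi.add_apply, Pi.mul_apply, Pi.smul_apply, smul_eq_mul]
  -- real line
  have hsplit : ∀ x : ℝ,
      (2 * (D x) ^ 2 * T x - ((2 * H2 x * G x ^ 2 + 4 * H1 x * G x * Gx x) * D x -
        2 * H1 x * G x ^ 2 * (2 * H1 x * H2 x)) = 0) ∧
      (2 * (D x) ^ 2 * (g * H1 x - γ * G x) - (4 * G x * Gx x * D x -
        2 * G x ^ 2 * (2 * H1 x * H2 x))) ^ 2 * D x = 4 * κ ^ 2 * (K x) ^ 2 := by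
    intro x
    obtain ⟨p0, h0'⟩ := rH x
    obtain ⟨p1, h1'⟩ := rH1 x
    obtain ⟨p2, h2'⟩ := rH2 x
    obtain ⟨p3, h3'⟩ := rH3 x
    obtain ⟨e0, he0⟩ := rE x
    obtain ⟨e1, he1⟩ := rE1 x
    obtain ⟨f0, hf0⟩ := rF x
    have hx := h (x : ℂ)
    rw [h0', h1', h2', h3', he0, he1, hf0] at hx
    have := real_split hx
    rw [← h0', ← h1', ← h2', ← h3', ← he0, ← he1, ← hf0, eG, eGx, eGt, eD, eK] at this
    rw [eT]
    exact this
  have hDne : ∀ x : ℝ, D x ≠ 0 := by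
    intro x
    obtain ⟨p1, h1'⟩ := rH1 x
    rw [← eD, h1']
    have : (1 + p1 ^ 2 : ℝ) ≠ 0 := by positivity
    exact_mod_cast this
  -- derivatives
  have dG : ∀ x, HasDerivAt G (Gx x) x := by
    intro x
    have h1 := (dE x).sub (((dH x).mul (dH1 x)).const_smul (γ : ℂ))
    rw [← hG] at h1
    exact h1.congr_deriv (by
      rw [hGx]
      simp only [Pi.sub_apply, Pi.add_apply, Pi.mul_apply, Pi.smul_apply, smul_eq_mul])
  have dD : ∀ x, HasDerivAt D (2 * H1 x * H2 x) x := by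
    intro x
    have h1 := (hasDerivAt_const x (1 : ℂ)).add ((dH1 x).mul (dH1 x))
    have h2 : (fun _ : ℂ => (1 : ℂ)) + H1 * H1 = D := by rw [hD]; rfl
    rw [h2] at h1
    exact h1.congr_deriv (by ring)
  have pG : ∀ x, G (x + 2 * Real.pi) = G x := fun x => by
    rw [hG]; simp [pH, pH1, pE]
  have pD : ∀ x, D (x + 2 * Real.pi) = D x := fun x => by
    rw [hD]; simp [pH1]
  -- the primitive
  obtain ⟨Q0, t0, mQ0, pQ0, dQ0⟩ := exists_primitive mT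
  have hW : ∀ x : ℝ, HasDerivAt (fun x : ℝ => H1 x * (G x) ^ 2 / D x - Q0 x - t0 * x) 0 x := by
    intro x
    have h1 : HasDerivAt (fun z : ℂ => H1 z * (G z) ^ 2 / D z - Q0 z - t0 * z)
        (((H2 x * (G x) ^ 2 + H1 x * (2 * G x ^ 1 * Gx x)) * D x -
          H1 x * (G x) ^ 2 * (2 * H1 x * H2 x)) / (D x) ^ 2 - (T x - t0) - t0 * 1) (x : ℂ) := by
      have h2 := ((dH1 x).mul ((dG x).pow 2)).div (dD x) (hDne x)
      have h3 := (h2.sub (dQ0 x)).sub ((hasDerivAt_id (x : ℂ)).const_mul t0)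
      exact h3
    have h4 := h1.comp_ofReal
    refine h4.congr_deriv ?_
    have h5 := (hsplit x).1
    have h6 := hDne x
    rw [mul_one, pow_one]
    have h7 : ((H2 x * (G x) ^ 2 + H1 x * (2 * G x * Gx x)) * D x -
          H1 x * (G x) ^ 2 * (2 * H1 x * H2 x)) / (D x) ^ 2 = T x := by
      rw [div_eq_iff (pow_ne_zero 2 h6)]
      linear_combination (-1 / 2 : ℂ) * h5
    rw [h7]
    ring
  have hconst := is_const_of_deriv_eq_zero (𝕜 := ℝ) (fun x => (hW x).differentiableAt)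
    (fun x => (hW x).deriv)
  have ht0 : t0 = 0 := by
    have h1 := hconst (0 + 2 * Real.pi) 0
    push_cast at h1
    rw [pH1, pG, pD, pQ0] at h1
    have h2 : t0 * (2 * Real.pi) = 0 := by linear_combination -h1
    have h3 : (2 * Real.pi : ℂ) ≠ 0 := by
      have : (2 * Real.pi : ℝ) ≠ 0 := by positivity
      exact_mod_cast this
    exact (mul_eq_zero.1 h2).resolve_right h3
  obtain ⟨C0, hC0⟩ : ∃ C0 : ℂ, ∀ x : ℝ, H1 x * (G x) ^ 2 / D x = Q0 x + C0 := by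
    refine ⟨H1 (0 : ℝ) * (G (0 : ℝ)) ^ 2 / D (0 : ℝ) - Q0 (0 : ℝ), fun x => ?_⟩
    have h1 := hconst x 0
    simp only [ht0, zero_mul, sub_zero] at h1
    linear_combination h1
  obtain ⟨Q, hQ⟩ : ∃ Q : ℂ → ℂ, Q = Q0 + fun _ => C0 := ⟨_, rfl⟩
  have mQ : Q ∈ TPA := by rw [hQ]; exact TPA.add_mem mQ0 (const_mem C0)
  have hQD : H1 * (G * G) = Q * D := by
    refine eq_of_real (TPA_differentiable (TPA.mul_mem mH1 (TPA.mul_mem mG mG)))
      (TPA_differentiable (TPA.mul_mem mQ mD)) fun x => ?_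
    have h1 := hC0 x
    rw [div_eq_iff (hDne x)] at h1
    simp only [hQ, Pi.mul_apply, Pi.add_apply]
    linear_combination h1
  obtain ⟨P, hP⟩ : ∃ P : ℂ → ℂ, P = G * G - H1 * Q := ⟨_, rfl⟩
  have mP : P ∈ TPA := by
    rw [hP]; exact TPA.sub_mem (TPA.mul_mem mG mG) (TPA.mul_mem mH1 mQ)
  have hPD : D * P = G * G := by
    rw [hP]
    have e1 : D * (G * G - H1 * Q) = D * (G * G) - H1 * (Q * D) := by ring
    rw [e1, ← hQD, hD]
    ring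
  obtain ⟨Px, hPx⟩ : ∃ Px : ℂ → ℂ, Px = deriv P := ⟨_, rfl⟩
  have mPx : Px ∈ TPA := by rw [hPx]; exact TPA_deriv mP
  have dP : ∀ x, HasDerivAt P (Px x) x := fun x => by
    rw [hPx]; exact (TPA_differentiable mP x).hasDerivAt
  have hPDx : ∀ x, 2 * H1 x * H2 x * P x + D x * Px x = 2 * G x * Gx x := by
    intro x
    have h1 := (dD x).mul (dP x)
    rw [hPD] at h1
    have h2 := h1.unique ((dG x).mul (dG x))
    rw [h2]; ring
  obtain ⟨R, hR⟩ : ∃ R : ℂ → ℂ, R = (g : ℂ) • H1 - (γ : ℂ) • G - Px := ⟨_, rfl⟩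
  have mR : R ∈ TPA := by
    rw [hR]
    exact TPA.sub_mem (TPA.sub_mem (TPA.smul_mem mH1 _) (TPA.smul_mem mG _)) mPx
  have hDR : (D * D * D * D * D) * (R * R) = ((κ : ℂ) ^ 2) • (K * K) := by
    refine eq_of_real (TPA_differentiable (TPA.mul_mem (TPA.mul_mem (TPA.mul_mem (TPA.mul_mem
      (TPA.mul_mem mD mD) mD) mD) mD) (TPA.mul_mem mR mR)))
      (TPA_differentiable (TPA.smul_mem (TPA.mul_mem mK mK) _)) fun x => ?_
    have h1 := (hsplit x).2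
    have h2 : 2 * (D x) ^ 2 * (g * H1 x - γ * G x) - (4 * G x * Gx x * D x -
        2 * G x ^ 2 * (2 * H1 x * H2 x)) = 2 * D x ^ 2 * R x := by
      have h3 := hPDx x
      have h4 : D x * P x = G x * G x := congrFun hPD x
      have h5 : R x = g * H1 x - γ * G x - Px x := by rw [hR]; simp
      rw [h5]
      linear_combination (2 * D x) * h3 - (4 * H1 x * H2 x) * h4
    rw [h2] at h1
    simp only [Pi.mul_apply, Pi.smul_apply, smul_eq_mul]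
    linear_combination (1 / 4 : ℂ) * h1
  -- leading coefficients
  have lD : Lead (N + N) D (I * N * h0 * (I * N * h0)) := by
    have h1 := (lead_one.zero_of_lt (n := (N : ℤ) + N) (by omega)).add (lH1.mul lH1)
    rw [zero_add, ← hD] at h1
    exact h1
  have hd : I * N * h0 * (I * N * h0) ≠ 0 := by
    have : I * (N : ℂ) * h0 ≠ 0 := mul_ne_zero (mul_ne_zero I_ne_zero hNC) hh
    exact mul_ne_zero this this
  obtain ⟨k0, lK⟩ : ∃ k0, Lead (N + (N + N)) K k0 := by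
    have h1 := (lH3.mul lD).sub ((lH1.mul (lH2.mul lH2)).smul 3)
    rw [← hK] at h1
    exact ⟨_, h1⟩
  have lR : Lead 0 R 0 := by
    apply lead_zero_of_sq
    have h1 := ((((lD.mul lD).mul lD).mul lD).mul lD)
    have h2 : Lead ((N : ℤ) + N + (N + N) + (N + N) + (N + N) + (N + N) + 0)
        ((D * D * D * D * D) * (R * R)) 0 := by
      rw [hDR]
      exact ((lK.mul lK).smul ((κ : ℂ) ^ 2)).zero_of_lt (by omega)
    have h3 := h1.of_mul (by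
      exact mul_ne_zero (mul_ne_zero (mul_ne_zero (mul_ne_zero hd hd) hd) hd) hd) h2
    rwa [zero_div] at h3
  have lG2 : ∀ {m : ℤ} {a : ℂ}, Lead m G a → Lead (m + m) (D * P) (a * a) := by
    intro m a hm
    rw [hPD]; exact hm.mul hm
  by_cases hγ : γ = 0
  · -- `γ = 0`
    have lG : Lead N G eN := by
      have : G = E := by rw [hG, hγ]; simp
      rw [this]; exact lE
    have lP : Lead 0 P (eN * eN / (I * N * h0 * (I * N * h0))) := by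
      refine lD.of_mul hd ?_
      rw [add_zero]
      exact lG2 lG
    have lPx := (lP.deriv mP)
    rw [← hPx, Int.cast_zero, mul_zero, zero_mul] at lPx
    have lR2 : Lead N R ((g : ℂ) * (I * N * h0) - (γ : ℂ) * eN - 0) := by
      rw [hR]
      exact ((lH1.smul _).sub (lG.smul _)).sub (lPx.zero_of_lt (by omega))
    have h1 := lR2.unique (lR.zero_of_lt (by omega))
    rw [hγ, ofReal_zero, zero_mul, sub_zero, sub_zero] at h1
    have : (g : ℂ) * (I * N * h0) ≠ 0 :=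
      mul_ne_zero (by exact_mod_cast hg.ne') (mul_ne_zero (mul_ne_zero I_ne_zero hNC) hh)
    exact this h1
  · -- `γ ≠ 0`
    have lG : Lead (N + N) G (0 - (γ : ℂ) * (h0 * (I * N * h0))) := by
      rw [hG]
      exact (lE.zero_of_lt (by omega)).sub ((lH.mul lH1).smul _)
    have lP := lD.of_mul hd (lG2 lG)
    have lPx := lP.deriv mP
    rw [← hPx] at lPx
    have lR2 := (((lH1.smul (g : ℂ)).zero_of_lt (n := (N : ℤ) + N) (by omega)).sub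
      (lG.smul (γ : ℂ))).sub lPx
    rw [← hR] at lR2
    have h1 := lR2.unique (lR.zero_of_lt (by omega))
    have hγC : (γ : ℂ) ≠ 0 := by exact_mod_cast hγ
    have hne : I * (N : ℂ) * h0 ≠ 0 := mul_ne_zero (mul_ne_zero I_ne_zero hNC) hh
    push_cast at h1
    have h2 : (0 - (γ : ℂ) * (h0 * (I * N * h0))) * (0 - (γ : ℂ) * (h0 * (I * N * h0))) /
        (I * N * h0 * (I * N * h0)) = γ ^ 2 * h0 ^ 2 := by
      rw [div_eq_iff (mul_ne_zero hne hne)]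
      ring
    rw [h2] at h1
    have h3 : (γ : ℂ) ^ 2 * h0 * (I * N * h0) = 0 := by linear_combination -h1
    exact (mul_ne_zero (mul_ne_zero (pow_ne_zero 2 hγC) hh) hne) h3

end WW47.M4

namespace WW47

open M4

theorem algebra (N : ℕ) (hN : 1 ≤ N) (c e d : ℤ → ℂ) (hc : RealC c) (he : RealC e) (hd : RealC d)
    (hcN : c N ≠ 0) (g κ γ : ℝ) (hg : 0 < g)
    (h : ∀ x : ℂ,
      (Jp g γ (tp N c x) (tp N (Dc c) x) (tp N (Dc (Dc c)) x)
        (Gp γ (tp N c x) (tp N (Dc c) x) (tp N e x))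
        (Gxp γ (tp N c x) (tp N (Dc c) x) (tp N (Dc (Dc c)) x) (tp N (Dc e) x))
        (I * Gp γ (tp N c x) (tp N (Dc c) x) (tp N e x))
        (I * Gxp γ (tp N c x) (tp N (Dc c) x) (tp N (Dc (Dc c)) x) (tp N (Dc e) x))
        (I * Gtp γ (tp N c x) (tp N (Dc c) x) (tp N e x) (tp N (Dc e) x) (tp N d x))) ^ 2
        * (1 + (tp N (Dc c) x) ^ 2)
      = 4 * κ ^ 2 * (Kp (tp N (Dc c) x) (tp N (Dc (Dc c)) x) (tp N (Dc (Dc (Dc c))) x)) ^ 2) :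
    False := by
  have l0 : ∀ b : ℤ → ℂ, Lead N (tp N (Dc b)) (I * N * b N) := fun b => by
    have := lead_tp N (Dc b)
    simpa [Dc] using this
  refine M4.core N hN hcN (tp_mem N c) (tp_mem N (Dc c)) (tp_mem N (Dc (Dc c)))
    (tp_mem N (Dc (Dc (Dc c)))) (tp_mem N e) (tp_mem N (Dc e)) (tp_mem N d)
    (fun x => hasDerivAt_tp N c x) (fun x => hasDerivAt_tp N (Dc c) x)
    (fun x => hasDerivAt_tp N e x)
    (fun x => ⟨_, tp_real N hc x⟩) (fun x => ⟨_, tp_real N (RealC_Dc hc) x⟩)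
    (fun x => ⟨_, tp_real N (RealC_Dc (RealC_Dc hc)) x⟩)
    (fun x => ⟨_, tp_real N (RealC_Dc (RealC_Dc (RealC_Dc hc))) x⟩)
    (fun x => ⟨_, tp_real N he x⟩) (fun x => ⟨_, tp_real N (RealC_Dc he) x⟩)
    (fun x => ⟨_, tp_real N hd x⟩)
    (tp_add_two_pi N c) (tp_add_two_pi N (Dc c)) (tp_add_two_pi N e)
    (lead_tp N c) (l0 c) ?_ ?_ (lead_tp N e) hg h
  · have := l0 (Dc c)
    simpa [Dc] using this
  · have := l0 (Dc (Dc c))
    simpa [Dc] using this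

end WW47
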