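import Pool.Agent.WW47.TP

/-!
# Tempered and negligible sequences
-/

open Complex Set Filter Topology

namespace WW47

/-- `f n = O(e^{A s_n})` for some `A` -/
def Tmp (s : ℕ → ℝ) (f : ℕ → ℂ) : Prop := ∃ A K : ℝ, ∀ n, ‖f n‖ ≤ K * Real.exp (A * s n)

/-- `f n = o(e^{-A s_n})` for every `A` -/
def Neg (s : ℕ → ℝ) (f : ℕ → ℂ) : Prop :=
  ∀ A : ℝ, Tendsto (fun n => Real.exp (A * s n) * ‖f n‖) atTop (𝓝 0)

variable {s : ℕ → ℝ} {f g : ℕ → ℂ}

lemma Tmp.const (c : ℂ) : Tmp s fun _ => c := ⟨0, ‖c‖, fun n => by simp⟩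

lemma Tmp.pos (hf : Tmp s f) : ∃ A K : ℝ, 0 ≤ K ∧ ∀ n, ‖f n‖ ≤ K * Real.exp (A * s n) := by
  obtain ⟨A, K, h⟩ := hf
  refine ⟨A, |K|, abs_nonneg _, fun n => (h n).trans ?_⟩
  gcongr
  exact le_abs_self K

lemma Tmp.add (hs : ∀ n, 0 ≤ s n) (hf : Tmp s f) (hg : Tmp s g) :
    Tmp s fun n => f n + g n := by
  obtain ⟨A, K, hK, h⟩ := hf.pos
  obtain ⟨B, L, hL, h'⟩ := hg.pos
  refine ⟨max A B, K + L, fun n => ?_⟩
  have hsn := hs n
  calc ‖f n + g n‖ ≤ ‖f n‖ + ‖g n‖ := norm_add_le _ _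
    _ ≤ K * Real.exp (A * s n) + L * Real.exp (B * s n) := add_le_add (h n) (h' n)
    _ ≤ K * Real.exp (max A B * s n) + L * Real.exp (max A B * s n) := by
        gcongr
        · exact le_max_left _ _
        · exact le_max_right _ _
    _ = _ := by ring

lemma Tmp.mul (hf : Tmp s f) (hg : Tmp s g) : Tmp s fun n => f n * g n := by
  obtain ⟨A, K, hK, h⟩ := hf.pos
  obtain ⟨B, L, hL, h'⟩ := hg.pos
  refine ⟨A + B, K * L, fun n => ?_⟩
  calc ‖f n * g n‖ = ‖f n‖ * ‖g n‖ := norm_mul _ _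
    _ ≤ (K * Real.exp (A * s n)) * (L * Real.exp (B * s n)) := by
        gcongr
        · exact h n
        · exact h' n
    _ = K * L * Real.exp ((A + B) * s n) := by
        rw [add_mul, Real.exp_add]; ring

lemma Tmp.neg (hf : Tmp s f) : Tmp s fun n => -f n := by
  obtain ⟨A, K, h⟩ := hf
  exact ⟨A, K, fun n => by rw [norm_neg]; exact h n⟩

lemma Tmp.sub (hs : ∀ n, 0 ≤ s n) (hf : Tmp s f) (hg : Tmp s g) :
    Tmp s fun n => f n - g n := by
  simpa [sub_eq_add_neg] using hf.add hs hg.neg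

lemma Tmp.pow (hf : Tmp s f) (k : ℕ) : Tmp s fun n => f n ^ k := by
  induction k with
  | zero => simpa using Tmp.const (s := s) 1
  | succ k ih => simpa [pow_succ] using ih.mul hf

lemma Neg.mul_tmp (hf : Neg s f) (hg : Tmp s g) : Neg s fun n => f n * g n := by
  obtain ⟨B, L, hL, h'⟩ := hg.pos
  intro A
  have h1 := (hf (A + B)).mul_const L
  rw [zero_mul] at h1
  refine squeeze_zero (fun n => by positivity) (fun n => ?_) h1
  calc Real.exp (A * s n) * ‖f n * g n‖ = Real.exp (A * s n) * ‖f n‖ * ‖g n‖ := by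
        rw [norm_mul]; ring
    _ ≤ Real.exp (A * s n) * ‖f n‖ * (L * Real.exp (B * s n)) := by gcongr; exact h' n
    _ = _ := by rw [add_mul, Real.exp_add]; ring

lemma Neg.add (hf : Neg s f) (hg : Neg s g) : Neg s fun n => f n + g n := by
  intro A
  have h1 := (hf A).add (hg A)
  rw [add_zero] at h1
  refine squeeze_zero (fun n => by positivity) (fun n => ?_) h1
  calc Real.exp (A * s n) * ‖f n + g n‖ ≤ Real.exp (A * s n) * (‖f n‖ + ‖g n‖) := by
        gcongr; exact norm_add_le _ _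
    _ = _ := by ring

lemma Neg.neg (hf : Neg s f) : Neg s fun n => -f n := by
  intro A
  simpa using hf A

/-- double exponential decay is negligible -/
lemma Neg.of_exp (hs : Tendsto s atTop atTop) {B a : ℝ} (ha : 0 < a)
    (h : ∀ n, ‖f n‖ ≤ B * Real.exp (-a * Real.exp (s n))) : Neg s f := by
  intro A
  have hB : 0 ≤ B := by
    have h1 := (norm_nonneg _).trans (h 0)
    by_contra hneg
    push Not at hneg
    have := mul_neg_of_neg_of_pos hneg (Real.exp_pos (-a * Real.exp (s 0)))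
    linarith
  have h1 : Tendsto (fun u : ℝ => Real.exp u / u ^ 1) atTop atTop :=
    Real.tendsto_exp_div_pow_atTop 1
  have h2 : ∀ᶠ u : ℝ in atTop, A * u - a * Real.exp u ≤ -u := by
    filter_upwards [h1.eventually_ge_atTop ((A + 1) / a), eventually_gt_atTop 0] with u hu hu0
    rw [pow_one, div_le_div_iff₀ ha hu0] at hu
    linarith
  have h3 : ∀ᶠ n in atTop, Real.exp (A * s n) * ‖f n‖ ≤ B * Real.exp (-s n) := by
    filter_upwards [hs.eventually h2] with n hn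
    calc Real.exp (A * s n) * ‖f n‖ ≤ Real.exp (A * s n) * (B * Real.exp (-a * Real.exp (s n))) := by
          gcongr; exact h n
      _ = B * Real.exp (A * s n - a * Real.exp (s n)) := by
          rw [Real.exp_sub, show -a * Real.exp (s n) = -(a * Real.exp (s n)) by ring,
            Real.exp_neg]
          field_simp
      _ ≤ B * Real.exp (-s n) := by gcongr
  have h4 : Tendsto (fun n => B * Real.exp (-s n)) atTop (𝓝 0) := by
    have h5 : Tendsto (fun n => Real.exp (-s n)) atTop (𝓝 0) :=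
      Real.tendsto_exp_atBot.comp (tendsto_neg_atTop_atBot.comp hs)
    simpa using h5.const_mul B
  exact squeeze_zero' (Eventually.of_forall fun n => by positivity) h3 h4

lemma Tmp.of_TPA {F : ℂ → ℂ} (hF : F ∈ TPA) {x : ℕ → ℂ} (hx : ∀ n, 0 ≤ -(x n).im) :
    Tmp (fun n => -(x n).im) fun n => F (x n) := by
  obtain ⟨A, K, h⟩ := TP_tempered hF
  exact ⟨A, K, fun n => h (x n) (hx n)⟩

lemma Tmp.of_neg (hf : Neg s f) : Tmp s f := by
  have h1 := hf 0
  simp only [zero_mul, Real.exp_zero, one_mul] at h1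
  obtain ⟨K, hK⟩ := h1.bddAbove_range
  refine ⟨0, K, fun n => ?_⟩
  have := hK ⟨n, rfl⟩
  simpa using this

/-! pointwise closure of `TPA` -/

lemma TPA_add {f g : ℂ → ℂ} (hf : f ∈ TPA) (hg : g ∈ TPA) : (fun x => f x + g x) ∈ TPA :=
  TPA.add_mem hf hg

lemma TPA_sub {f g : ℂ → ℂ} (hf : f ∈ TPA) (hg : g ∈ TPA) : (fun x => f x - g x) ∈ TPA :=
  TPA.sub_mem hf hg

lemma TPA_mul {f g : ℂ → ℂ} (hf : f ∈ TPA) (hg : g ∈ TPA) : (fun x => f x * g x) ∈ TPA :=
  TPA.mul_mem hf hg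

lemma TPA_neg {f : ℂ → ℂ} (hf : f ∈ TPA) : (fun x => -f x) ∈ TPA :=
  TPA.neg_mem hf

lemma TPA_pow {f : ℂ → ℂ} (hf : f ∈ TPA) (k : ℕ) : (fun x => f x ^ k) ∈ TPA :=
  TPA.pow_mem hf k

end WW47
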