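import Pool.Agent.WW47.Base

/-!
# Module M2 of `MP_e9adf6_an` (finitely many space harmonics), pure complex analysis

`H x = ∑_{|k| ≤ N} c k e^{ikx}` is real on the real line and of exact degree `N ≥ 1`,
`Z x = x + i H x`.  There is a connected open set `Ω` in the lower half plane on which
`Im Z < -C`, which comes near the real line and reaches down to points where
`Im Z ≤ -a e^{|Im x|}`.
-/

open Complex Set Filter Topology

namespace WW47.M2

/-- The trigonometric polynomial with coefficients `c k`, `|k| ≤ N`. -/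
noncomputable def H (c : ℤ → ℂ) (N : ℕ) (x : ℂ) : ℂ :=
  ∑ k ∈ Finset.Icc (-(N : ℤ)) N, c k * exp (I * k * x)

/-- The parametrisation `x + i H x` of the surface, extended to complex `x`. -/
noncomputable def Z (c : ℤ → ℂ) (N : ℕ) (x : ℂ) : ℂ := x + I * H c N x

lemma differentiable_H (c : ℤ → ℂ) (N : ℕ) : Differentiable ℂ (H c N) := by
  unfold H
  fun_prop

lemma continuous_H (c : ℤ → ℂ) (N : ℕ) : Continuous (H c N) := (differentiable_H c N).continuous

lemma differentiable_Z (c : ℤ → ℂ) (N : ℕ) : Differentiable ℂ (Z c N) := by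
  unfold Z
  exact differentiable_id.add ((differentiable_const _).mul (differentiable_H c N))

lemma continuous_Z (c : ℤ → ℂ) (N : ℕ) : Continuous (Z c N) := (differentiable_Z c N).continuous

lemma Z_im (c : ℤ → ℂ) (N : ℕ) (x : ℂ) : (Z c N x).im = x.im + (H c N x).re := by
  simp [Z]

lemma H_conj {c : ℤ → ℂ} {N : ℕ} (hc : ∀ k, c (-k) = (starRingEnd ℂ) (c k)) (x : ℂ) :
    H c N ((starRingEnd ℂ) x) = (starRingEnd ℂ) (H c N x) := by
  unfold H
  rw [map_sum]
  refine Finset.sum_bij' (fun k _ => -k) (fun k _ => -k) ?_ ?_ ?_ ?_ ?_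
  · intro k hk
    simp only [Finset.mem_Icc] at hk ⊢
    omega
  · intro k hk
    simp only [Finset.mem_Icc] at hk ⊢
    omega
  · intro k _; simp
  · intro k _; simp
  · intro k _
    rw [hc k, map_mul, ← exp_conj]
    simp

lemma H_im_real {c : ℤ → ℂ} {N : ℕ} (hc : ∀ k, c (-k) = (starRingEnd ℂ) (c k)) (x : ℝ) :
    (H c N x).im = 0 := by
  have h := H_conj (N := N) hc (x : ℂ)
  rw [conj_ofReal] at h
  have := congrArg Complex.im h
  simp only [conj_im] at this
  linarith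

lemma H_add_period (c : ℤ → ℂ) (N : ℕ) (x : ℂ) : H c N (x + 2 * Real.pi) = H c N x := by
  unfold H
  refine Finset.sum_congr rfl fun k _ => ?_
  congr 1
  have : I * (k : ℂ) * (x + 2 * Real.pi) = I * k * x + k * (2 * Real.pi * I) := by ring
  rw [this, exp_add, exp_int_mul_two_pi_mul_I, mul_one]

/-- `Re H` attains its minimum over the real line. -/
lemma exists_min (c : ℤ → ℂ) (N : ℕ) : ∃ x0 : ℝ, ∀ x : ℝ, (H c N x0).re ≤ (H c N x).re := by
  have hper : Function.Periodic (fun x : ℝ => (H c N x).re) (2 * Real.pi) := by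
    intro x
    have := H_add_period c N (x : ℂ)
    simp only
    rw [← this]
    push_cast
    rfl
  have hcont : Continuous (fun x : ℝ => (H c N x).re) :=
    continuous_re.comp ((continuous_H c N).comp continuous_ofReal)
  obtain ⟨x0, hx0, hmin⟩ := (isCompact_Icc (a := (0 : ℝ)) (b := 2 * Real.pi)).exists_isMinOn
    ⟨0, by constructor <;> positivity⟩ hcont.continuousOn
  refine ⟨x0, fun x => ?_⟩
  obtain ⟨y, hy, hxy⟩ := hper.exists_mem_Ico₀ (by positivity) x
  rw [hxy]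
  exact hmin (Ico_subset_Icc_self hy)

/-- Just below the real line `Im Z` is below its value on it. -/
lemma exists_below {c : ℤ → ℂ} {N : ℕ} (hc : ∀ k, c (-k) = (starRingEnd ℂ) (c k)) (x0 : ℝ)
    {δ : ℝ} (hδ : 0 < δ) :
    ∃ s : ℝ, 0 < s ∧ s < δ ∧ (Z c N (x0 - I * s)).im < (H c N x0).re := by
  set f : ℝ → ℝ := fun s => (H c N (x0 - I * s)).re with hf
  have heven : ∀ s, f (-s) = f s := by
    intro s
    simp only [hf]
    have : ((x0 : ℂ) - I * ((-s : ℝ) : ℂ)) = (starRingEnd ℂ) ((x0 : ℂ) - I * (s : ℂ)) := by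
      simp
    rw [this, H_conj hc, conj_re]
  have hd : DifferentiableAt ℝ f 0 := by
    have h1 : DifferentiableAt ℝ (fun s : ℝ => H c N ((x0 : ℂ) - I * (s : ℂ))) 0 := by
      have h2 : DifferentiableAt ℂ (fun s : ℂ => H c N ((x0 : ℂ) - I * s)) ((0 : ℝ) : ℂ) := by
        exact ((differentiable_H c N).comp (by fun_prop)).differentiableAt
      exact h2.hasDerivAt.comp_ofReal.differentiableAt
    exact reCLM.differentiableAt.comp (0 : ℝ) h1
  have hder : deriv f 0 = 0 := by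
    have h1 := hd.hasDerivAt
    have h2 : HasDerivAt (fun s => f (-s)) (deriv f 0 * (-1)) 0 := by
      have h3 : HasDerivAt f (deriv f 0) (-(0 : ℝ)) := by simpa using h1
      exact h3.comp (0 : ℝ) (hasDerivAt_neg 0)
    have h4 : (fun s => f (-s)) = f := funext heven
    rw [h4] at h2
    have := h1.unique h2
    linarith
  have hg : HasDerivAt (fun s : ℝ => -s + f s) (-1 + 0) 0 := by
    have h1 := hd.hasDerivAt
    rw [hder] at h1
    exact (hasDerivAt_neg 0).add h1
  rw [hasDerivAt_iff_tendsto_slope] at hg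
  have hev : ∀ᶠ s in 𝓝[≠] (0 : ℝ), slope (fun s : ℝ => -s + f s) 0 s < 0 :=
    hg.eventually (gt_mem_nhds (by norm_num))
  have hev2 : ∀ᶠ s in 𝓝[>] (0 : ℝ), slope (fun s : ℝ => -s + f s) 0 s < 0 :=
    hev.filter_mono (nhdsWithin_mono _ (fun x hx => ne_of_gt hx))
  have hev3 : ∀ᶠ s in 𝓝[>] (0 : ℝ), s ∈ Ioo 0 δ := Ioo_mem_nhdsGT hδ
  obtain ⟨s, hs, hs2⟩ := (hev2.and hev3).exists
  refine ⟨s, hs2.1, hs2.2, ?_⟩
  rw [slope_def_field] at hs
  have hs0 : 0 < s := hs2.1
  have : (-s + f s - (-0 + f 0)) < 0 := by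
    rw [div_neg_iff] at hs
    rcases hs with h | h
    · linarith [h.2]
    · simpa using h.1
  rw [Z_im]
  have e1 : ((x0 : ℂ) - I * s).im = -s := by simp
  have e2 : f 0 = (H c N x0).re := by simp [hf]
  rw [e1]
  have e3 : f s = (H c N (x0 - I * s)).re := rfl
  rw [← e3, ← e2]
  linarith

/-- The part of the lower half plane on which `Im Z < -C`. -/
def U (c : ℤ → ℂ) (N : ℕ) (C : ℝ) : Set ℂ := {x | x.im < 0 ∧ (Z c N x).im < -C}

lemma isOpen_U (c : ℤ → ℂ) (N : ℕ) (C : ℝ) : IsOpen (U c N C) :=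
  (isOpen_lt continuous_im continuous_const).inter
    (isOpen_lt (continuous_im.comp (continuous_Z c N)) continuous_const)

lemma closure_comp_inter {c : ℤ → ℂ} {N : ℕ} {C : ℝ} {x1 x : ℂ}
    (hx : x ∈ closure (connectedComponentIn (U c N C) x1)) (hxU : x ∈ U c N C) :
    x ∈ connectedComponentIn (U c N C) x1 := by
  have h1 : IsOpen (connectedComponentIn (U c N C) x) := (isOpen_U c N C).connectedComponentIn
  have h2 : x ∈ connectedComponentIn (U c N C) x := mem_connectedComponentIn hxU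
  obtain ⟨y, hy1, hy2⟩ := mem_closure_iff.1 hx _ h1 h2
  rw [connectedComponentIn_eq hy2, ← connectedComponentIn_eq hy1]
  exact h2

lemma norm_H_le (c : ℤ → ℂ) (N : ℕ) {S : ℝ} {x : ℂ} (h1 : -S ≤ x.im) (h2 : x.im ≤ 0) :
    ‖H c N x‖ ≤ (∑ k ∈ Finset.Icc (-(N : ℤ)) N, ‖c k‖) * Real.exp (N * S) := by
  unfold H
  rw [Finset.sum_mul]
  refine (norm_sum_le _ _).trans (Finset.sum_le_sum fun k hk => ?_)
  rw [norm_mul, norm_exp]
  gcongr
  have e : (I * (k : ℂ) * x).re = -(k * x.im) := by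
    simp
  rw [e]
  simp only [Finset.mem_Icc] at hk
  have hk1 : -(N : ℝ) ≤ k := by exact_mod_cast hk.1
  have hk2 : (k : ℝ) ≤ N := by exact_mod_cast hk.2
  have hN : (0 : ℝ) ≤ N := Nat.cast_nonneg N
  nlinarith [mul_nonneg (sub_nonneg.2 hk2) (neg_nonneg.2 h2), mul_nonneg hN (by linarith : 0 ≤ S + x.im)]

lemma norm_exp_Z (c : ℤ → ℂ) (N : ℕ) (ε : ℝ) (x : ℂ) :
    ‖exp (I * Z c N x - ε * x ^ 2)‖ = Real.exp (-(Z c N x).im - ε * (x.re ^ 2 - x.im ^ 2)) := by
  rw [norm_exp]
  congr 1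
  simp [pow_two]

/-- The components of `{Im x < 0, Im Z x < -C}` are unbounded downwards. -/
lemma comp_unbounded {c : ℤ → ℂ} {N : ℕ} {C : ℝ} (hC : ∀ x : ℝ, -C < (H c N x).re) {x1 : ℂ}
    (hx1 : x1 ∈ U c N C) (S : ℝ) : ∃ x ∈ connectedComponentIn (U c N C) x1, x.im < -S := by
  by_contra hcon
  push Not at hcon
  set Ω := connectedComponentIn (U c N C) x1 with hΩ
  have hΩo : IsOpen Ω := (isOpen_U c N C).connectedComponentIn
  have hx1Ω : x1 ∈ Ω := mem_connectedComponentIn hx1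
  have hsub : Ω ⊆ U c N C := connectedComponentIn_subset _ _
  -- the closure of `Ω` lies in a strip
  have hcl : ∀ x ∈ closure Ω, -S ≤ x.im ∧ x.im ≤ 0 := by
    have hclosed : IsClosed {x : ℂ | -S ≤ x.im ∧ x.im ≤ 0} :=
      (isClosed_le continuous_const continuous_im).inter (isClosed_le continuous_im continuous_const)
    have hss : Ω ⊆ {x : ℂ | -S ≤ x.im ∧ x.im ≤ 0} := fun y hy => ⟨hcon y hy, (hsub hy).1.le⟩
    exact fun x hx => closure_minimal hss hclosed hx
  -- on the frontier `Im Z ≥ -C`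
  have hfr : ∀ x ∈ closure Ω, x ∉ Ω → -C ≤ (Z c N x).im := by
    intro x hx hxn
    by_contra hlt
    push Not at hlt
    rcases (hcl x hx).2.lt_or_eq with h0 | h0
    · exact hxn (closure_comp_inter hx ⟨h0, hlt⟩)
    · have hxr : x = ((x.re : ℝ) : ℂ) := by
        apply Complex.ext <;> simp [h0]
      have h1 := hC x.re
      rw [← hxr] at h1
      rw [Z_im, h0] at hlt
      linarith
  have hS : 0 < S := by
    have h1 := hcon x1 hx1Ω
    have h2 := hx1.1
    linarith
  -- choice of `ε`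
  have hgap : 0 < -(Z c N x1).im - C := by
    have := hx1.2
    linarith
  obtain ⟨ε, hε, hε2⟩ : ∃ ε : ℝ, 0 < ε ∧ ε * (S ^ 2 + x1.re ^ 2) < -(Z c N x1).im - C := by
    refine ⟨(-(Z c N x1).im - C) / (S ^ 2 + x1.re ^ 2 + 1), by positivity, ?_⟩
    rw [div_mul_eq_mul_div, div_lt_iff₀ (by positivity)]
    nlinarith [sq_nonneg S, sq_nonneg x1.re]
  set M : ℝ := (∑ k ∈ Finset.Icc (-(N : ℤ)) N, ‖c k‖) * Real.exp (N * S) with hM
  have hM0 : 0 ≤ M := by positivity
  have hZlow : ∀ x ∈ closure Ω, -(S + M) ≤ (Z c N x).im := by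
    intro x hx
    rw [Z_im]
    have h1 := norm_H_le c N (hcl x hx).1 (hcl x hx).2
    have h2 := (abs_le.1 (abs_re_le_norm (H c N x))).1
    have h3 := (hcl x hx).1
    linarith
  -- choice of `L`
  obtain ⟨L, hL1, hL2⟩ : ∃ L : ℝ, |x1.re| < L ∧ S + M - C ≤ ε * L ^ 2 := by
    refine ⟨|x1.re| + 1 + |S + M - C| / ε, ?_, ?_⟩
    · have : 0 ≤ |S + M - C| / ε := by positivity
      linarith
    · have h1 : |S + M - C| / ε ≤ (|x1.re| + 1 + |S + M - C| / ε) ^ 2 := by
        have h2 : 0 ≤ |S + M - C| / ε := by positivity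
        have h3 : 0 ≤ |x1.re| := abs_nonneg _
        nlinarith [mul_nonneg h2 h3]
      calc S + M - C ≤ |S + M - C| := le_abs_self _
        _ = ε * (|S + M - C| / ε) := by field_simp
        _ ≤ _ := by gcongr
  set W : Set ℂ := Ω ∩ {x | |x.re| < L} with hW
  have hWo : IsOpen W := hΩo.inter (isOpen_lt (continuous_abs.comp continuous_re) continuous_const)
  have hWb : Bornology.IsBounded W := by
    rw [isBounded_iff_forall_norm_le]
    refine ⟨L + S, fun x hx => ?_⟩
    have h1 := (hcl x (subset_closure hx.1))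
    have h2 : |x.im| ≤ S := abs_le.2 ⟨h1.1, h1.2.trans hS.le⟩
    have h3 : |x.re| < L := hx.2
    exact (norm_le_abs_re_add_abs_im x).trans (by linarith)
  have hdiff : DiffContOnCl ℂ (fun x => exp (I * Z c N x - ε * x ^ 2)) W := by
    apply Differentiable.diffContOnCl
    have := differentiable_Z c N
    fun_prop
  have hx1W : x1 ∈ W := ⟨hx1Ω, hL1⟩
  have hfront : ∀ x ∈ frontier W, ‖exp (I * Z c N x - ε * x ^ 2)‖ ≤ Real.exp (C + ε * S ^ 2) := ?_
  · have key := Complex.norm_le_of_forall_mem_frontier_norm_le hWb hdiff hfront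
      (subset_closure hx1W)
    rw [norm_exp_Z, Real.exp_le_exp] at key
    nlinarith [sq_nonneg x1.im]
  · intro x hx
    rw [norm_exp_Z, Real.exp_le_exp]
    have hxcl : x ∈ closure Ω := closure_mono inter_subset_left (frontier_subset_closure hx)
    have hxn : x ∉ W := by
      have := hx.2
      rwa [hWo.interior_eq] at this
    have him : x.im ^ 2 ≤ S ^ 2 := by
      have := hcl x hxcl
      nlinarith
    by_cases hxΩ : x ∈ Ω
    · have hre : L ≤ |x.re| := by
        by_contra hlt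
        push Not at hlt
        exact hxn ⟨hxΩ, hlt⟩
      have hre2 : L ^ 2 ≤ x.re ^ 2 := by
        rw [← sq_abs x.re]
        have : 0 ≤ L := (abs_nonneg _).trans hL1.le
        gcongr
      have := hZlow x hxcl
      nlinarith [mul_le_mul_of_nonneg_left hre2 hε.le, mul_le_mul_of_nonneg_left him hε.le]
    · have := hfr x hxcl hxΩ
      nlinarith [mul_nonneg hε.le (sq_nonneg x.re), mul_le_mul_of_nonneg_left him hε.le]

/-- `H` without its top frequency. -/
noncomputable def Low (c : ℤ → ℂ) (N : ℕ) (x : ℂ) : ℂ :=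
  ∑ k ∈ Finset.Ico (-(N : ℤ)) N, c k * exp (I * k * x)

lemma H_split (c : ℤ → ℂ) (N : ℕ) (x : ℂ) :
    H c N x = c N * exp (I * N * x) + Low c N x := by
  unfold H Low
  rw [← Finset.Ico_insert_right (by omega : -(N : ℤ) ≤ N), Finset.sum_insert (by simp)]
  simp

lemma top_re (c : ℤ → ℂ) (N : ℕ) (u s : ℝ) :
    (c N * exp (I * N * ((u : ℂ) - I * s))).re =
      ‖c N‖ * Real.exp (N * s) * Real.cos (N * u + arg (c N)) := by
  have h1 : c N * exp (I * N * ((u : ℂ) - I * s)) =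
      ((‖c N‖ * Real.exp (N * s) : ℝ) : ℂ) * exp (((N * u + arg (c N) : ℝ) : ℂ) * I) := by
    conv_lhs => rw [← norm_mul_exp_arg_mul_I (c N)]
    rw [mul_assoc, ← exp_add, ofReal_mul, ofReal_exp, mul_assoc (‖c N‖ : ℂ), ← exp_add]
    congr 2
    push_cast
    ring_nf
    simp only [I_sq]
    ring
  rw [h1, re_ofReal_mul, exp_ofReal_mul_I_re]

/-- Bound for the lower frequencies. -/
lemma norm_Low_le (c : ℤ → ℂ) (N : ℕ) (u : ℝ) {s : ℝ} (hs : 0 ≤ s) :
    ‖Low c N ((u : ℂ) - I * s)‖ ≤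
      (∑ k ∈ Finset.Ico (-(N : ℤ)) N, ‖c k‖) * Real.exp ((N - 1) * s) := by
  unfold Low
  rw [Finset.sum_mul]
  refine (norm_sum_le _ _).trans (Finset.sum_le_sum fun k hk => ?_)
  rw [norm_mul, norm_exp]
  gcongr
  have e : (I * (k : ℂ) * ((u : ℂ) - I * s)).re = k * s := by
    simp
  rw [e]
  simp only [Finset.mem_Ico] at hk
  have hk2 : (k : ℝ) ≤ N - 1 := by
    have : k ≤ (N : ℤ) - 1 := by omega
    exact_mod_cast this
  gcongr

lemma norm_Low_sub_le (c : ℤ → ℂ) (N : ℕ) (u u' : ℝ) {s : ℝ} (hs : 0 ≤ s) :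
    ‖Low c N ((u' : ℂ) - I * s) - Low c N ((u : ℂ) - I * s)‖ ≤
      (∑ k ∈ Finset.Ico (-(N : ℤ)) N, ‖c k‖) * Real.exp ((N - 1) * s) * (N * |u' - u|) := by
  unfold Low
  rw [← Finset.sum_sub_distrib, Finset.sum_mul, Finset.sum_mul]
  refine (norm_sum_le _ _).trans (Finset.sum_le_sum fun k hk => ?_)
  have e : c k * exp (I * k * ((u' : ℂ) - I * s)) - c k * exp (I * k * ((u : ℂ) - I * s)) =
      c k * exp (I * k * ((u : ℂ) - I * s)) * (exp (I * ((k * (u' - u) : ℝ) : ℂ)) - 1) := by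
    have e0 : exp (I * k * ((u' : ℂ) - I * s)) =
        exp (I * k * ((u : ℂ) - I * s)) * exp (I * ((k * (u' - u) : ℝ) : ℂ)) := by
      rw [← exp_add]
      congr 1
      push_cast
      ring
    rw [e0]
    ring
  rw [e, norm_mul, norm_mul, norm_exp]
  simp only [Finset.mem_Ico] at hk
  have hk2 : (k : ℝ) ≤ N - 1 := by
    have : k ≤ (N : ℤ) - 1 := by omega
    exact_mod_cast this
  have hk1 : -(N : ℝ) ≤ k := by exact_mod_cast hk.1
  have e : (I * (k : ℂ) * ((u : ℂ) - I * s)).re = k * s := by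
    simp
  rw [e]
  have h3 : ‖exp (I * ((k * (u' - u) : ℝ) : ℂ)) - 1‖ ≤ N * |u' - u| := by
    refine (Real.norm_exp_I_mul_ofReal_sub_one_le).trans ?_
    rw [Real.norm_eq_abs, abs_mul]
    gcongr
    exact abs_le.2 ⟨hk1, by linarith⟩
  gcongr

lemma half_le_sin {t : ℝ} (h1 : 1 ≤ t) (h2 : t ≤ 2 * Real.pi / 3) : 1 / 2 ≤ Real.sin t := by
  have hpi := Real.pi_gt_three
  have hpi4 := Real.pi_le_four
  rcases le_total t (Real.pi / 2) with h | h
  · rw [← Real.sin_pi_div_six]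
    exact Real.sin_le_sin_of_le_of_le_pi_div_two (by linarith) h (by linarith)
  · rw [← Real.sin_pi_div_six, ← Real.sin_pi_sub t]
    exact Real.sin_le_sin_of_le_of_le_pi_div_two (by linarith) (by linarith) (by linarith)

lemma cos_sub_cos_ge {a b : ℝ} (ha : 1 ≤ a) (hab : a ≤ b) (hb : b ≤ 2 * Real.pi / 3) :
    (b - a) / Real.pi ≤ Real.cos a - Real.cos b := by
  have hpi := Real.pi_gt_three
  rw [Real.cos_sub_cos]
  have h1 : 1 / 2 ≤ Real.sin ((a + b) / 2) := half_le_sin (by linarith) (by linarith)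
  have h2 : 2 / Real.pi * ((b - a) / 2) ≤ Real.sin ((b - a) / 2) :=
    Real.mul_le_sin (by linarith) (by linarith)
  have h3 : Real.sin ((a - b) / 2) = -Real.sin ((b - a) / 2) := by
    rw [← Real.sin_neg]; congr 1; ring
  rw [h3]
  have h4 : 2 / Real.pi * ((b - a) / 2) = (b - a) / Real.pi := by ring
  rw [h4] at h2
  have h5 : 0 ≤ (b - a) / Real.pi := by
    apply div_nonneg <;> linarith
  nlinarith

/-- The horizontal segment to the nearest point where the top frequency is negative real. -/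
lemma exists_shift (c : ℤ → ℂ) (N : ℕ) (hN : 1 ≤ N) {C s u : ℝ} (hs0 : 0 ≤ s) (hsC : C < s)
    (h1 : s - C + (∑ k ∈ Finset.Ico (-(N : ℤ)) N, ‖c k‖) ≤ ‖c N‖ / 2 * Real.exp s)
    (h2 : (∑ k ∈ Finset.Ico (-(N : ℤ)) N, ‖c k‖) ≤ ‖c N‖ * Real.exp s / Real.pi)
    (hs : 0 < s)
    (hu : ((u : ℂ) - I * s) ∈ U c N C) :
    ∃ x ∈ connectedComponentIn (U c N C) ((u : ℂ) - I * s), x.im = -s ∧
      (Z c N x).im ≤ -(‖c N‖ / 2) * Real.exp s := by
  set K : ℝ := ∑ k ∈ Finset.Ico (-(N : ℤ)) N, ‖c k‖ with hK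
  set r : ℝ := ‖c N‖ with hr
  have hK0 : 0 ≤ K := Finset.sum_nonneg fun _ _ => norm_nonneg _
  have hr0 : 0 ≤ r := norm_nonneg _
  have hN' : (1 : ℝ) ≤ N := by exact_mod_cast hN
  set E : ℝ := Real.exp ((N - 1) * s) with hE
  have hE1 : 1 ≤ E := Real.one_le_exp (mul_nonneg (by linarith) hs0)
  have hEN : Real.exp (N * s) = E * Real.exp s := by
    rw [hE, ← Real.exp_add]; congr 1; ring
  -- formula for `Re H`
  have hre : ∀ v : ℝ, (H c N ((v : ℂ) - I * s)).re =
      r * (E * Real.exp s) * Real.cos (N * v + arg (c N)) + (Low c N ((v : ℂ) - I * s)).re := by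
    intro v
    rw [H_split, add_re, top_re, hEN]
  have hlow : ∀ v : ℝ, |(Low c N ((v : ℂ) - I * s)).re| ≤ K * E := fun v =>
    (abs_re_le_norm _).trans (norm_Low_le c N v hs0)
  have him : ∀ v : ℝ, ((v : ℂ) - I * s).im = -s := by intro v; simp
  have hmem : ∀ v : ℝ, ((v : ℂ) - I * s) ∈ U c N C ↔ (H c N ((v : ℂ) - I * s)).re < s - C := by
    intro v
    unfold U
    rw [Set.mem_ofPred_eq, Z_im, him]
    constructor
    · intro h; linarith [h.2]
    · intro h; exact ⟨by linarith, by linarith⟩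
  -- the combined smallness
  have h2' : s - C + K * E ≤ r / 2 * (E * Real.exp s) := by
    have : (s - C + K) * E ≤ (r / 2 * Real.exp s) * E := by gcongr
    nlinarith
  set θ : ℝ := N * u + arg (c N) with hθ
  set n : ℤ := ⌊θ / (2 * Real.pi)⌋ with hn
  set φ : ℝ := θ - (2 * n + 1) * Real.pi with hφ
  have hpi := Real.pi_gt_three
  have hφ1 : -Real.pi ≤ φ ∧ φ ≤ Real.pi := by
    have f1 := Int.floor_le (θ / (2 * Real.pi))
    have f2 := Int.lt_floor_add_one (θ / (2 * Real.pi))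
    rw [le_div_iff₀ (by positivity)] at f1
    rw [div_lt_iff₀ (by positivity)] at f2
    rw [← hn] at f1 f2
    constructor
    · rw [hφ]; linarith
    · rw [hφ]; linarith
  -- cosine along the segment
  have hcos : ∀ l : ℝ, Real.cos (N * (u - (1 - l) * φ / N) + arg (c N)) = -Real.cos (l * φ) := by
    intro l
    have e : N * (u - (1 - l) * φ / N) + arg (c N) = l * φ + Real.pi + n * (2 * Real.pi) := by
      have : (N : ℝ) ≠ 0 := by linarith
      have e2 : N * (u - (1 - l) * φ / N) = N * u - (1 - l) * φ := by field_simp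
      rw [e2]
      have : N * u + arg (c N) = φ + (2 * n + 1) * Real.pi := by rw [hφ, hθ]; ring
      linear_combination this
    rw [e, Real.cos_add_int_mul_two_pi, Real.cos_add_pi]
  have hu1 := (hmem u).1 hu
  have hcosφ : -(1 / 2) < Real.cos φ := by
    have e1 := hre u
    have e2 : Real.cos (N * u + arg (c N)) = -Real.cos φ := by
      have := hcos 1
      simpa using this
    rw [e2] at e1
    by_contra hle
    push Not at hle
    have e3 := (abs_le.1 (hlow u)).1
    have hpos : 0 ≤ r * (E * Real.exp s) := by positivity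
    nlinarith
  have hφ2 : |φ| ≤ 2 * Real.pi / 3 := by
    by_contra hgt
    push Not at hgt
    have h3 : Real.cos |φ| < Real.cos (2 * Real.pi / 3) :=
      Real.cos_lt_cos_of_nonneg_of_le_pi (by positivity) (abs_le.2 hφ1) hgt
    rw [Real.cos_abs] at h3
    have h4 : Real.cos (2 * Real.pi / 3) = -(1 / 2) := by
      rw [← Real.cos_pi_div_three, ← Real.cos_pi_sub]
      congr 1; ring
    linarith
  -- the whole segment is in `U`
  have hseg : ∀ l ∈ Icc (0 : ℝ) 1, (((u - (1 - l) * φ / N : ℝ) : ℂ) - I * s) ∈ U c N C := by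
    intro l hl
    rw [hmem, hre, hcos]
    have hlabs : |l * φ| = l * |φ| := by rw [abs_mul, abs_of_nonneg hl.1]
    rcases le_total (l * |φ|) 1 with hcase | hcase
    · have hc1 : 1 / 2 ≤ Real.cos (l * φ) := by
        rw [← Real.cos_pi_div_three, ← Real.cos_abs (l * φ), hlabs]
        exact Real.cos_le_cos_of_nonneg_of_le_pi (mul_nonneg hl.1 (abs_nonneg _))
          (by linarith) (by linarith)
      have e3 := (abs_le.1 (hlow (u - (1 - l) * φ / N))).2
      have hpos : 0 ≤ r * (E * Real.exp s) := by positivity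
      nlinarith
    · have hc1 : (|φ| - l * |φ|) / Real.pi ≤ Real.cos (l * φ) - Real.cos φ := by
        have := cos_sub_cos_ge hcase (mul_le_of_le_one_left (abs_nonneg φ) hl.2) hφ2
        rwa [← hlabs, Real.cos_abs, Real.cos_abs, hlabs] at this
      have e1 := hre u
      have e2 : Real.cos (N * u + arg (c N)) = -Real.cos φ := by
        have := hcos 1
        simpa using this
      rw [e2] at e1
      have e4 := norm_Low_sub_le c N u (u - (1 - l) * φ / N) hs0
      have e5 := (abs_le.1 ((abs_re_le_norm _).trans e4)).2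
      rw [sub_re] at e5
      have e6 : (N : ℝ) * |u - (1 - l) * φ / N - u| = (1 - l) * |φ| := by
        have h7 : u - (1 - l) * φ / N - u = -((1 - l) * φ / N) := by ring
        rw [h7, abs_neg, abs_div, abs_mul, abs_of_nonneg (by linarith [hl.2] : 0 ≤ 1 - l),
          Nat.abs_cast]
        field_simp
      rw [e6] at e5
      have hD : 0 ≤ (1 - l) * |φ| := mul_nonneg (by linarith [hl.2]) (abs_nonneg _)
      have h8 : K * E * ((1 - l) * |φ|) ≤
          r * (E * Real.exp s) * ((|φ| - l * |φ|) / Real.pi) := by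
        calc K * E * ((1 - l) * |φ|) ≤ (r * Real.exp s / Real.pi) * E * ((1 - l) * |φ|) := by
              gcongr
          _ = _ := by ring
      have h9 : r * (E * Real.exp s) * ((|φ| - l * |φ|) / Real.pi) ≤
          r * (E * Real.exp s) * (Real.cos (l * φ) - Real.cos φ) := by
        gcongr
      have h10 : (Low c N (((u - (1 - l) * φ / N : ℝ) : ℂ) - I * s)).re -
          (Low c N ((u : ℂ) - I * s)).re ≤ K * E * ((1 - l) * |φ|) := by
        exact e5
      nlinarith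
  -- conclusion
  refine ⟨((u - (1 - 0) * φ / N : ℝ) : ℂ) - I * s, ?_, him _, ?_⟩
  · have hpre : IsPreconnected ((fun l : ℝ => (((u - (1 - l) * φ / N : ℝ) : ℂ) - I * s)) ''
        Icc (0 : ℝ) 1) := by
      refine isPreconnected_Icc.image _ (Continuous.continuousOn ?_)
      fun_prop
    have hsub := hpre.subset_connectedComponentIn (F := U c N C) (x := (u : ℂ) - I * s)
      ⟨1, by simp, by simp⟩ (by rintro _ ⟨l, hl, rfl⟩; exact hseg l hl)
    exact hsub ⟨0, by simp, rfl⟩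
  · rw [Z_im, him, hre, hcos]
    have e3 := (abs_le.1 (hlow (u - (1 - 0) * φ / N))).2
    rw [zero_mul, Real.cos_zero]
    have h11 : Real.exp s ≤ E * Real.exp s := by
      have := Real.exp_pos s
      nlinarith
    nlinarith

/-- **Module M2.** -/
theorem exists_deep (c : ℤ → ℂ) (N : ℕ) (hN : 1 ≤ N)
    (hc : ∀ k, c (-k) = (starRingEnd ℂ) (c k)) (hcN : c N ≠ 0) {δ : ℝ} (hδ : 0 < δ) :
    ∃ (C : ℝ) (x1 : ℂ) (Ω : Set ℂ), IsOpen Ω ∧ IsPreconnected Ω ∧ x1 ∈ Ω ∧
      -δ < x1.im ∧ x1.im < 0 ∧ (∀ x : ℝ, -C < (H c N x).re) ∧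
      (∀ x ∈ Ω, x.im < 0 ∧ (Z c N x).im < -C) ∧
      ∃ a : ℝ, 0 < a ∧ ∀ S : ℝ, ∃ x ∈ Ω, x.im < -S ∧ (Z c N x).im ≤ -a * Real.exp (-x.im) := by
  obtain ⟨x0, hx0⟩ := exists_min c N
  obtain ⟨s, hs0, hsδ, hs⟩ := exists_below hc x0 hδ
  set C : ℝ := -(((Z c N (x0 - I * s)).im + (H c N x0).re) / 2) with hCdef
  have hC : ∀ x : ℝ, -C < (H c N x).re := fun x => by
    have := hx0 x
    rw [hCdef]; linarith
  have him : ((x0 : ℂ) - I * s).im = -s := by simp
  have hx1 : ((x0 : ℂ) - I * s) ∈ U c N C := by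
    refine ⟨by rw [him]; linarith, ?_⟩
    rw [hCdef]; linarith
  have hsubU : ∀ x ∈ connectedComponentIn (U c N C) ((x0 : ℂ) - I * s),
      x.im < 0 ∧ (Z c N x).im < -C := by
    intro x hx
    have h : x ∈ U c N C := connectedComponentIn_subset _ _ hx
    exact h
  refine ⟨C, (x0 : ℂ) - I * s, connectedComponentIn (U c N C) ((x0 : ℂ) - I * s),
    (isOpen_U c N C).connectedComponentIn, isPreconnected_connectedComponentIn,
    mem_connectedComponentIn hx1, by rw [him]; linarith, by rw [him]; linarith, hC,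
    hsubU, ‖c N‖ / 2, by positivity, fun S => ?_⟩
  set K : ℝ := ∑ k ∈ Finset.Ico (-(N : ℤ)) N, ‖c k‖ with hK
  have hr : 0 < ‖c N‖ := norm_pos_iff.2 hcN
  -- large `s`
  have hlarge : ∀ᶠ t : ℝ in atTop, (t - C + K ≤ ‖c N‖ / 2 * Real.exp t) ∧
      (K ≤ ‖c N‖ * Real.exp t / Real.pi) := by
    have t1 : Tendsto (fun t : ℝ => (t + (K - C)) / Real.exp t) atTop (𝓝 0) := by
      have h1 := Real.tendsto_pow_mul_exp_neg_atTop_nhds_zero 1
      have h2 : Tendsto (fun t : ℝ => (K - C) * Real.exp (-t)) atTop (𝓝 ((K - C) * 0)) :=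
        (Real.tendsto_exp_neg_atTop_nhds_zero).const_mul _
      have h3 := h1.add h2
      simp only [pow_one, mul_zero, add_zero] at h3
      refine h3.congr fun t => ?_
      rw [Real.exp_neg, div_eq_mul_inv]; ring
    have t2 : ∀ᶠ t : ℝ in atTop, (t + (K - C)) / Real.exp t < ‖c N‖ / 2 :=
      t1.eventually (gt_mem_nhds (by positivity))
    have t3 : ∀ᶠ t : ℝ in atTop, K * Real.pi / ‖c N‖ ≤ Real.exp t :=
      Real.tendsto_exp_atTop.eventually_ge_atTop _
    filter_upwards [t2, t3] with t h2 h3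
    rw [div_lt_iff₀ (Real.exp_pos t)] at h2
    rw [div_le_iff₀ hr] at h3
    refine ⟨by linarith, ?_⟩
    rw [le_div_iff₀ Real.pi_pos]
    linarith
  obtain ⟨T, hT⟩ := hlarge.exists_forall_of_atTop
  obtain ⟨x, hxΩ, hxS⟩ := comp_unbounded hC hx1 (max (max S T) (max C 0))
  have hxU := connectedComponentIn_subset _ _ hxΩ
  have hmax1 : S ≤ max (max S T) (max C 0) := (le_max_left _ _).trans (le_max_left _ _)
  have hmax2 : T ≤ max (max S T) (max C 0) := (le_max_right _ _).trans (le_max_left _ _)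
  have hmax3 : C ≤ max (max S T) (max C 0) := (le_max_left _ _).trans (le_max_right _ _)
  have hmax4 : 0 ≤ max (max S T) (max C 0) := (le_max_right _ _).trans (le_max_right _ _)
  set t : ℝ := -x.im with ht
  have hxe : x = ((x.re : ℝ) : ℂ) - I * (t : ℝ) := by
    apply Complex.ext <;> simp [ht]
  have hTt := hT t (by linarith)
  obtain ⟨y, hy, hyim, hyZ⟩ := exists_shift c N hN (C := C) (s := t) (u := x.re) (by linarith)
    (by linarith) hTt.1 hTt.2 (by linarith) (by rw [← hxe]; exact hxU)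
  rw [← hxe, ← connectedComponentIn_eq hxΩ] at hy
  refine ⟨y, hy, by rw [hyim]; linarith, ?_⟩
  rw [hyim, neg_neg]
  exact hyZ

end WW47.M2

namespace WW47

/-- **Module M2** with the names of `Base.lean`. -/
theorem deep (N : ℕ) (hN : 1 ≤ N) (c : ℤ → ℂ) (hc : RealC c) (hcN : c N ≠ 0) (δ : ℝ)
    (hδ : 0 < δ) :
    ∃ (C : ℝ) (x₁ : ℂ) (Ω : Set ℂ) (a : ℝ), (∀ x : ℝ, -C < (tp N c (x : ℂ)).re) ∧
      -δ < x₁.im ∧ x₁.im < 0 ∧ IsOpen Ω ∧ IsPreconnected Ω ∧ x₁ ∈ Ω ∧
      (∀ x ∈ Ω, x.im < 0 ∧ (ZZ N c x).im < -C) ∧ 0 < a ∧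
      ∀ S : ℝ, ∃ x ∈ Ω, x.im < -S ∧ (ZZ N c x).im ≤ -a * Real.exp (-x.im) := by
  obtain ⟨C, x1, Ω, hΩo, hΩp, hx1, h1, h2, hC, hΩ, a, ha, hS⟩ := M2.exists_deep c N hN hc hcN hδ
  exact ⟨C, x1, Ω, a, hC, h1, h2, hΩo, hΩp, hx1, hΩ, ha, hS⟩

end WW47
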