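import Pool.Agent.WW47.Near
import Pool.Agent.WW47.Asym
import Pool.Agent.WW47.Deep

/-!
# Assembly: the identity without the velocity
-/

open Complex Set Filter Topology

namespace WW47

/-- dependence of `Jp` on the velocity terms -/
lemma Jp_sub (g γ H H1 H2 G Gx a ax at' a0 ax0 at0 : ℂ) :
    Jp g γ H H1 H2 G Gx a ax at' - Jp g γ H H1 H2 G Gx a0 ax0 at0
      = (a - a0) * (-2 * (1 + H1 ^ 2) ^ 2 * γ * H1
          - ((-2 * ax + 2 * H2 * G + 2 * H1 * Gx) * (1 + H1 ^ 2)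
            - (-(a + a0) + 2 * H1 * G) * (2 * H1 * H2)))
        + (ax - ax0) * (-2 * (1 + H1 ^ 2) ^ 2 * γ * H - (-2 * a0 + 2 * H1 * G) * (1 + H1 ^ 2))
        + (at' - at0) * (2 * (1 + H1 ^ 2) ^ 2) := by
  unfold Jp
  ring

section

variable {g κ γ a b : ℝ} {η ψ : ℝ → ℝ → ℝ} {Φ : ℝ → ℂ → ℝ} {q : ℝ → ℝ → ℝ} {p : ℝ → ℝ}
variable {N : ℕ} {c0 c1 c2 : ℝ → ℤ → ℂ}

/-- the complexified identity, as a function of complex `x` -/
noncomputable def JJ (g κ γ : ℝ) (N : ℕ) (Φ : ℝ → ℂ → ℝ) (t : ℝ) (c e d : ℤ → ℂ) (x : ℂ) : ℂ :=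
  Jp g γ (tp N c x) (tp N (Dc c) x) (tp N (Dc (Dc c)) x)
      (Gp γ (tp N c x) (tp N (Dc c) x) (tp N e x))
      (Gxp γ (tp N c x) (tp N (Dc c) x) (tp N (Dc (Dc c)) x) (tp N (Dc e) x))
      (af γ N Φ t c e x) (axf γ N Φ t c e x) (atf γ N Φ t c e d x) ^ 2
    * (1 + (tp N (Dc c) x) ^ 2)
    - 4 * κ ^ 2 * (Kp (tp N (Dc c) x) (tp N (Dc (Dc c)) x) (tp N (Dc (Dc (Dc c))) x)) ^ 2

/-- the same without the velocity -/
noncomputable def QQ (g κ γ : ℝ) (N : ℕ) (c e d : ℤ → ℂ) (x : ℂ) : ℂ :=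
  Jp g γ (tp N c x) (tp N (Dc c) x) (tp N (Dc (Dc c)) x)
      (Gp γ (tp N c x) (tp N (Dc c) x) (tp N e x))
      (Gxp γ (tp N c x) (tp N (Dc c) x) (tp N (Dc (Dc c)) x) (tp N (Dc e) x))
      (I * Gp γ (tp N c x) (tp N (Dc c) x) (tp N e x))
      (I * Gxp γ (tp N c x) (tp N (Dc c) x) (tp N (Dc (Dc c)) x) (tp N (Dc e) x))
      (I * Gtp γ (tp N c x) (tp N (Dc c) x) (tp N e x) (tp N (Dc e) x) (tp N d x)) ^ 2
    * (1 + (tp N (Dc c) x) ^ 2)
    - 4 * κ ^ 2 * (Kp (tp N (Dc c) x) (tp N (Dc (Dc c)) x) (tp N (Dc (Dc (Dc c))) x)) ^ 2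

lemma JJ_per (hw : WaterWave g κ γ a b η ψ Φ q p) {t : ℝ} (ht : t ∈ Ioo a b) (c e d : ℤ → ℂ)
    (x : ℂ) : JJ g κ γ N Φ t c e d (x + 2 * Real.pi) = JJ g κ γ N Φ t c e d x := by
  unfold JJ af axf atf
  simp only [tp_add_two_pi, ZZ_per, Wt_per hw ht, W1_per hw ht, W2_per hw ht]

lemma JJ_cont (hw : WaterWave g κ γ a b η ψ Φ q p) {t : ℝ} (ht : t ∈ Ioo a b) (c e d : ℤ → ℂ) :
    Continuous (JJ g κ γ N Φ t c e d) := by
  have h0 : Continuous fun x => Wt Φ (t, ZZ N c x) := (Wt_cont hw.regΦ ht).comp (continuous_ZZ N c)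
  have h1 : Continuous fun x => W1 Φ t (ZZ N c x) := (W1_cont hw.regΦ ht).comp (continuous_ZZ N c)
  have h2 : Continuous fun x => W2 Φ t (ZZ N c x) := (W2_cont hw.regΦ ht).comp (continuous_ZZ N c)
  have e0 := continuous_tp N c
  have e1 := continuous_tp N (Dc c)
  have e2 := continuous_tp N (Dc (Dc c))
  have e3 := continuous_tp N (Dc (Dc (Dc c)))
  have e4 := continuous_tp N e
  have e5 := continuous_tp N (Dc e)
  have e6 := continuous_tp N d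
  unfold JJ af axf atf Jp Kp Gp Gxp Gtp
  fun_prop

lemma JJ_hol (hw : WaterWave g κ γ a b η ψ Φ q p) {t : ℝ} (ht : t ∈ Ioo a b) (c e d : ℤ → ℂ)
    {x : ℂ} (hx : (ZZ N c x).im < η t (ZZ N c x).re) :
    DifferentiableAt ℂ (JJ g κ γ N Φ t c e d) x := by
  have hZ := (differentiable_ZZ N c) x
  have h0 : DifferentiableAt ℂ (fun x => Wt Φ (t, ZZ N c x)) x :=
    DifferentiableAt.comp (g := fun z => Wt Φ (t, z)) x (Wt_hol hw ht hx) hZ
  have h1 : DifferentiableAt ℂ (fun x => W1 Φ t (ZZ N c x)) x :=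
    DifferentiableAt.comp (g := W1 Φ t) x (W1_hol hw ht hx) hZ
  have h2 : DifferentiableAt ℂ (fun x => W2 Φ t (ZZ N c x)) x :=
    DifferentiableAt.comp (g := W2 Φ t) x (W2_hol hw ht hx) hZ
  have e0 := differentiable_tp N c x
  have e1 := differentiable_tp N (Dc c) x
  have e2 := differentiable_tp N (Dc (Dc c)) x
  have e3 := differentiable_tp N (Dc (Dc (Dc c))) x
  have e4 := differentiable_tp N e x
  have e5 := differentiable_tp N (Dc e) x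
  have e6 := differentiable_tp N d x
  unfold JJ af axf atf Jp Kp Gp Gxp Gtp
  fun_prop

lemma JJ_line (hw : WaterWave g κ γ a b η ψ Φ q p) (hc : Coeff N a b η c0 c1 c2) {t : ℝ}
    (ht : t ∈ Ioo a b) (x : ℝ) : JJ g κ γ N Φ t (c0 t) (c1 t) (c2 t) x = 0 := by
  unfold JJ
  rw [line_identity hw hc ht x, sub_self]

lemma QQ_mem (c e d : ℤ → ℂ) : QQ g κ γ N c e d ∈ TPA := by
  have e0 := tp_mem N c
  have e1 := tp_mem N (Dc c)
  have e2 := tp_mem N (Dc (Dc c))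
  have e3 := tp_mem N (Dc (Dc (Dc c)))
  have e4 := tp_mem N e
  have e5 := tp_mem N (Dc e)
  have e6 := tp_mem N d
  unfold QQ Jp Kp Gp Gxp Gtp
  repeat' first
    | assumption
    | exact const_mem _
    | apply TPA_add
    | apply TPA_sub
    | apply TPA_mul
    | apply TPA_neg
    | apply TPA_pow

end

end WW47
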