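import Pool.Agent.WW47.Assembly

/-!
# Assembly: the identity without the velocity, conclusion
-/

open Complex Set Filter Topology

namespace WW47

section

variable {g κ γ a b : ℝ} {η ψ : ℝ → ℝ → ℝ} {Φ : ℝ → ℂ → ℝ} {q : ℝ → ℝ → ℝ} {p : ℝ → ℝ}
variable {N : ℕ} {c0 c1 c2 : ℝ → ℤ → ℂ}

/-- The complexified identity holds at points deep in the fluid. -/
lemma deep_points (hw : WaterWave g κ γ a b η ψ Φ q p) (hc : Coeff N a b η c0 c1 c2) {t : ℝ}
    (ht : t ∈ Ioo a b) (hN : 1 ≤ N) (hcN : c0 t N ≠ 0) :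
    ∃ (C α : ℝ) (x : ℕ → ℂ), 0 < α ∧ (∀ y, -C < η t y) ∧ (∀ n, 0 ≤ -(x n).im) ∧
      Tendsto (fun n => -(x n).im) atTop atTop ∧
      (∀ n, (ZZ N (c0 t) (x n)).im ≤ -α * Real.exp (-(x n).im)) ∧
      (∀ n, (ZZ N (c0 t) (x n)).im ≤ -C - 1) ∧
      ∀ n, JJ g κ γ N Φ t (c0 t) (c1 t) (c2 t) (x n) = 0 := by
  have hr := hc.real0 t ht
  obtain ⟨δ, hδ, hnear⟩ := near_line N hr
  obtain ⟨C, x₁, Ω, α, hC, hx1, hx2, hΩo, hΩc, hx1Ω, hΩ, hα, hS⟩ := deep N hN (c0 t) hr hcN δ hδ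
  have hC' : ∀ y, -C < η t y := fun y => by
    rw [eta_eq hc ht]; exact hC y
  -- zero in the strip
  have hstrip : ∀ x : ℂ, -(δ / 2) < x.im → x.im ≤ 0 →
      JJ g κ γ N Φ t (c0 t) (c1 t) (c2 t) x = 0 := by
    refine bdry (by positivity) (JJ_per hw ht _ _ _) (JJ_cont hw ht _ _ _).continuousOn ?_
      (JJ_line hw hc ht)
    intro x hx
    refine (JJ_hol hw ht _ _ _ ?_).differentiableWithinAt
    have h1 : -(δ / 2) < x.im := hx.1
    have := hnear x (by linarith) hx.2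
    rw [eta_eq hc ht]
    exact this
  have hstrip' : ∀ x : ℂ, -δ < x.im → x.im < 0 →
      JJ g κ γ N Φ t (c0 t) (c1 t) (c2 t) x = 0 := by
    -- identity theorem in the full strip
    have hopen : IsOpen {x : ℂ | -δ < x.im ∧ x.im < 0} :=
      (isOpen_lt continuous_const continuous_im).inter (isOpen_lt continuous_im continuous_const)
    have hconv : Convex ℝ {x : ℂ | -δ < x.im ∧ x.im < 0} := by
      have h1 : Convex ℝ {x : ℂ | -δ < x.im} := convex_halfSpace_im_gt _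
      have h2 : Convex ℝ {x : ℂ | x.im < 0} := convex_halfSpace_im_lt _
      exact h1.inter h2
    have hd : DifferentiableOn ℂ (JJ g κ γ N Φ t (c0 t) (c1 t) (c2 t))
        {x : ℂ | -δ < x.im ∧ x.im < 0} := by
      intro x hx
      refine (JJ_hol hw ht _ _ _ ?_).differentiableWithinAt
      rw [eta_eq hc ht]
      exact hnear x hx.1 hx.2
    have hz0 : (-(δ / 4) : ℝ) * I ∈ {x : ℂ | -δ < x.im ∧ x.im < 0} := by
      constructor <;> simp <;> linarith
    have hev : JJ g κ γ N Φ t (c0 t) (c1 t) (c2 t) =ᶠ[𝓝 (((-(δ / 4) : ℝ) : ℂ) * I)] 0 := by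
      have hop2 : IsOpen {x : ℂ | -(δ / 2) < x.im ∧ x.im < 0} :=
        (isOpen_lt continuous_const continuous_im).inter
          (isOpen_lt continuous_im continuous_const)
      filter_upwards [hop2.mem_nhds (show ((-(δ / 4) : ℝ) : ℂ) * I ∈ _ by
        constructor <;> simp <;> linarith)] with x hx
      exact hstrip x hx.1 hx.2.le
    have := (hd.analyticOnNhd hopen).eqOn_zero_of_preconnected_of_eventuallyEq_zero
      hconv.isPreconnected hz0 hev
    intro x h1 h2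
    exact this (show x ∈ {x : ℂ | -δ < x.im ∧ x.im < 0} from ⟨h1, h2⟩)
  -- zero on Ω
  have hΩ0 : ∀ x ∈ Ω, JJ g κ γ N Φ t (c0 t) (c1 t) (c2 t) x = 0 := by
    have hd : DifferentiableOn ℂ (JJ g κ γ N Φ t (c0 t) (c1 t) (c2 t)) Ω := by
      intro x hx
      refine (JJ_hol hw ht _ _ _ ?_).differentiableWithinAt
      exact (hΩ x hx).2.trans (hC' _)
    have hev : JJ g κ γ N Φ t (c0 t) (c1 t) (c2 t) =ᶠ[𝓝 x₁] 0 := by
      have hopen : IsOpen {x : ℂ | -δ < x.im ∧ x.im < 0} :=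
        (isOpen_lt continuous_const continuous_im).inter
          (isOpen_lt continuous_im continuous_const)
      filter_upwards [hopen.mem_nhds (show x₁ ∈ _ from ⟨hx1, hx2⟩)] with x hx
      exact hstrip' x hx.1 hx.2
    intro x hx
    exact (hd.analyticOnNhd hΩo).eqOn_zero_of_preconnected_of_eventuallyEq_zero
      hΩc hx1Ω hev hx
  -- the sequence
  set S0 : ℝ := max 0 ((C + 1) / α) with hS0
  choose x hxΩ hxim hxZ using fun n : ℕ => hS (n + S0)
  have hS0nn : 0 ≤ S0 := le_max_left _ _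
  have him : ∀ n : ℕ, (n : ℝ) + S0 < -(x n).im := fun n => by linarith [hxim n]
  refine ⟨C, α, x, hα, hC', fun n => ?_, ?_, hxZ, fun n => ?_, fun n => hΩ0 _ (hxΩ n)⟩
  · have := him n
    have h2 : (0 : ℝ) ≤ n := Nat.cast_nonneg n
    linarith
  · refine tendsto_atTop_mono (fun n => ?_) tendsto_natCast_atTop_atTop
    have := him n
    linarith
  · refine (hxZ n).trans ?_
    have h1 : S0 ≤ Real.exp (-(x n).im) := by
      have h2 := Real.add_one_le_exp (-(x n).im)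
      have h3 := him n
      have h4 : (0 : ℝ) ≤ n := Nat.cast_nonneg n
      linarith
    have h2 : (C + 1) / α ≤ S0 := le_max_right _ _
    have h3 : C + 1 ≤ α * Real.exp (-(x n).im) := by
      have := h2.trans h1
      rw [div_le_iff₀ hα] at this
      linarith
    linarith

theorem QQ_zero (hw : WaterWave g κ γ a b η ψ Φ q p) (hc : Coeff N a b η c0 c1 c2) {t : ℝ}
    (ht : t ∈ Ioo a b) (hN : 1 ≤ N) (hcN : c0 t N ≠ 0) :
    ∀ x, QQ g κ γ N (c0 t) (c1 t) (c2 t) x = 0 := by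
  obtain ⟨C, α, x, hα, hC, hs0, hsT, hZ1, hZ2, hJ⟩ := deep_points hw hc ht hN hcN
  set s : ℕ → ℝ := fun n => -(x n).im with hs
  obtain ⟨B0, hB0⟩ := Wt_decay hw ht hC
  obtain ⟨B1, hB1⟩ := W1_decay hw ht hC
  obtain ⟨B2, hB2⟩ := W2_decay hw ht hC
  have hneg : ∀ (f : ℂ → ℂ) (B : ℝ),
      (∀ z : ℂ, z.im ≤ -C - 1 → ‖f z‖ ≤ B * Real.exp (z.im + C)) →
      Neg s fun n => f (ZZ N (c0 t) (x n)) := by
    intro f B hf
    have hB : 0 ≤ B := by
      have h1 := (norm_nonneg _).trans (hf _ (hZ2 0))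
      by_contra hneg
      push Not at hneg
      have := mul_neg_of_neg_of_pos hneg (Real.exp_pos ((ZZ N (c0 t) (x 0)).im + C))
      linarith
    refine Neg.of_exp hsT (B := B * Real.exp C) (a := α) hα fun n => ?_
    refine (hf _ (hZ2 n)).trans ?_
    rw [Real.exp_add, mul_comm (Real.exp _) (Real.exp C), ← mul_assoc]
    gcongr
    exact hZ1 n
  have n0 : Neg s fun n => Wt Φ (t, ZZ N (c0 t) (x n)) :=
    hneg (fun z => Wt Φ (t, z)) B0 fun z hz => hB0 z (by linarith)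
  have n1 : Neg s fun n => W1 Φ t (ZZ N (c0 t) (x n)) := hneg (W1 Φ t) B1 hB1
  have n2 : Neg s fun n => W2 Φ t (ZZ N (c0 t) (x n)) :=
    hneg (W2 Φ t) B2 fun z hz => hB2 z (by linarith)
  have tm : ∀ {F : ℂ → ℂ}, F ∈ TPA → Tmp s fun n => F (x n) := fun hF => Tmp.of_TPA hF hs0
  have e0 := tm (tp_mem N (c0 t))
  have e1 := tm (tp_mem N (Dc (c0 t)))
  have e2 := tm (tp_mem N (Dc (Dc (c0 t))))
  have e3 := tm (tp_mem N (Dc (Dc (Dc (c0 t)))))
  have f0 := tm (tp_mem N (c1 t))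
  have f1 := tm (tp_mem N (Dc (c1 t)))
  have g0 := tm (tp_mem N (c2 t))
  have tI : Tmp s fun _ => I := Tmp.const I
  have tγ : Tmp s fun _ => (γ : ℂ) := Tmp.const _
  have tg : Tmp s fun _ => (g : ℂ) := Tmp.const _
  have t1 : Tmp s fun _ => (1 : ℂ) := Tmp.const _
  have t2 : Tmp s fun _ => (2 : ℂ) := Tmp.const _
  have tm2 : Tmp s fun _ => (-2 : ℂ) := Tmp.const _
  -- abbreviations along the sequence
  set H : ℕ → ℂ := fun n => tp N (c0 t) (x n) with hH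
  set H1 : ℕ → ℂ := fun n => tp N (Dc (c0 t)) (x n) with hH1
  set H2 : ℕ → ℂ := fun n => tp N (Dc (Dc (c0 t))) (x n) with hH2
  set G : ℕ → ℂ := fun n => Gp γ (tp N (c0 t) (x n)) (tp N (Dc (c0 t)) (x n)) (tp N (c1 t) (x n))
    with hG
  set Gx : ℕ → ℂ := fun n => Gxp γ (tp N (c0 t) (x n)) (tp N (Dc (c0 t)) (x n))
    (tp N (Dc (Dc (c0 t))) (x n)) (tp N (Dc (c1 t)) (x n)) with hGx
  set Gt : ℕ → ℂ := fun n => Gtp γ (tp N (c0 t) (x n)) (tp N (Dc (c0 t)) (x n))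
    (tp N (c1 t) (x n)) (tp N (Dc (c1 t)) (x n)) (tp N (c2 t) (x n)) with hGt
  set A : ℕ → ℂ := fun n => af γ N Φ t (c0 t) (c1 t) (x n) with hA
  set Ax : ℕ → ℂ := fun n => axf γ N Φ t (c0 t) (c1 t) (x n) with hAx
  set At : ℕ → ℂ := fun n => atf γ N Φ t (c0 t) (c1 t) (c2 t) (x n) with hAt
  have tG : Tmp s G := f0.sub hs0 (tγ.mul (e0.mul e1))
  have tGx : Tmp s Gx := f1.sub hs0 (tγ.mul ((e1.mul e1).add hs0 (e0.mul e2)))
  have tGt : Tmp s Gt := g0.sub hs0 (tγ.mul ((f0.mul e1).add hs0 (e0.mul f1)))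
  have dA : Neg s fun n => A n - I * G n := by
    have : (fun n => A n - I * G n) = fun n => Wt Φ (t, ZZ N (c0 t) (x n)) * (1 + I * H1 n) := by
      funext n; simp only [hA, hG, hH1, af]; ring
    rw [this]
    exact n0.mul_tmp (t1.add hs0 (tI.mul e1))
  have dAx : Neg s fun n => Ax n - I * Gx n := by
    have : (fun n => Ax n - I * Gx n) = fun n => W1 Φ t (ZZ N (c0 t) (x n)) * (1 + I * H1 n) ^ 2
        + Wt Φ (t, ZZ N (c0 t) (x n)) * (I * H2 n) := by
      funext n; simp only [hAx, hGx, hH1, hH2, axf]; ring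
    rw [this]
    exact (n1.mul_tmp ((t1.add hs0 (tI.mul e1)).pow 2)).add (n0.mul_tmp (tI.mul e2))
  have dAt : Neg s fun n => At n - I * Gt n := by
    have : (fun n => At n - I * Gt n) = fun n =>
        (W2 Φ t (ZZ N (c0 t) (x n)) * (1 + I * H1 n)
          + W1 Φ t (ZZ N (c0 t) (x n)) * (I * tp N (c1 t) (x n) * (1 + I * H1 n)))
        + Wt Φ (t, ZZ N (c0 t) (x n)) * (I * tp N (Dc (c1 t)) (x n)) := by
      funext n; simp only [hAt, hGt, hH1, atf]; ring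
    rw [this]
    have u := t1.add hs0 (tI.mul e1)
    exact ((n2.mul_tmp u).add (n1.mul_tmp ((tI.mul f0).mul u))).add (n0.mul_tmp (tI.mul f1))
  have tA : Tmp s A := by
    have := (Tmp.of_neg dA).add hs0 (tI.mul tG)
    simpa using this
  have tAx : Tmp s Ax := by
    have := (Tmp.of_neg dAx).add hs0 (tI.mul tGx)
    simpa using this
  have tAt : Tmp s At := by
    have := (Tmp.of_neg dAt).add hs0 (tI.mul tGt)
    simpa using this
  have tD : Tmp s fun n => 1 + H1 n ^ 2 := t1.add hs0 (e1.pow 2)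
  set J : ℕ → ℂ := fun n => Jp g γ (H n) (H1 n) (H2 n) (G n) (Gx n) (A n) (Ax n) (At n) with hJdef
  set J0 : ℕ → ℂ := fun n => Jp g γ (H n) (H1 n) (H2 n) (G n) (Gx n) (I * G n) (I * Gx n)
    (I * Gt n) with hJ0def
  have dJ : Neg s fun n => J n - J0 n := by
    have : (fun n => J n - J0 n) = fun n =>
        ((A n - I * G n) * (-2 * (1 + H1 n ^ 2) ^ 2 * γ * H1 n
          - ((-2 * Ax n + 2 * H2 n * G n + 2 * H1 n * Gx n) * (1 + H1 n ^ 2)
            - (-(A n + I * G n) + 2 * H1 n * G n) * (2 * H1 n * H2 n)))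
        + (Ax n - I * Gx n) * (-2 * (1 + H1 n ^ 2) ^ 2 * γ * H n
          - (-2 * (I * G n) + 2 * H1 n * G n) * (1 + H1 n ^ 2)))
        + (At n - I * Gt n) * (2 * (1 + H1 n ^ 2) ^ 2) := by
      funext n
      simp only [hJdef, hJ0def]
      rw [Jp_sub]
    rw [this]
    refine ((dA.mul_tmp ?_).add (dAx.mul_tmp ?_)).add (dAt.mul_tmp ?_)
    · refine ((((tm2.mul (tD.pow 2)).mul tγ).mul e1)).sub hs0 ?_
      refine ((((tm2.mul tAx).add hs0 ((t2.mul e2).mul tG)).add hs0 ((t2.mul e1).mul tGx)).mul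
        tD).sub hs0 ?_
      exact ((tA.add hs0 (tI.mul tG)).neg.add hs0 ((t2.mul e1).mul tG)).mul ((t2.mul e1).mul e2)
    · exact (((tm2.mul (tD.pow 2)).mul tγ).mul e0).sub hs0
        (((tm2.mul (tI.mul tG)).add hs0 ((t2.mul e1).mul tG)).mul tD)
    · exact t2.mul (tD.pow 2)
  have tJ0 : Tmp s J0 := by
    have : J0 = fun n => 2 * (1 + H1 n ^ 2) ^ 2 * (I * Gt n + g * H1 n
        - γ * (H1 n * (I * G n) + H n * (I * Gx n)) - γ * G n)
        - ((-2 * (I * G n) * (I * Gx n) + 2 * H2 n * (I * G n) * G n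
          + 2 * H1 n * (I * Gx n) * G n + 2 * H1 n * (I * G n) * Gx n + 2 * G n * Gx n)
            * (1 + H1 n ^ 2)
          - ((-1) * (I * G n) ^ 2 + 2 * H1 n * (I * G n) * G n + G n ^ 2)
            * (2 * H1 n * H2 n)) := by
      funext n
      simp only [hJ0def, Jp]
      ring
    rw [this]
    have iG := tI.mul tG
    have iGx := tI.mul tGx
    have iGt := tI.mul tGt
    have tm1 : Tmp s fun _ => (-1 : ℂ) := Tmp.const _
    refine Tmp.sub hs0 ((t2.mul (tD.pow 2)).mul ?_) (Tmp.sub hs0 (Tmp.mul ?_ tD)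
      (Tmp.mul ?_ ((t2.mul e1).mul e2)))
    · exact ((iGt.add hs0 (tg.mul e1)).sub hs0
        (tγ.mul ((e1.mul iG).add hs0 (e0.mul iGx)))).sub hs0 (tγ.mul tG)
    · exact (((((tm2.mul iG).mul iGx).add hs0 (((t2.mul e2).mul iG).mul tG)).add hs0
        (((t2.mul e1).mul iGx).mul tG)).add hs0 (((t2.mul e1).mul iG).mul tGx)).add hs0
        ((t2.mul tG).mul tGx)
    · exact ((tm1.mul (iG.pow 2)).add hs0 (((t2.mul e1).mul iG).mul tG)).add hs0 (tG.pow 2)
  have tJ : Tmp s J := by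
    have := (Tmp.of_neg dJ).add hs0 tJ0
    simpa using this
  -- conclusion
  have hQ : Neg s fun n => QQ g κ γ N (c0 t) (c1 t) (c2 t) (x n) := by
    have : (fun n => QQ g κ γ N (c0 t) (c1 t) (c2 t) (x n))
        = fun n => -((J n - J0 n) * ((J n + J0 n) * (1 + H1 n ^ 2))) := by
      funext n
      have h1 : J n ^ 2 * (1 + H1 n ^ 2) - 4 * κ ^ 2 * (Kp (H1 n) (H2 n)
          (tp N (Dc (Dc (Dc (c0 t)))) (x n))) ^ 2 = 0 := hJ n
      have h2 : QQ g κ γ N (c0 t) (c1 t) (c2 t) (x n) = J0 n ^ 2 * (1 + H1 n ^ 2)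
          - 4 * κ ^ 2 * (Kp (H1 n) (H2 n) (tp N (Dc (Dc (Dc (c0 t)))) (x n))) ^ 2 := rfl
      rw [h2]
      linear_combination h1
    rw [this]
    exact (dJ.mul_tmp ((tJ.add hs0 tJ0).mul tD)).neg
  exact TP_zero (QQ_mem _ _ _) hsT hQ

end

end WW47
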