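import Mathlib

/-!
# Water waves with a band-limited surface: basic objects (helper47)

`tp N c` is the trigonometric polynomial `x ↦ ∑_{|k| ≤ N} c_k e^{ikx}` as an entire function.
-/

open Complex

namespace WW47

/-- The trigonometric polynomial `∑_{|k| ≤ N} c k * exp (i k x)` of a complex variable `x`. -/
noncomputable def tp (N : ℕ) (c : ℤ → ℂ) (x : ℂ) : ℂ :=
  ∑ k ∈ Finset.Icc (-(N : ℤ)) N, c k * exp (I * k * x)

/-- `Z x = x + i H x`. -/
noncomputable def ZZ (N : ℕ) (c : ℤ → ℂ) (x : ℂ) : ℂ := x + I * tp N c x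

lemma hasDerivAt_tp (N : ℕ) (c : ℤ → ℂ) (x : ℂ) :
    HasDerivAt (tp N c) (tp N (fun k => I * k * c k) x) x := by
  have h : ∀ k ∈ Finset.Icc (-(N : ℤ)) N,
      HasDerivAt (fun x : ℂ => c k * exp (I * k * x)) (I * k * c k * exp (I * k * x)) x := by
    intro k _
    have h1 : HasDerivAt (fun x : ℂ => I * k * x) (I * k) x := by
      simpa using (hasDerivAt_id x).const_mul (I * (k : ℂ))
    exact ((h1.cexp).const_mul (c k)).congr_deriv (by ring)
  have := HasDerivAt.fun_sum h
  exact this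

lemma differentiable_tp (N : ℕ) (c : ℤ → ℂ) : Differentiable ℂ (tp N c) :=
  fun x => (hasDerivAt_tp N c x).differentiableAt

lemma continuous_tp (N : ℕ) (c : ℤ → ℂ) : Continuous (tp N c) :=
  (differentiable_tp N c).continuous

lemma differentiable_ZZ (N : ℕ) (c : ℤ → ℂ) : Differentiable ℂ (ZZ N c) :=
  differentiable_id.add ((differentiable_tp N c).const_mul I)

lemma continuous_ZZ (N : ℕ) (c : ℤ → ℂ) : Continuous (ZZ N c) :=
  (differentiable_ZZ N c).continuous

lemma tp_add_two_pi (N : ℕ) (c : ℤ → ℂ) (x : ℂ) : tp N c (x + 2 * Real.pi) = tp N c x := by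
  unfold tp
  refine Finset.sum_congr rfl fun k _ => ?_
  have : I * (k : ℂ) * (x + 2 * Real.pi) = I * k * x + k * (2 * Real.pi * I) := by ring
  rw [this, exp_add, exp_int_mul_two_pi_mul_I, mul_one]

/-- complex conjugate symmetry: a real trigonometric polynomial. -/
def RealC (c : ℤ → ℂ) : Prop := ∀ k, c (-k) = (starRingEnd ℂ) (c k)

lemma tp_conj (N : ℕ) (c : ℤ → ℂ) (hc : RealC c) (x : ℂ) :
    tp N c ((starRingEnd ℂ) x) = (starRingEnd ℂ) (tp N c x) := by
  unfold tp
  rw [map_sum]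
  refine Finset.sum_nbij' (fun k => -k) (fun k => -k) ?_ ?_ ?_ ?_ ?_
  · intro k hk; simp only [Finset.mem_Icc] at hk ⊢; omega
  · intro k hk; simp only [Finset.mem_Icc] at hk ⊢; omega
  · intro k _; simp
  · intro k _; simp
  · intro k _
    rw [map_mul, ← exp_conj, hc k]
    simp

lemma tp_real_im (N : ℕ) (c : ℤ → ℂ) (hc : RealC c) (x : ℝ) : (tp N c (x : ℂ)).im = 0 := by
  have := tp_conj N c hc (x : ℂ)
  rw [conj_ofReal] at this
  exact (conj_eq_iff_im.mp this.symm)

end WW47
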