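import Pool.Agent.WW47.Line2

/-!
# Module M6: coefficient functions of a band-limited surface; reduction to a fixed degree
-/

open Complex Set Filter Topology

namespace WW47

/-- the `j`-th of `2N+1` equidistant nodes -/
noncomputable def node (N j : ℕ) : ℝ := 2 * Real.pi * j / (2 * N + 1)

/-- discrete Fourier coefficient with `2N+1` nodes -/
noncomputable def coef (N : ℕ) (f : ℝ → ℝ) (k : ℤ) : ℂ :=
  (2 * N + 1 : ℂ)⁻¹ *
    ∑ j ∈ Finset.range (2 * N + 1), (f (node N j) : ℂ) * exp (-(I * k * node N j))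

lemma coef_real (N : ℕ) (f : ℝ → ℝ) : RealC (coef N f) := by
  intro k
  unfold coef
  rw [map_mul, map_sum]
  congr 1
  · have h1 : (2 * N + 1 : ℂ) = ((2 * N + 1 : ℝ) : ℂ) := by push_cast; rfl
    rw [map_inv₀, h1, conj_ofReal]
  · refine Finset.sum_congr rfl fun j _ => ?_
    rw [map_mul, ← exp_conj, conj_ofReal]
    congr 2
    simp

lemma sum_exp_node (N : ℕ) {l : ℤ} (hl : |l| ≤ 2 * N) :
    ∑ j ∈ Finset.range (2 * N + 1), exp (I * l * node N j) =
      if l = 0 then (2 * N + 1 : ℂ) else 0 := by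
  have hn : (2 * N + 1 : ℂ) ≠ 0 := by
    have : (2 * N + 1 : ℕ) ≠ 0 := by omega
    exact_mod_cast this
  split_ifs with h
  · rw [h]
    simp
  · set z : ℂ := exp (2 * Real.pi * I * l / (2 * N + 1)) with hz
    have h1 : ∀ j ∈ Finset.range (2 * N + 1), exp (I * l * node N j) = z ^ j := by
      intro j _
      rw [hz, ← exp_nat_mul]
      congr 1
      unfold node
      push_cast
      ring
    rw [Finset.sum_congr rfl h1]
    have hz1 : z ≠ 1 := by
      intro h2
      rw [hz, exp_eq_one_iff] at h2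
      obtain ⟨m, hm⟩ := h2
      have hpi : (2 * Real.pi * I : ℂ) ≠ 0 := by
        simp [Real.pi_ne_zero]
      have h3 : (l : ℂ) = m * (2 * N + 1) := by
        have h4 : 2 * Real.pi * I * l / (2 * N + 1) = 2 * Real.pi * I * (l / (2 * N + 1)) := by
          ring
        rw [h4, mul_comm (m : ℂ)] at hm
        have h5 := mul_left_cancel₀ hpi hm
        rw [div_eq_iff hn] at h5
        exact h5
      have h6 : l = m * (2 * N + 1) := by exact_mod_cast h3
      have hm0 : m ≠ 0 := by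
        rintro rfl
        exact h (by simpa using h6)
      have h7 : (2 * (N : ℤ) + 1) ≤ |l| := by
        rw [h6, abs_mul]
        have h8 : 1 ≤ |m| := Int.one_le_abs hm0
        have h9 : |2 * (N : ℤ) + 1| = 2 * N + 1 := abs_of_nonneg (by positivity)
        rw [h9]
        nlinarith
      omega
    rw [geom_sum_eq hz1]
    have hzn : z ^ (2 * N + 1) = 1 := by
      rw [hz, ← exp_nat_mul, exp_eq_one_iff]
      refine ⟨l, ?_⟩
      push_cast
      field_simp
    rw [hzn, sub_self, zero_div]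

lemma coef_tp {N : ℕ} {f : ℝ → ℝ} {c : ℤ → ℂ} (h : ∀ x : ℝ, (f x : ℂ) = tp N c x) {k : ℤ}
    (hk : k ∈ Finset.Icc (-(N : ℤ)) N) : coef N f k = c k := by
  have hn : (2 * N + 1 : ℂ) ≠ 0 := by
    have : (2 * N + 1 : ℕ) ≠ 0 := by omega
    exact_mod_cast this
  unfold coef
  have h1 : ∑ j ∈ Finset.range (2 * N + 1), (f (node N j) : ℂ) * exp (-(I * k * node N j)) =
      ∑ l ∈ Finset.Icc (-(N : ℤ)) N, c l *
        ∑ j ∈ Finset.range (2 * N + 1), exp (I * ((l - k : ℤ) : ℂ) * node N j) := by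
    simp_rw [h, tp, Finset.sum_mul, Finset.mul_sum]
    rw [Finset.sum_comm]
    refine Finset.sum_congr rfl fun l _ => Finset.sum_congr rfl fun j _ => ?_
    rw [mul_assoc, ← exp_add]
    congr 2
    push_cast
    ring
  rw [h1]
  have h2 : ∀ l ∈ Finset.Icc (-(N : ℤ)) N, c l *
        ∑ j ∈ Finset.range (2 * N + 1), exp (I * ((l - k : ℤ) : ℂ) * node N j) =
        if l = k then c k * (2 * N + 1) else 0 := by
    intro l hl
    rw [Finset.mem_Icc] at hl hk
    rw [sum_exp_node N (by rw [abs_le]; constructor <;> omega)]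
    by_cases hlk : l = k
    · rw [if_pos (by omega), if_pos hlk, hlk]
    · rw [if_neg (by omega), if_neg hlk, mul_zero]
  rw [Finset.sum_congr rfl h2, Finset.sum_ite_eq_of_mem' _ _ _ hk]
  field_simp

lemma rep_coef {N : ℕ} {f : ℝ → ℝ} {c : ℤ → ℂ} (h : ∀ x : ℝ, (f x : ℂ) = tp N c x) (x : ℝ) :
    (f x : ℂ) = tp N (coef N f) x := by
  rw [h x]
  unfold tp
  refine Finset.sum_congr rfl fun k hk => ?_
  rw [coef_tp h hk]

lemma hasDerivAt_coef {N : ℕ} {f : ℝ → ℝ → ℝ} {f' : ℝ → ℝ} {t : ℝ}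
    (h : ∀ x, HasDerivAt (fun s => f s x) (f' x) t) (k : ℤ) :
    HasDerivAt (fun s => coef N (f s) k) (coef N f' k) t := by
  unfold coef
  refine HasDerivAt.const_mul _ (HasDerivAt.fun_sum fun j _ => ?_)
  exact ((h (node N j)).ofReal_comp).mul_const _

section

variable {g κ γ a b : ℝ} {η ψ : ℝ → ℝ → ℝ} {Φ : ℝ → ℂ → ℝ} {q : ℝ → ℝ → ℝ} {p : ℝ → ℝ}

lemma eta_time (hη : ContDiffOn ℝ 2 (fun P : ℝ × ℝ => η P.1 P.2) (Ioo a b ×ˢ univ)) (x : ℝ) :
    ContDiffOn ℝ 2 (fun s => η s x) (Ioo a b) := by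
  exact hη.comp (g := fun P : ℝ × ℝ => η P.1 P.2) (f := fun s : ℝ => (s, x))
    (contDiffOn_id.prodMk contDiffOn_const) (fun s hs => ⟨hs, mem_univ _⟩)

/-- The coefficient functions exist. -/
theorem exists_coeff (hη : ContDiffOn ℝ 2 (fun P : ℝ × ℝ => η P.1 P.2) (Ioo a b ×ˢ univ)) (N : ℕ)
    (h : ∀ t ∈ Ioo a b, ∃ c : ℤ → ℂ, ∀ x : ℝ, (η t x : ℂ) = tp N c x) :
    Coeff N a b η (fun t => coef N (η t)) (fun t => coef N (fun x => deriv (fun s => η s x) t))
      (fun t => coef N (fun x => deriv (deriv (fun s => η s x)) t)) := by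
  refine ⟨fun t _ => coef_real _ _, fun t _ => coef_real _ _, fun t _ => coef_real _ _,
    fun t ht k => ?_, fun t ht k => ?_, fun t ht x => ?_⟩
  · refine hasDerivAt_coef (fun x => ?_) k
    exact (((eta_time hη x).contDiffAt (isOpen_Ioo.mem_nhds ht)).differentiableAt
      (by norm_num)).hasDerivAt
  · refine hasDerivAt_coef (f := fun s x => deriv (fun r => η r x) s) (fun x => ?_) k
    have h1 : ContDiffOn ℝ 1 (deriv (fun s => η s x)) (Ioo a b) :=
      (eta_time hη x).deriv_of_isOpen isOpen_Ioo (by norm_num)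
    exact ((h1.contDiffAt (isOpen_Ioo.mem_nhds ht)).differentiableAt (by norm_num)).hasDerivAt
  · obtain ⟨c, hc⟩ := h t ht
    exact rep_coef hc x

lemma WaterWave.mono (hw : WaterWave g κ γ a b η ψ Φ q p) {a' b' : ℝ} (ha : a ≤ a')
    (hb : b' ≤ b) : WaterWave g κ γ a' b' η ψ Φ q p := by
  have hsub : Ioo a' b' ⊆ Ioo a b := Ioo_subset_Ioo ha hb
  exact ⟨hw.regη.mono (prod_mono hsub subset_rfl), hw.regΦ.mono (prod_mono hsub subset_rfl),
    fun t ht => hw.perη t (hsub ht), fun t ht => hw.perΦ t (hsub ht),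
    fun t ht => hw.harm t (hsub ht), fun t ht => hw.decay t (hsub ht),
    fun t ht => hw.trace t (hsub ht), fun t ht => hw.kin t (hsub ht),
    fun t ht => hw.perq t (hsub ht), fun t ht => hw.derq t (hsub ht),
    fun t ht => hw.dyn t (hsub ht)⟩

/-- Baire: a surface which is a trigonometric polynomial at each time has, on some smaller
interval, a bounded degree. -/
theorem baire (hη : ContinuousOn (fun P : ℝ × ℝ => η P.1 P.2) (Ioo a b ×ˢ univ)) (hab : a < b)
    (h : ∀ t ∈ Ioo a b, ∃ (N : ℕ) (c : ℤ → ℂ), ∀ x : ℝ, (η t x : ℂ) = tp N c x) :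
    ∃ (N : ℕ) (a' b' : ℝ), a ≤ a' ∧ a' < b' ∧ b' ≤ b ∧
      ∀ t ∈ Ioo a' b', ∃ c : ℤ → ℂ, ∀ x : ℝ, (η t x : ℂ) = tp N c x := by
  -- a compact subinterval
  obtain ⟨u, hau, hub⟩ := exists_between hab
  obtain ⟨v, huv, hvb⟩ := exists_between hub
  have hsub : Icc u v ⊆ Ioo a b := fun t ht => ⟨hau.trans_le ht.1, ht.2.trans_lt hvb⟩
  set A : ℕ → Set ℝ := fun N => {t | t ∈ Icc u v ∧ ∀ x : ℝ, (η t x : ℂ) = tp N (coef N (η t)) x}
    with hA
  have hcont : ∀ x : ℝ, ContinuousOn (fun t => η t x) (Icc u v) := fun x =>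
    hη.comp (f := fun t : ℝ => (t, x)) (by fun_prop) fun t ht => ⟨hsub ht, mem_univ _⟩
  have hclosed : ∀ N, IsClosed (A N) := by
    intro N
    have h1 : A N = ⋂ x : ℝ, {t | t ∈ Icc u v ∧ (η t x : ℂ) = tp N (coef N (η t)) x} := by
      ext t
      simp only [hA, mem_iInter]
      constructor
      · rintro ⟨h1, h2⟩ x
        exact ⟨h1, h2 x⟩
      · intro h2
        exact ⟨(h2 0).1, fun x => (h2 x).2⟩
    rw [h1]
    refine isClosed_iInter fun x => ?_
    have hc1 : ContinuousOn (fun t => ((η t x : ℝ) : ℂ)) (Icc u v) :=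
      continuous_ofReal.comp_continuousOn (hcont x)
    have hc2 : ContinuousOn (fun t => tp N (coef N (η t)) x) (Icc u v) := by
      unfold tp coef
      refine continuousOn_finsetSum _ fun k _ => ContinuousOn.mul ?_ continuousOn_const
      refine ContinuousOn.mul continuousOn_const (continuousOn_finsetSum _ fun j _ => ?_)
      exact (continuous_ofReal.comp_continuousOn (hcont _)).mul continuousOn_const
    have h2 : {t | t ∈ Icc u v ∧ (η t x : ℂ) = tp N (coef N (η t)) x} =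
        Icc u v ∩ (fun t => ((η t x : ℝ) : ℂ) - tp N (coef N (η t)) x) ⁻¹' {0} := by
      ext t
      simp only [mem_inter_iff, mem_preimage, mem_singleton_iff, sub_eq_zero]
      rfl
    rw [h2]
    exact (hc1.sub hc2).preimage_isClosed_of_isClosed isClosed_Icc isClosed_singleton
  -- the cover
  set F : Option ℕ → Set ℝ := fun o => o.elim (Iic u ∪ Ici v) A with hF
  have hFc : ∀ o, IsClosed (F o) := by
    intro o
    cases o with
    | none => exact isClosed_Iic.union isClosed_Ici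
    | some N => exact hclosed N
  have hFU : ⋃ o, F o = univ := by
    rw [eq_univ_iff_forall]
    intro t
    rw [mem_iUnion]
    by_cases ht : t ∈ Ioo u v
    · obtain ⟨N, c, hc⟩ := h t (hsub ⟨ht.1.le, ht.2.le⟩)
      exact ⟨some N, ⟨ht.1.le, ht.2.le⟩, fun x => rep_coef hc x⟩
    · refine ⟨none, ?_⟩
      by_cases h1 : t ≤ u
      · exact Or.inl h1
      · refine Or.inr ?_
        by_contra h2
        exact ht ⟨not_le.1 h1, not_le.1 h2⟩
  have hdense := dense_iUnion_interior_of_closed hFc hFU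
  obtain ⟨t0, ht0, ht1⟩ := hdense.exists_mem_open isOpen_Ioo (nonempty_Ioo.2 huv)
  rw [mem_iUnion] at ht0
  obtain ⟨o, ho⟩ := ht0
  cases o with
  | none =>
    exfalso
    have : t0 ∈ Iic u ∪ Ici v := interior_subset ho
    rcases this with h1 | h1
    · exact absurd ht1.1 (not_lt.2 h1)
    · exact absurd ht1.2 (not_lt.2 h1)
  | some N =>
    have ho' : t0 ∈ interior (A N) ∩ Ioo u v := ⟨ho, ht1⟩
    obtain ⟨r, hr, hrs⟩ := Metric.isOpen_iff.1 (isOpen_interior.inter isOpen_Ioo) t0 ho'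
    rw [Real.ball_eq_Ioo] at hrs
    refine ⟨N, t0 - r / 2, t0 + r / 2, ?_, by linarith, ?_, fun t ht => ?_⟩
    · have h1 : t0 - r / 2 ∈ interior (A N) ∩ Ioo u v := hrs ⟨by linarith, by linarith⟩
      linarith [h1.2.1]
    · have h1 : t0 + r / 2 ∈ interior (A N) ∩ Ioo u v := hrs ⟨by linarith, by linarith⟩
      linarith [h1.2.2]
    · have h1 : t ∈ interior (A N) ∩ Ioo u v := hrs ⟨by linarith [ht.1], by linarith [ht.2]⟩
      exact ⟨_, (interior_subset h1.1).2⟩

end

end WW47
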