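import Pool.Agent.WW47.Strip

/-!
# Module M1: decay of periodic holomorphic functions in a lower half plane
-/

open Complex Set Filter Topology Asymptotics

namespace WW47

/-- uniform bound by the boundary values -/
lemma half_bound {f : ℂ → ℂ} {C : ℝ} (hper : ∀ z, f (z + 2 * Real.pi) = f z)
    (hd : DifferentiableOn ℂ f {z | z.im < -C}) (hcont : ContinuousOn f {z | z.im ≤ -C})
    (h0 : ∀ ε > 0, ∃ Y : ℝ, ∀ z : ℂ, z.im < Y → ‖f z‖ ≤ ε) {B : ℝ}
    (hB0 : 0 < B) (hB : ∀ x : ℝ, ‖f (x - C * I)‖ ≤ B) (z : ℂ) (hz : z.im ≤ -C) :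
    ‖f z‖ ≤ B := by
  obtain ⟨Y, hY⟩ := h0 B hB0
  set a : ℝ := min (min Y z.im) (-C) - 1 with ha
  have haC : a < -C := by
    have := min_le_right (min Y z.im) (-C); linarith
  have haY : a < Y := by
    have h1 := min_le_left (min Y z.im) (-C)
    have h2 := min_le_left Y z.im
    linarith
  have haz : a < z.im := by
    have h1 := min_le_left (min Y z.im) (-C)
    have h2 := min_le_right Y z.im
    linarith
  have hcl : closure (im ⁻¹' Ioo a (-C)) ⊆ im ⁻¹' Icc a (-C) :=
    closure_minimal (preimage_mono Ioo_subset_Icc_self) (isClosed_Icc.preimage continuous_im)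
  obtain ⟨B', hB'⟩ := bdd_of_periodic (a := a) (b := -C) hper
    (hcont.mono (fun w hw => hw.2))
  refine PhragmenLindelof.horizontal_strip (a := a) (b := -C) ?_ ?_ ?_ ?_ haz.le hz
  · refine ⟨hd.mono fun w hw => hw.2, hcont.mono fun w hw => (hcl hw).2⟩
  · refine ⟨0, by apply div_pos Real.pi_pos; linarith, B', ?_⟩
    rw [isBigO_iff]
    refine ⟨1, ?_⟩
    rw [eventually_inf_principal]
    refine Eventually.of_forall fun w hw => ?_
    have h1 := hB' w hw.1.le hw.2.le
    have h2 : B' ≤ Real.exp (B' * Real.exp (0 * |w.re|)) := by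
      simp only [zero_mul, Real.exp_zero, mul_one]
      linarith [Real.add_one_le_exp B']
    rw [one_mul, Real.norm_of_nonneg (Real.exp_pos _).le]
    exact h1.trans h2
  · intro w hw
    exact hY w (by rw [hw]; exact haY)
  · intro w hw
    have : w = ((w.re : ℝ) : ℂ) - C * I := by
      apply Complex.ext <;> simp [hw]
    rw [this]
    exact hB _

theorem decay {f : ℂ → ℂ} {C : ℝ} (hper : ∀ z, f (z + 2 * Real.pi) = f z)
    (hd : DifferentiableOn ℂ f {z | z.im < -C}) (hcont : ContinuousOn f {z | z.im ≤ -C})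
    (h0 : ∀ ε > 0, ∃ Y : ℝ, ∀ z : ℂ, z.im < Y → ‖f z‖ ≤ ε) {B : ℝ}
    (hB : ∀ x : ℝ, ‖f (x - C * I)‖ ≤ B) (z : ℂ) (hz : z.im ≤ -C) :
    ‖f z‖ ≤ B * Real.exp (z.im + C) := by
  have hBnn : 0 ≤ B := (norm_nonneg _).trans (hB 0)
  rcases hz.eq_or_lt with hzC | hzC
  · have : z = ((z.re : ℝ) : ℂ) - C * I := by
      apply Complex.ext <;> simp [hzC]
    rw [hzC, neg_add_cancel, Real.exp_zero, mul_one, this]
    exact hB _
  -- reflected function
  set g : ℂ → ℂ := fun w => f (-w) with hg
  have hgper : Function.Periodic g ((2 * Real.pi : ℝ) : ℂ) := by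
    intro w
    simp only [hg]
    have := hper (-(w + ((2 * Real.pi : ℝ) : ℂ)))
    rw [← this]
    congr 1
    push_cast
    ring
  have hpi : (0 : ℝ) < 2 * Real.pi := by positivity
  have hq : ∀ w : ℂ, Function.Periodic.qParam (2 * Real.pi) w = exp (I * w) := by
    intro w
    unfold Function.Periodic.qParam
    congr 1
    push_cast
    have : (Real.pi : ℂ) ≠ 0 := by exact_mod_cast Real.pi_ne_zero
    field_simp
  have hopen : IsOpen {w : ℂ | w.im < -C} := isOpen_lt continuous_im continuous_const
  have hgd : ∀ w : ℂ, C < w.im → DifferentiableAt ℂ g w := by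
    intro w hw
    have h1 : DifferentiableAt ℂ f (-w) :=
      hd.differentiableAt (hopen.mem_nhds (by simpa using hw))
    exact h1.comp w differentiable_neg.differentiableAt
  have hev : ∀ᶠ w in comap im atTop, DifferentiableAt ℂ g w := by
    rw [eventually_comap]
    filter_upwards [eventually_gt_atTop C] with y hy w hw
    exact hgd w (hw ▸ hy)
  have hzero : ZeroAtFilter (comap im atTop) g := by
    unfold ZeroAtFilter
    rw [Metric.tendsto_nhds]
    intro ε hε
    obtain ⟨Y, hY⟩ := h0 (ε / 2) (by positivity)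
    rw [eventually_comap]
    filter_upwards [eventually_gt_atTop (-Y)] with y hy w hw
    have : ‖f (-w)‖ ≤ ε / 2 := hY (-w) (by simp; linarith)
    rw [dist_zero_right]
    simp only [hg]
    linarith
  set F := Function.Periodic.cuspFunction (2 * Real.pi) g with hF
  have hF0 : F 0 = 0 := Function.Periodic.cuspFunction_zero_of_zero_at_inf hpi hzero
  have hFz : ∀ w : ℂ, F (exp (I * w)) = g w := by
    intro w
    rw [← hq]
    exact Function.Periodic.eq_cuspFunction hpi.ne' hgper w
  have hlog : ∀ q : ℂ, q ≠ 0 → exp (I * (-I * log q)) = q := by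
    intro q hq0
    have : I * (-I * log q) = log q := by
      rw [← mul_assoc, mul_neg, I_mul_I]; ring
    rw [this, exp_log hq0]
  have him : ∀ q : ℂ, (-I * log q).im = -Real.log ‖q‖ := by
    intro q; simp [log_re]
  set R : ℝ := Real.exp (-C) with hR
  have hRpos : 0 < R := Real.exp_pos _
  have hball : ∀ q : ℂ, q ≠ 0 → ‖q‖ < R → C < (-I * log q).im := by
    intro q hq0 hqR
    rw [him]
    have : Real.log ‖q‖ < Real.log R := Real.log_lt_log (norm_pos_iff.mpr hq0) hqR
    rw [hR, Real.log_exp] at this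
    linarith
  have hFd : DifferentiableOn ℂ F (Metric.ball 0 R) := by
    intro q hqb
    rw [Metric.mem_ball, dist_zero_right] at hqb
    apply DifferentiableAt.differentiableWithinAt
    by_cases hq0 : q = 0
    · rw [hq0]
      exact Function.Periodic.differentiableAt_cuspFunction_zero hpi hgper hev
        hzero.boundedAtFilter
    · have h1 := Function.Periodic.differentiableAt_cuspFunction hpi.ne' hgper
        (hgd _ (hball q hq0 hqb))
      rw [hq, hlog q hq0] at h1
      exact h1
  have main : ∀ B' : ℝ, B < B' → ‖f z‖ ≤ B' * Real.exp (z.im + C) := by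
    intro B' hB'
    have hB'0 : 0 < B' := lt_of_le_of_lt hBnn hB'
    have hbd : ∀ w : ℂ, w.im ≤ -C → ‖f w‖ ≤ B' :=
      half_bound hper hd hcont h0 hB'0 (fun x => (hB x).trans hB'.le)
    have hmaps : MapsTo F (Metric.ball 0 R) (Metric.closedBall (F 0) B') := by
      intro q hqb
      rw [Metric.mem_ball, dist_zero_right] at hqb
      rw [Metric.mem_closedBall, hF0, dist_zero_right]
      by_cases hq0 : q = 0
      · rw [hq0, hF0, norm_zero]; exact hB'0.le
      · rw [← hlog q hq0, hFz]
        apply hbd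
        have := hball q hq0 hqb
        simp only [neg_im]
        linarith
    have hqz : exp (I * (-z)) ∈ Metric.ball (0 : ℂ) R := by
      rw [Metric.mem_ball, dist_zero_right, norm_exp, hR, Real.exp_lt_exp]
      simp
      exact hzC
    have key := dist_le_div_mul_dist_of_mapsTo_ball hFd hmaps hqz
    rw [hF0, dist_zero_right, dist_zero_right, hFz, norm_exp] at key
    have h2 : (I * -z).re = z.im := by simp
    rw [h2] at key
    have h3 : g (-z) = f z := by simp [hg]
    rw [h3] at key
    calc ‖f z‖ ≤ B' / R * Real.exp z.im := key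
      _ = B' * Real.exp (z.im + C) := by
        rw [hR, Real.exp_add, Real.exp_neg]; field_simp
  have hpos : 0 < Real.exp (z.im + C) := Real.exp_pos _
  have : ‖f z‖ / Real.exp (z.im + C) ≤ B := by
    refine le_of_forall_gt_imp_ge_of_dense fun B' hB' => ?_
    rw [div_le_iff₀ hpos]
    exact main B' hB'
  rwa [div_le_iff₀ hpos] at this

end WW47
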