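import Pool.Agent.WW47.Coef

/-!
# Module M6, second part: flat surfaces, and the reduction to a fixed degree
-/

open Complex Set Filter Topology

namespace WW47

/-- A periodic holomorphic function in a lower half plane which tends to `0` at `-i∞` and is real
on the boundary vanishes. -/
theorem zero_of_real_bdry {f : ℂ → ℂ} {h : ℝ} (hper : ∀ z, f (z + 2 * Real.pi) = f z)
    (hd : DifferentiableOn ℂ f {z | z.im < h}) (hcont : ContinuousOn f {z | z.im ≤ h})
    (h0 : ∀ ε > 0, ∃ Y : ℝ, ∀ z : ℂ, z.im < Y → ‖f z‖ ≤ ε)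
    (hreal : ∀ x : ℝ, (f (x + h * I)).im = 0) : ∀ z : ℂ, z.im < h → f z = 0 := by
  have hexp : ∀ (n : ℤ) (z : ℂ), z.im < h → ‖exp (I * n * f z) - 1‖ ≤ 2 := by
    intro n z hz
    have hh : (-(-h)) = h := neg_neg h
    refine half_bound (f := fun z => exp (I * n * f z) - 1) (C := -h) (fun w => by rw [hper]) ?_ ?_
      ?_ (B := 2) (by norm_num) ?_ z (by linarith)
    · rw [hh]
      exact ((hd.const_mul _).cexp).sub_const 1
    · rw [hh]
      exact ((hcont.const_smul (I * (n : ℂ))).cexp).sub continuousOn_const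
    · intro ε hε
      have hc : ContinuousAt (fun w : ℂ => exp (I * n * w) - 1) 0 := by fun_prop
      have h1 := Metric.continuousAt_iff.1 hc ε hε
      obtain ⟨δ, hδ, h2⟩ := h1
      obtain ⟨Y, hY⟩ := h0 (δ / 2) (by positivity)
      refine ⟨Y, fun w hw => ?_⟩
      have h3 := h2 (x := f w) (by rw [dist_zero_right]; linarith [hY w hw])
      rw [mul_zero, exp_zero, sub_self, dist_zero_right] at h3
      exact h3.le
    · intro x
      have h1 : ((x : ℂ) - ((-h : ℝ) : ℂ) * I) = x + h * I := by push_cast; ring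
      rw [h1]
      have h2 : ‖exp (I * n * f (x + h * I))‖ = 1 := by
        rw [norm_exp]
        have : (I * (n : ℂ) * f (x + h * I)).re = -(n * (f (x + h * I)).im) := by simp
        rw [this, hreal x]
        simp
      calc _ ≤ ‖exp (I * n * f (x + h * I))‖ + ‖(1 : ℂ)‖ := norm_sub_le _ _
        _ = 2 := by rw [h2, norm_one]; norm_num
  have him : ∀ z : ℂ, z.im < h → (f z).im = 0 := by
    intro z hz
    by_contra hne
    have h1 : ∀ n : ℤ, Real.exp (-(n * (f z).im)) ≤ 3 := by
      intro n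
      have h2 := hexp n z hz
      have h3 : ‖exp (I * n * f z)‖ ≤ 3 := by
        calc _ = ‖(exp (I * n * f z) - 1) + 1‖ := by rw [sub_add_cancel]
          _ ≤ ‖exp (I * n * f z) - 1‖ + ‖(1 : ℂ)‖ := norm_add_le _ _
          _ ≤ 3 := by rw [norm_one]; linarith
      rw [norm_exp] at h3
      have : (I * (n : ℂ) * f z).re = -(n * (f z).im) := by simp
      rwa [this] at h3
    obtain ⟨n, hn⟩ := exists_nat_gt (3 / |(f z).im|)
    have hpos : 0 < |(f z).im| := abs_pos.2 hne
    rw [div_lt_iff₀ hpos] at hn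
    rcases lt_or_gt_of_ne hne with hlt | hgt
    · have h2 := h1 n
      rw [abs_of_neg hlt] at hn
      have h3 := Real.add_one_le_exp (-(((n : ℤ) : ℝ) * (f z).im))
      push_cast at h2 h3
      linarith
    · have h2 := h1 (-n)
      rw [abs_of_pos hgt] at hn
      have h3 := Real.add_one_le_exp (-(((-n : ℤ) : ℝ) * (f z).im))
      push_cast at h2 h3
      linarith
  have hopen : IsOpen {z : ℂ | z.im < h} := isOpen_lt continuous_im continuous_const
  have hder : ∀ z : ℂ, z.im < h → deriv f z = 0 := by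
    intro z hz
    have h1 : HasDerivAt f (deriv f z) z := (hd.differentiableAt (hopen.mem_nhds hz)).hasDerivAt
    -- any direction `v` gives a real derivative
    have h2 : ∀ v : ℂ, (deriv f z * v).im = 0 := by
      intro v
      have h3 : HasDerivAt (fun s : ℝ => z + s * v) v 0 := by
        have := ((hasDerivAt_id (0 : ℝ)).ofReal_comp.mul_const v).const_add z
        simpa using this
      have h1' : HasDerivAt f (deriv f z) (z + ((0 : ℝ) : ℂ) * v) := by simpa using h1
      have h4 : HasDerivAt (fun s : ℝ => f (z + s * v)) (deriv f z * v) 0 :=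
        HasDerivAt.comp (𝕜 := ℝ) (𝕜' := ℂ) (0 : ℝ) h1' h3
      have h5 : (fun s : ℝ => (((f (z + s * v)).re : ℝ) : ℂ)) =ᶠ[𝓝 0] fun s => f (z + s * v) := by
        have hc : ContinuousAt (fun s : ℝ => z + s * v) 0 := h3.continuousAt
        have h6 : ∀ᶠ s : ℝ in 𝓝 0, (z + s * v) ∈ {z : ℂ | z.im < h} :=
          hc.eventually (hopen.mem_nhds (by simpa using hz))
        filter_upwards [h6] with s hs
        apply Complex.ext
        · simp
        · simp [him _ hs]
      exact (real_of_cast (h4.congr_of_eventuallyEq h5)).2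
    have h3 := h2 1
    have h4 := h2 I
    rw [mul_one] at h3
    rw [mul_I_im] at h4
    exact Complex.ext h4 h3
  intro z hz
  by_contra hne
  obtain ⟨Y, hY⟩ := h0 (‖f z‖ / 2) (by have := norm_pos_iff.2 hne; positivity)
  have hw : ((((min Y h) - 1 : ℝ) : ℂ) * I).im < h := by
    have : ((((min Y h) - 1 : ℝ) : ℂ) * I).im = min Y h - 1 := by simp
    rw [this]
    linarith [min_le_right Y h]
  have h1 := hopen.is_const_of_deriv_eq_zero (convex_halfSpace_im_lt h).isPreconnected hd
    (fun w hw' => hder w hw') hz hw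
  have h2 := hY ((((min Y h) - 1 : ℝ) : ℂ) * I) (by
    have : ((((min Y h) - 1 : ℝ) : ℂ) * I).im = min Y h - 1 := by simp
    rw [this]
    linarith [min_le_left Y h])
  rw [← h1] at h2
  have := norm_pos_iff.2 hne
  linarith

section

variable {g κ γ a b : ℝ} {η ψ : ℝ → ℝ → ℝ} {Φ : ℝ → ℂ → ℝ} {q : ℝ → ℝ → ℝ} {p : ℝ → ℝ}

/-- A flat surface belongs to the rest state. -/
theorem flat (hw : WaterWave g κ γ a b η ψ Φ q p) (hflat : ∀ t ∈ Ioo a b, ∀ x, η t x = η t 0)
    {t : ℝ} (ht : t ∈ Ioo a b) :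
    deriv (fun s => η s 0) t = 0 ∧ (∀ x, deriv (ψ t) x = 0) ∧
      ∀ z : ℂ, z.im < η t 0 → px Φ t z = 0 ∧ py Φ t z = 0 := by
  have hc : ∃ c0 c1 c2, Coeff 0 a b η c0 c1 c2 := by
    refine ⟨_, _, _, exists_coeff hw.regη 0 (fun s hs => ⟨fun _ => (η s 0 : ℂ), fun x => ?_⟩)⟩
    rw [hflat s hs x]
    simp [tp]
  obtain ⟨c0, c1, c2, hc⟩ := hc
  have hη : η t = fun _ => η t 0 := funext fun x => hflat t ht x
  have hetax : ∀ x, etax η t x = 0 := by
    intro x
    unfold etax
    rw [hη]
    simp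
  set m : ℝ := deriv (fun s => η s 0) t with hm
  have hDN : ∀ x, DN Φ η t x = m := by
    intro x
    have h1 := hw.kin t ht x
    rw [hetax, mul_zero, add_zero] at h1
    rw [← h1, hm]
    apply Filter.EventuallyEq.deriv_eq
    filter_upwards [isOpen_Ioo.mem_nhds ht] with s hs using hflat s hs x
  have hm0 : m = 0 := by
    have h1 : ∀ x, HasDerivAt (fun x => q t x - m * x) 0 x := by
      intro x
      have h2 := (hw.derq t ht x).fun_sub ((hasDerivAt_id' x).const_mul m)
      exact h2.congr_deriv (by rw [hDN x, mul_one, sub_self])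
    have h2 := is_const_of_deriv_eq_zero (fun x => (h1 x).differentiableAt)
      (fun x => (h1 x).deriv) (0 + 2 * Real.pi) 0
    rw [hw.perq t ht] at h2
    have h3 : m * (2 * Real.pi) = 0 := by linarith
    rcases mul_eq_zero.1 h3 with h4 | h4
    · exact h4
    · exact absurd h4 (by positivity)
  have hsurf : ∀ x : ℝ, surf η t x = x + (η t 0 : ℂ) * I := by
    intro x
    unfold surf
    rw [hflat t ht x]
  have hpy : ∀ x : ℝ, py Φ t (x + (η t 0 : ℂ) * I) = 0 := by
    intro x
    have h1 := hDN x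
    unfold DN at h1
    rw [hetax, zero_mul, sub_zero, hm0, hsurf] at h1
    exact h1
  have hzero : ∀ z : ℂ, z.im < η t 0 → Wt Φ (t, z) = 0 := by
    refine zero_of_real_bdry (f := fun z => Wt Φ (t, z)) (Wt_per hw ht) ?_
      (Wt_cont hw.regΦ ht).continuousOn (Wt_decay0 hw ht) ?_
    · intro z hz
      refine (Wt_hol hw ht ?_).differentiableWithinAt
      rw [hflat t ht]
      exact hz
    · intro x
      rw [← vel_eq hw.regΦ ht]
      have h1 := hpy x
      unfold py at h1
      unfold vel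
      rw [h1]
      simp
  have hparts : ∀ z : ℂ, Wt Φ (t, z) = 0 → px Φ t z = 0 ∧ py Φ t z = 0 := by
    intro z hz
    rw [← vel_eq hw.regΦ ht] at hz
    unfold vel at hz
    have h1 := congrArg Complex.re hz
    have h2 := congrArg Complex.im hz
    simp at h1 h2
    exact ⟨h1, h2⟩
  have hbd : ∀ z : ℂ, z.im ≤ η t 0 → Wt Φ (t, z) = 0 := by
    intro z hz
    have hcl : z ∈ closure {z : ℂ | z.im < η t 0} := by
      rw [closure_setOfPred_im_lt]
      exact hz
    have hclosed : IsClosed {z : ℂ | Wt Φ (t, z) = 0} :=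
      isClosed_eq (Wt_cont hw.regΦ ht) continuous_const
    exact closure_minimal (fun w hw' => hzero w hw') hclosed hcl
  refine ⟨hm0, fun x => ?_, fun z hz => hparts z (hzero z hz)⟩
  rw [(psi_x hw hc ht x).deriv, hetax, zero_mul, add_zero, hsurf]
  exact (hparts _ (hbd _ (by simp))).1

/-- The statement that a band-limited wave of positive degree is impossible. -/
def NoWave (g κ γ : ℝ) (η ψ : ℝ → ℝ → ℝ) (Φ : ℝ → ℂ → ℝ) (q : ℝ → ℝ → ℝ) (p : ℝ → ℝ) : Prop :=
  ∀ (a b : ℝ) (N : ℕ) (c0 c1 c2 : ℝ → ℤ → ℂ) (t : ℝ), WaterWave g κ γ a b η ψ Φ q p →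
    Coeff N a b η c0 c1 c2 → 1 ≤ N → t ∈ Ioo a b → c0 t N ≠ 0 → False

/-- Reduction of the final theorem to `NoWave`. -/
theorem reduce (hw : WaterWave g κ γ a b η ψ Φ q p) (hno : NoWave g κ γ η ψ Φ q p)
    (h : ∀ t ∈ Ioo a b, ∃ (N : ℕ) (c : ℤ → ℂ), ∀ x : ℝ, (η t x : ℂ) = tp N c x) :
    ∀ t ∈ Ioo a b, ∀ x, η t x = η t 0 := by
  -- fixed degree: induction on the degree
  have key : ∀ (N : ℕ) (a' b' : ℝ), a ≤ a' → b' ≤ b →
      (∀ t ∈ Ioo a' b', ∃ c : ℤ → ℂ, ∀ x : ℝ, (η t x : ℂ) = tp N c x) →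
      ∀ t ∈ Ioo a' b', ∀ x, η t x = η t 0 := by
    intro N
    induction N with
    | zero =>
      intro a' b' _ _ hc t ht x
      obtain ⟨c, hc⟩ := hc t ht
      have h1 := hc x
      have h2 := hc 0
      have h3 : tp 0 c x = tp 0 c ((0 : ℝ) : ℂ) := by simp [tp]
      rw [h3, ← h2] at h1
      exact_mod_cast h1
    | succ N ih =>
      intro a' b' ha hb hc
      have hw' := hw.mono ha hb
      have hcoef := exists_coeff hw'.regη (N + 1) hc
      refine ih a' b' ha hb (fun t ht => ⟨coef (N + 1) (η t), fun x => ?_⟩)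
      have h0 : coef (N + 1) (η t) ((N + 1 : ℕ) : ℤ) = 0 := by
        by_contra hne
        exact hno a' b' (N + 1) _ _ _ t hw' hcoef (by omega) ht hne
      have h0' : coef (N + 1) (η t) (-((N + 1 : ℕ) : ℤ)) = 0 := by
        rw [coef_real, h0, map_zero]
      rw [hcoef.rep t ht x]
      unfold tp
      symm
      refine Finset.sum_subset ?_ ?_
      · intro k hk
        rw [Finset.mem_Icc] at hk ⊢
        push_cast
        omega
      · intro k hk hk'
        rw [Finset.mem_Icc] at hk hk'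
        push_cast at hk
        have h1 : k = ((N + 1 : ℕ) : ℤ) ∨ k = -((N + 1 : ℕ) : ℤ) := by
          push_cast
          omega
        rcases h1 with h1 | h1
        · rw [h1, h0, zero_mul]
        · rw [h1, h0', zero_mul]
  -- density
  have hcont : ∀ x : ℝ, ContinuousOn (fun t => η t x) (Ioo a b) := fun x =>
    hw.regη.continuousOn.comp (f := fun t : ℝ => (t, x)) (by fun_prop)
      fun t ht => ⟨ht, mem_univ _⟩
  intro t ht x
  by_contra hne
  have hne' : η t x - η t 0 ≠ 0 := sub_ne_zero.2 hne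
  have hca : ContinuousAt (fun s => η s x - η s 0) t :=
    ((hcont x).continuousAt (isOpen_Ioo.mem_nhds ht)).sub
      ((hcont 0).continuousAt (isOpen_Ioo.mem_nhds ht))
  have hev := (hca.eventually_ne hne').and (isOpen_Ioo.mem_nhds ht)
  obtain ⟨r, hr, hr2⟩ := Metric.eventually_nhds_iff.1 hev
  have hin : ∀ s ∈ Ioo (t - r) (t + r), η s x - η s 0 ≠ 0 ∧ s ∈ Ioo a b := by
    intro s hs
    apply hr2
    rw [Real.dist_eq, abs_lt]
    constructor <;> linarith [hs.1, hs.2]
  have hsub : Ioo (t - r / 2) (t + r / 2) ⊆ Ioo a b := by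
    intro s hs
    exact (hin s ⟨by linarith [hs.1], by linarith [hs.2]⟩).2
  have hal : a ≤ t - r / 2 := (hin (t - r / 2) ⟨by linarith, by linarith⟩).2.1.le
  have hbl : t + r / 2 ≤ b := (hin (t + r / 2) ⟨by linarith, by linarith⟩).2.2.le
  obtain ⟨N, a', b', ha', hab', hb', hN⟩ := baire
    (hw.regη.continuousOn.mono (prod_mono hsub subset_rfl)) (by linarith : t - r / 2 < t + r / 2)
    (fun s hs => h s (hsub hs))
  have hflat := key N a' b' (by linarith) (by linarith) hN
  have hmid : (a' + b') / 2 ∈ Ioo a' b' := ⟨by linarith, by linarith⟩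
  have h1 := hflat _ hmid x
  have h2 := (hin ((a' + b') / 2) ⟨by linarith [hmid.1], by linarith [hmid.2]⟩).1
  exact h2 (sub_eq_zero.2 h1)

/-- **Final form**, given `NoWave`: the wave is the rest state. -/
theorem rest (hw : WaterWave g κ γ a b η ψ Φ q p) (hno : NoWave g κ γ η ψ Φ q p)
    (h : ∀ t ∈ Ioo a b, ∃ (N : ℕ) (c : ℤ → ℂ), ∀ x : ℝ, (η t x : ℂ) = tp N c x) :
    ∃ h0 : ℝ, ∀ t ∈ Ioo a b, (∀ x, η t x = h0) ∧ (∀ x, deriv (ψ t) x = 0) ∧
      ∀ z : ℂ, z.im < h0 → px Φ t z = 0 ∧ py Φ t z = 0 := by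
  have hflat := reduce hw hno h
  rcases (Ioo a b).eq_empty_or_nonempty with he | ⟨t0, ht0⟩
  · refine ⟨0, fun t ht => ?_⟩
    rw [he] at ht
    exact absurd ht (notMem_empty t)
  have hconst : ∀ t ∈ Ioo a b, η t 0 = η t0 0 := by
    intro t ht
    have hd : DifferentiableOn ℝ (fun s => η s 0) (Ioo a b) :=
      (eta_time hw.regη 0).differentiableOn (by norm_num)
    exact isOpen_Ioo.is_const_of_deriv_eq_zero isPreconnected_Ioo hd
      (fun s hs => (flat hw hflat hs).1) ht ht0
  refine ⟨η t0 0, fun t ht => ?_⟩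
  obtain ⟨-, h2, h3⟩ := flat hw hflat ht
  rw [hconst t ht] at h3
  refine ⟨fun x => ?_, h2, h3⟩
  rw [hflat t ht x, hconst t ht]

end

end WW47
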