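import Pool.Agent.WW47.Vel3

/-!
# Calculus on the real line: the differentiated Bernoulli equation
-/

open Complex Set Filter Topology

namespace WW47

/-- real version of `Jp` -/
def Jr (g γ H H1 H2 G Gx a ax at' : ℝ) : ℝ :=
  2 * (1 + H1 ^ 2) ^ 2 * (at' + g * H1 - γ * (H1 * a + H * ax) - γ * G)
    - ((-2 * a * ax + 2 * H2 * a * G + 2 * H1 * ax * G + 2 * H1 * a * Gx + 2 * G * Gx)
        * (1 + H1 ^ 2)
      - (-a ^ 2 + 2 * H1 * a * G + G ^ 2) * (2 * H1 * H2))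

def Kr (H1 H2 H3 : ℝ) : ℝ := H3 * (1 + H1 ^ 2) - 3 * H1 * H2 ^ 2

/-- curvature term -/
lemma curv1 {h1 h2 : ℝ → ℝ} (d1 : ∀ x, HasDerivAt h1 (h2 x) x) (x : ℝ) :
    HasDerivAt (fun y => h1 y / √(1 + h1 y ^ 2))
      (h2 x / ((1 + h1 x ^ 2) * √(1 + h1 x ^ 2))) x := by
  have hD : 0 < 1 + h1 x ^ 2 := by positivity
  have hs : 0 < √(1 + h1 x ^ 2) := Real.sqrt_pos.mpr hD
  have e1 : HasDerivAt (fun y => 1 + h1 y ^ 2) (2 * h1 x * h2 x) x := by
    have := ((d1 x).pow 2).const_add 1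
    refine this.congr_deriv ?_
    push_cast; ring
  have e2 := e1.sqrt hD.ne'
  have e3 := (d1 x).div e2 hs.ne'
  refine e3.congr_deriv ?_
  have hsq : √(1 + h1 x ^ 2) ^ 2 = 1 + h1 x ^ 2 := Real.sq_sqrt hD.le
  rw [div_eq_div_iff (by positivity) (by positivity)]
  rw [hsq]
  field_simp
  rw [hsq]
  ring

lemma curv2 {h1 h2 h3 : ℝ → ℝ} (d1 : ∀ x, HasDerivAt h1 (h2 x) x)
    (d2 : ∀ x, HasDerivAt h2 (h3 x) x) (x : ℝ) :
    HasDerivAt (fun y => h2 y / ((1 + h1 y ^ 2) * √(1 + h1 y ^ 2)))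
      (Kr (h1 x) (h2 x) (h3 x) / ((1 + h1 x ^ 2) ^ 2 * √(1 + h1 x ^ 2))) x := by
  have hD : 0 < 1 + h1 x ^ 2 := by positivity
  have hs : 0 < √(1 + h1 x ^ 2) := Real.sqrt_pos.mpr hD
  have e1 : HasDerivAt (fun y => 1 + h1 y ^ 2) (2 * h1 x * h2 x) x := by
    have := ((d1 x).pow 2).const_add 1
    refine this.congr_deriv ?_
    push_cast; ring
  have e2 := e1.sqrt hD.ne'
  have e3 := (d2 x).div (e1.mul e2) (mul_pos hD hs).ne'
  refine e3.congr_deriv ?_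
  have hsq : √(1 + h1 x ^ 2) ^ 2 = 1 + h1 x ^ 2 := Real.sq_sqrt hD.le
  unfold Kr
  simp only [Pi.mul_apply]
  rw [div_eq_div_iff (by positivity) (by positivity)]
  field_simp
  set s := √(1 + h1 x ^ 2) with hsdef
  have hs2 : h1 x ^ 2 = s ^ 2 - 1 := by rw [hsq]; ring
  rw [hs2]
  ring

/-- the differentiated Bernoulli equation, real version -/
lemma bernoulli_real {g κ γ pt : ℝ} {h h1 h2 h3 G Gx s sx Pt Ptx q : ℝ → ℝ}
    (d0 : ∀ x, HasDerivAt h (h1 x) x) (d1 : ∀ x, HasDerivAt h1 (h2 x) x)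
    (d2 : ∀ x, HasDerivAt h2 (h3 x) x) (dG : ∀ x, HasDerivAt G (Gx x) x)
    (ds : ∀ x, HasDerivAt s (sx x) x) (dP : ∀ x, HasDerivAt Pt (Ptx x) x)
    (dq : ∀ x, HasDerivAt q (G x) x)
    (hP : ∀ x, Pt x = -g * h x - s x ^ 2 / 2 + (h1 x * s x + G x) ^ 2 / (2 * (1 + h1 x ^ 2))
      + κ * deriv (fun y => h1 y / √(1 + h1 y ^ 2)) x + γ * h x * s x + γ * q x + pt) (x : ℝ) :
    Jr g γ (h x) (h1 x) (h2 x) (G x) (Gx x) (s x) (sx x) (Ptx x) ^ 2 * (1 + h1 x ^ 2)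
      = 4 * κ ^ 2 * Kr (h1 x) (h2 x) (h3 x) ^ 2 := by
  have hD : 0 < 1 + h1 x ^ 2 := by positivity
  have hs : 0 < √(1 + h1 x ^ 2) := Real.sqrt_pos.mpr hD
  have hP' : Pt = fun x => -g * h x - s x ^ 2 / 2
      + (h1 x * s x + G x) ^ 2 / (2 * (1 + h1 x ^ 2))
      + κ * (h2 x / ((1 + h1 x ^ 2) * √(1 + h1 x ^ 2))) + γ * h x * s x + γ * q x + pt := by
    funext y
    rw [hP y, (curv1 d1 y).deriv]
  have e1 : HasDerivAt (fun y => 2 * (1 + h1 y ^ 2)) (2 * (2 * h1 x * h2 x)) x := by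
    have := (((d1 x).pow 2).const_add 1).const_mul 2
    refine this.congr_deriv ?_
    push_cast; ring
  have e2 : HasDerivAt (fun y => (h1 y * s y + G y) ^ 2)
      (2 * (h1 x * s x + G x) * (h2 x * s x + h1 x * sx x + Gx x)) x := by
    have := (((d1 x).mul (ds x)).add (dG x)).pow 2
    refine this.congr_deriv ?_
    simp only [Pi.add_apply, Pi.mul_apply]
    push_cast; ring
  have e3 := e2.div e1 (by positivity)
  have e4 : HasDerivAt (fun y => s y ^ 2 / 2) (s x * sx x) x := by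
    have := ((ds x).pow 2).div_const 2
    refine this.congr_deriv ?_
    push_cast; ring
  have e5 := (curv2 d1 d2 x).const_mul κ
  have e6 : HasDerivAt (fun y => γ * h y * s y) (γ * (h1 x * s x + h x * sx x)) x := by
    have := ((d0 x).const_mul γ).mul (ds x)
    refine this.congr_deriv ?_
    ring
  have e7 := (((((((d0 x).const_mul (-g)).sub e4).add e3).add e5).add e6).add
    ((dq x).const_mul γ)).add_const pt
  have e8 : Ptx x = -g * h1 x - s x * sx x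
      + ((2 * (h1 x * s x + G x) * (h2 x * s x + h1 x * sx x + Gx x)) * (2 * (1 + h1 x ^ 2))
        - (h1 x * s x + G x) ^ 2 * (2 * (2 * h1 x * h2 x))) / (2 * (1 + h1 x ^ 2)) ^ 2
      + κ * (Kr (h1 x) (h2 x) (h3 x) / ((1 + h1 x ^ 2) ^ 2 * √(1 + h1 x ^ 2)))
      + γ * (h1 x * s x + h x * sx x) + γ * G x := by
    have h1' := dP x
    rw [hP'] at h1'
    exact h1'.unique e7
  have hsq : √(1 + h1 x ^ 2) ^ 2 = 1 + h1 x ^ 2 := Real.sq_sqrt hD.le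
  have e9 : Jr g γ (h x) (h1 x) (h2 x) (G x) (Gx x) (s x) (sx x) (Ptx x)
      = 2 * κ * Kr (h1 x) (h2 x) (h3 x) / √(1 + h1 x ^ 2) := by
    unfold Jr
    rw [e8]
    field_simp
    ring
  rw [e9, div_pow, hsq]
  field_simp
  ring

end WW47
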