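import Pool.Agent.WW47.Line
import Pool.Agent.WW47.Alg0

/-!
# The identity on the real line
-/

open Complex Set Filter Topology

namespace WW47

lemma RealC.Dc {c : ℤ → ℂ} (hc : RealC c) : RealC (Dc c) := by
  intro k
  simp only [WW47.Dc]
  rw [hc k]
  simp

/-- `tp` on the real line as a real function -/
noncomputable def tpR (N : ℕ) (c : ℤ → ℂ) (x : ℝ) : ℝ := (tp N c (x : ℂ)).re

lemma tpR_cast {N : ℕ} {c : ℤ → ℂ} (hc : RealC c) (x : ℝ) : ((tpR N c x : ℝ) : ℂ) = tp N c x := by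
  apply Complex.ext
  · simp [tpR]
  · simp [tp_real_im N c hc x]

lemma hasDerivAt_tpR (N : ℕ) (c : ℤ → ℂ) (x : ℝ) : HasDerivAt (tpR N c) (tpR N (Dc c) x) x :=
  (hasDerivAt_tp N c (x : ℂ)).real_of_complex

/-- If a real function, seen as complex valued, has a complex derivative, this is real. -/
lemma real_of_cast {f : ℝ → ℝ} {c : ℂ} {x : ℝ} (h : HasDerivAt (fun y => (f y : ℂ)) c x) :
    HasDerivAt f c.re x ∧ c.im = 0 := by
  have h1 : HasDerivAt (fun y => reCLM (f y : ℂ)) (reCLM c) x := by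
    have := reCLM.hasFDerivAt.comp_hasDerivAt x h
    exact this
  have h2 : HasDerivAt (fun y => imCLM (f y : ℂ)) (imCLM c) x := by
    have := imCLM.hasFDerivAt.comp_hasDerivAt x h
    exact this
  simp only [reCLM_apply, ofReal_re] at h1
  simp only [imCLM_apply, ofReal_im] at h2
  exact ⟨h1, (h2.unique (hasDerivAt_const x (0 : ℝ)))⟩

/-- Coefficient functions of the surface. -/
structure Coeff (N : ℕ) (a b : ℝ) (η : ℝ → ℝ → ℝ) (c0 c1 c2 : ℝ → ℤ → ℂ) : Prop where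
  real0 : ∀ t ∈ Ioo a b, RealC (c0 t)
  real1 : ∀ t ∈ Ioo a b, RealC (c1 t)
  real2 : ∀ t ∈ Ioo a b, RealC (c2 t)
  der0 : ∀ t ∈ Ioo a b, ∀ k, HasDerivAt (fun s => c0 s k) (c1 t k) t
  der1 : ∀ t ∈ Ioo a b, ∀ k, HasDerivAt (fun s => c1 s k) (c2 t k) t
  rep : ∀ t ∈ Ioo a b, ∀ x : ℝ, (η t x : ℂ) = tp N (c0 t) x

section

variable {g κ γ a b : ℝ} {η ψ : ℝ → ℝ → ℝ} {Φ : ℝ → ℂ → ℝ} {q : ℝ → ℝ → ℝ} {p : ℝ → ℝ}
variable {N : ℕ} {c0 c1 c2 : ℝ → ℤ → ℂ}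

lemma hasDerivAt_tp_time {f : ℝ → ℤ → ℂ} {f1 : ℤ → ℂ} {t : ℝ}
    (h : ∀ k, HasDerivAt (fun s => f s k) (f1 k) t) (N : ℕ) (x : ℂ) :
    HasDerivAt (fun s => tp N (f s) x) (tp N f1 x) t := by
  unfold tp
  exact HasDerivAt.fun_sum fun k _ => (h k).mul_const _

lemma der_Dc {f : ℝ → ℤ → ℂ} {f1 : ℤ → ℂ} {t : ℝ}
    (h : ∀ k, HasDerivAt (fun s => f s k) (f1 k) t) :
    ∀ k, HasDerivAt (fun s => Dc (f s) k) (Dc f1 k) t := by
  intro k
  exact (h k).const_mul _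

lemma eta_eq (hc : Coeff N a b η c0 c1 c2) {t : ℝ} (ht : t ∈ Ioo a b) :
    η t = tpR N (c0 t) := by
  funext x
  have h1 := hc.rep t ht x
  have h2 := tpR_cast (hc.real0 t ht) x (N := N)
  rw [← h2] at h1
  exact_mod_cast h1

lemma etax_eq (hc : Coeff N a b η c0 c1 c2) {t : ℝ} (ht : t ∈ Ioo a b) (x : ℝ) :
    etax η t x = tpR N (Dc (c0 t)) x := by
  unfold etax
  rw [eta_eq hc ht]
  exact (hasDerivAt_tpR N (c0 t) x).deriv

lemma etat (hc : Coeff N a b η c0 c1 c2) {t : ℝ} (ht : t ∈ Ioo a b) (x : ℝ) :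
    HasDerivAt (fun s => η s x) (tpR N (c1 t) x) t := by
  have h1 := hasDerivAt_tp_time (hc.der0 t ht) N (x : ℂ)
  have h2 : (fun s => ((η s x : ℝ) : ℂ)) =ᶠ[𝓝 t] fun s => tp N (c0 s) x := by
    filter_upwards [isOpen_Ioo.mem_nhds ht] with s hs using hc.rep s hs x
  exact (real_of_cast (h1.congr_of_eventuallyEq h2)).1

lemma DN_eq (hw : WaterWave g κ γ a b η ψ Φ q p) (hc : Coeff N a b η c0 c1 c2) {t : ℝ}
    (ht : t ∈ Ioo a b) (x : ℝ) :
    DN Φ η t x = tpR N (c1 t) x - γ * (tpR N (c0 t) x * tpR N (Dc (c0 t)) x) := by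
  have h1 := hw.kin t ht x
  rw [(etat hc ht x).deriv, etax_eq hc ht, eta_eq hc ht] at h1
  linarith

/-- the surface curve moves -/
lemma surf_x (hc : Coeff N a b η c0 c1 c2) {t : ℝ} (ht : t ∈ Ioo a b) (x : ℝ) :
    HasDerivAt (fun y => surf η t y) (1 + etax η t x * I) x := by
  unfold surf
  have h1 : HasDerivAt (fun y : ℝ => (y : ℂ)) 1 x := (hasDerivAt_id x).ofReal_comp
  have h2 : HasDerivAt (η t) (etax η t x) x := by
    rw [etax_eq hc ht, eta_eq hc ht]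
    exact hasDerivAt_tpR N (c0 t) x
  exact h1.add (h2.ofReal_comp.mul_const I)

lemma psi_x (hw : WaterWave g κ γ a b η ψ Φ q p) (hc : Coeff N a b η c0 c1 c2) {t : ℝ}
    (ht : t ∈ Ioo a b) (x : ℝ) :
    HasDerivAt (ψ t) (px Φ t (surf η t x) + etax η t x * py Φ t (surf η t x)) x := by
  have h1 : ψ t = fun y => Φ t (surf η t y) := funext fun y => hw.trace t ht y
  have h2 := (hasFDerivAt_slice hw.regΦ ht (surf η t x))
  have h3 := h2.comp_hasDerivAt x (surf_x hc ht x)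
  rw [h1]
  refine h3.congr_deriv ?_
  rw [← h2.fderiv]
  have h4 : (1 + (etax η t x : ℂ) * I) = (1 : ℝ) • (1 : ℂ) + (etax η t x) • I := by
    simp
  rw [h4, map_add, map_smul, map_smul]
  simp [px, py]

/-- `ψ_x = W (1 + i η_x) + i G` -/
lemma psi_x_cast (hw : WaterWave g κ γ a b η ψ Φ q p) (hc : Coeff N a b η c0 c1 c2) {t : ℝ}
    (ht : t ∈ Ioo a b) (x : ℝ) :
    ((deriv (ψ t) x : ℝ) : ℂ) = Wt Φ (t, surf η t x) * (1 + I * etax η t x) + I * DN Φ η t x := by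
  rw [(psi_x hw hc ht x).deriv, ← vel_eq hw.regΦ ht]
  unfold vel DN px py
  push_cast
  ring_nf
  rw [I_sq]
  ring

end

end WW47
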