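import Pool.Agent.WW47.Line2

/-!
# The identity on the real line, continued
-/

open Complex Set Filter Topology

namespace WW47

/-- commuting second derivatives -/
lemma commute_derivs {f : ℝ × ℝ → ℝ} {P : ℝ × ℝ} (hf : ContDiffAt ℝ 2 f P) :
    fderiv ℝ (fderiv ℝ f) P (0, 1) (1, 0) = fderiv ℝ (fderiv ℝ f) P (1, 0) (0, 1) := by
  have := hf.isSymmSndFDerivAt (by simp)
  exact this (0, 1) (1, 0)

section

variable {g κ γ a b : ℝ} {η ψ : ℝ → ℝ → ℝ} {Φ : ℝ → ℂ → ℝ} {q : ℝ → ℝ → ℝ} {p : ℝ → ℝ}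
variable {N : ℕ} {c0 c1 c2 : ℝ → ℤ → ℂ}

/-- `ψ` is jointly `C²`. -/
lemma psi_C2 (hw : WaterWave g κ γ a b η ψ Φ q p) :
    ContDiffOn ℝ 2 (fun P : ℝ × ℝ => ψ P.1 P.2) (Ioo a b ×ˢ univ) := by
  have h1 : ContDiffOn ℝ 2 (fun P : ℝ × ℝ => (P.1, surf η P.1 P.2)) (Ioo a b ×ˢ univ) := by
    refine contDiffOn_fst.prodMk ?_
    unfold surf
    have h2 : ContDiffOn ℝ 2 (fun P : ℝ × ℝ => ((P.2 : ℝ) : ℂ)) (Ioo a b ×ˢ univ) :=
      Complex.ofRealCLM.contDiff.comp_contDiffOn contDiffOn_snd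
    have h3 : ContDiffOn ℝ 2 (fun P : ℝ × ℝ => ((η P.1 P.2 : ℝ) : ℂ)) (Ioo a b ×ˢ univ) :=
      Complex.ofRealCLM.contDiff.comp_contDiffOn hw.regη
    exact h2.add (h3.mul contDiffOn_const)
  have h2 : ContDiffOn ℝ 2 ((fun P : ℝ × ℂ => Φ P.1 P.2) ∘
      (fun P : ℝ × ℝ => (P.1, surf η P.1 P.2))) (Ioo a b ×ˢ univ) :=
    hw.regΦ.comp h1 (fun P hP => ⟨hP.1, mem_univ _⟩)
  refine h2.congr ?_
  intro P hP
  exact hw.trace P.1 hP.1 P.2

/-- The mixed derivative of `ψ`. -/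
lemma psi_mixed (hw : WaterWave g κ γ a b η ψ Φ q p) {t : ℝ} (ht : t ∈ Ioo a b) (x : ℝ)
    {m : ℝ} (hm : HasDerivAt (fun s => deriv (ψ s) x) m t) :
    HasDerivAt (fun y => deriv (fun s => ψ s y) t) m x := by
  set f : ℝ × ℝ → ℝ := fun P => ψ P.1 P.2 with hf
  have hC2 := psi_C2 hw
  have hopen := isOpen_domR a b
  have hAt : ∀ s ∈ Ioo a b, ∀ y, ContDiffAt ℝ 2 f (s, y) := fun s hs y =>
    hC2.contDiffAt (hopen.mem_nhds ⟨hs, mem_univ _⟩)
  have hdiff : ∀ s ∈ Ioo a b, ∀ y, DifferentiableAt ℝ f (s, y) := fun s hs y =>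
    (hAt s hs y).differentiableAt (by norm_num)
  have hx : ∀ s ∈ Ioo a b, ∀ y, deriv (ψ s) y = fderiv ℝ f (s, y) (0, 1) := by
    intro s hs y
    have h1 := ((hdiff s hs y).hasFDerivAt.comp y (hasFDerivAt_prodMk_right s y)).hasDerivAt
    have h2 : HasDerivAt (ψ s) (fderiv ℝ f (s, y) (0, 1)) y := by
      simpa [hf, Function.comp_def] using! h1
    exact h2.deriv
  have htd : ∀ s ∈ Ioo a b, ∀ y, deriv (fun s => ψ s y) s = fderiv ℝ f (s, y) (1, 0) := by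
    intro s hs y
    have h1 := ((hdiff s hs y).hasFDerivAt.comp s (hasFDerivAt_prodMk_left s y)).hasDerivAt
    have h2 : HasDerivAt (fun s => ψ s y) (fderiv ℝ f (s, y) (1, 0)) s := by
      simpa [hf, Function.comp_def] using! h1
    exact h2.deriv
  have hfd : ∀ s ∈ Ioo a b, ∀ y, DifferentiableAt ℝ (fderiv ℝ f) (s, y) := fun s hs y =>
    ((hAt s hs y).fderiv_right (m := 1) (by norm_num)).differentiableAt (by norm_num)
  -- derivative in `x` of the time derivative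
  have h1 : HasDerivAt (fun y => fderiv ℝ f (t, y) (1, 0))
      (fderiv ℝ (fderiv ℝ f) (t, x) (0, 1) (1, 0)) x := by
    have h2 := (hfd t ht x).hasFDerivAt.comp x (hasFDerivAt_prodMk_right t x)
    have h3 := (h2.clm_apply (hasFDerivAt_const ((1 : ℝ), (0 : ℝ)) x)).hasDerivAt
    simpa [Function.comp_def] using! h3
  have h2 : HasDerivAt (fun s => fderiv ℝ f (s, x) (0, 1))
      (fderiv ℝ (fderiv ℝ f) (t, x) (1, 0) (0, 1)) t := by
    have h2 := HasFDerivAt.comp (g := fderiv ℝ f) (f := fun s : ℝ => (s, x)) t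
      (hfd t ht x).hasFDerivAt (hasFDerivAt_prodMk_left t x)
    have h3 := (h2.clm_apply (hasFDerivAt_const ((0 : ℝ), (1 : ℝ)) t)).hasDerivAt
    simpa [Function.comp_def] using! h3
  have h3 : HasDerivAt (fun s => deriv (ψ s) x)
      (fderiv ℝ (fderiv ℝ f) (t, x) (1, 0) (0, 1)) t := by
    refine h2.congr_of_eventuallyEq ?_
    filter_upwards [isOpen_Ioo.mem_nhds ht] with s hs using hx s hs x
  have h4 : m = fderiv ℝ (fderiv ℝ f) (t, x) (1, 0) (0, 1) := hm.unique h3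
  rw [h4, ← commute_derivs (hAt t ht x)]
  have h5 : (fun y => deriv (fun s => ψ s y) t) = fun y => fderiv ℝ f (t, y) (1, 0) :=
    funext fun y => htd t ht y
  rw [h5]
  exact h1

end

end WW47
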