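import Pool.Agent.WW47.Line3

/-!
# The identity on the real line, conclusion
-/

open Complex Set Filter Topology

namespace WW47

section

variable {g κ γ a b : ℝ} {η ψ : ℝ → ℝ → ℝ} {Φ : ℝ → ℂ → ℝ} {q : ℝ → ℝ → ℝ} {p : ℝ → ℝ}
variable {N : ℕ} {c0 c1 c2 : ℝ → ℤ → ℂ}

lemma etax_cast (hc : Coeff N a b η c0 c1 c2) {t : ℝ} (ht : t ∈ Ioo a b) (x : ℝ) :
    ((etax η t x : ℝ) : ℂ) = tp N (Dc (c0 t)) x := by
  rw [etax_eq hc ht, tpR_cast (hc.real0 t ht).Dc]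

lemma DN_cast (hw : WaterWave g κ γ a b η ψ Φ q p) (hc : Coeff N a b η c0 c1 c2) {t : ℝ}
    (ht : t ∈ Ioo a b) (x : ℝ) :
    ((DN Φ η t x : ℝ) : ℂ)
      = Gp γ (tp N (c0 t) x) (tp N (Dc (c0 t)) x) (tp N (c1 t) x) := by
  rw [DN_eq hw hc ht]
  push_cast
  rw [tpR_cast (hc.real0 t ht).Dc, tpR_cast (hc.real0 t ht), tpR_cast (hc.real1 t ht)]
  rfl

/-- value of the surface point -/
lemma surf_cast (hc : Coeff N a b η c0 c1 c2) {t : ℝ} (ht : t ∈ Ioo a b) (x : ℝ) :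
    surf η t x = ZZ N (c0 t) x := by
  unfold surf ZZ
  rw [hc.rep t ht x]
  ring

lemma surf_im_re (t x : ℝ) : (surf η t x).im = η t (surf η t x).re := by
  unfold surf
  simp

/-- complex derivative of a `tp` restricted to the real line -/
lemma hasDerivAt_tp_line (N : ℕ) (c : ℤ → ℂ) (x : ℝ) :
    HasDerivAt (fun y : ℝ => tp N c (y : ℂ)) (tp N (Dc c) x) x :=
  (hasDerivAt_tp N c (x : ℂ)).comp_ofReal

/-- `ψ_xx` -/
noncomputable def axf (γ : ℝ) (N : ℕ) (Φ : ℝ → ℂ → ℝ) (t : ℝ) (c e : ℤ → ℂ) (x : ℂ) : ℂ :=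
  W1 Φ t (ZZ N c x) * (1 + I * tp N (Dc c) x) ^ 2
    + Wt Φ (t, ZZ N c x) * (I * tp N (Dc (Dc c)) x)
    + I * Gxp γ (tp N c x) (tp N (Dc c) x) (tp N (Dc (Dc c)) x) (tp N (Dc e) x)

/-- `ψ_xt` -/
noncomputable def atf (γ : ℝ) (N : ℕ) (Φ : ℝ → ℂ → ℝ) (t : ℝ) (c e d : ℤ → ℂ) (x : ℂ) : ℂ :=
  (W2 Φ t (ZZ N c x) + W1 Φ t (ZZ N c x) * (I * tp N e x)) * (1 + I * tp N (Dc c) x)
    + Wt Φ (t, ZZ N c x) * (I * tp N (Dc e) x)
    + I * Gtp γ (tp N c x) (tp N (Dc c) x) (tp N e x) (tp N (Dc e) x) (tp N d x)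

/-- `ψ_x` -/
noncomputable def af (γ : ℝ) (N : ℕ) (Φ : ℝ → ℂ → ℝ) (t : ℝ) (c e : ℤ → ℂ) (x : ℂ) : ℂ :=
  Wt Φ (t, ZZ N c x) * (1 + I * tp N (Dc c) x)
    + I * Gp γ (tp N c x) (tp N (Dc c) x) (tp N e x)

lemma af_eq (hw : WaterWave g κ γ a b η ψ Φ q p) (hc : Coeff N a b η c0 c1 c2) {t : ℝ}
    (ht : t ∈ Ioo a b) (x : ℝ) :
    ((deriv (ψ t) x : ℝ) : ℂ) = af γ N Φ t (c0 t) (c1 t) x := by
  rw [psi_x_cast hw hc ht, etax_cast hc ht, DN_cast hw hc ht, surf_cast hc ht]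
  rfl

lemma deriv_ax (hw : WaterWave g κ γ a b η ψ Φ q p) (hc : Coeff N a b η c0 c1 c2) {t : ℝ}
    (ht : t ∈ Ioo a b) (x : ℝ) :
    HasDerivAt (fun y : ℝ => ((deriv (ψ t) y : ℝ) : ℂ)) (axf γ N Φ t (c0 t) (c1 t) x) x := by
  have h1 : (fun y : ℝ => ((deriv (ψ t) y : ℝ) : ℂ))
      = fun y : ℝ => Wt Φ (t, surf η t y) * (1 + I * tp N (Dc (c0 t)) y)
        + I * Gp γ (tp N (c0 t) y) (tp N (Dc (c0 t)) y) (tp N (c1 t) y) := by
    funext y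
    rw [psi_x_cast hw hc ht, etax_cast hc ht, DN_cast hw hc ht]
  rw [h1]
  have h2 : HasDerivAt (fun y : ℝ => Wt Φ (t, surf η t y))
      (W1 Φ t (surf η t x) * (1 + tp N (Dc (c0 t)) x * I)) x := by
    have h3 := (hasFDerivAt_space hw.regΦ ht (surf η t x)).comp_hasDerivAt x (surf_x hc ht x)
    refine h3.congr_deriv ?_
    rw [ContinuousLinearMap.comp_apply, ContinuousLinearMap.inr_apply,
      CR_surf hw ht (surf_im_re t x).le, etax_cast hc ht]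
  have h4 := hasDerivAt_tp_line N (c0 t) x
  have h5 := hasDerivAt_tp_line N (Dc (c0 t)) x
  have h6 := hasDerivAt_tp_line N (c1 t) x
  have h7 := (h2.mul ((h5.const_mul I).const_add 1)).add
    ((h6.sub ((h4.mul h5).const_mul (γ : ℂ))).const_mul I)
  refine h7.congr_deriv ?_
  unfold axf Gxp
  rw [surf_cast hc ht]
  ring

lemma deriv_at (hw : WaterWave g κ γ a b η ψ Φ q p) (hc : Coeff N a b η c0 c1 c2) {t : ℝ}
    (ht : t ∈ Ioo a b) (x : ℝ) :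
    HasDerivAt (fun s : ℝ => ((deriv (ψ s) x : ℝ) : ℂ))
      (atf γ N Φ t (c0 t) (c1 t) (c2 t) x) t := by
  have h1 : (fun s : ℝ => ((deriv (ψ s) x : ℝ) : ℂ))
      =ᶠ[𝓝 t] fun s : ℝ => Wt Φ (s, surf η s x) * (1 + I * tp N (Dc (c0 s)) x)
        + I * Gp γ (tp N (c0 s) x) (tp N (Dc (c0 s)) x) (tp N (c1 s) x) := by
    filter_upwards [isOpen_Ioo.mem_nhds ht] with s hs
    rw [psi_x_cast hw hc hs, etax_cast hc hs, DN_cast hw hc hs]
  refine HasDerivAt.congr_of_eventuallyEq ?_ h1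
  have hsurf : HasDerivAt (fun s => surf η s x) (tp N (c1 t) x * I) t := by
    unfold surf
    have h2 := ((etat hc ht x).ofReal_comp.mul_const I).const_add (x : ℂ)
    rw [tpR_cast (hc.real1 t ht)] at h2
    exact h2
  have h2 : HasDerivAt (fun s : ℝ => Wt Φ (s, surf η s x))
      (W2 Φ t (surf η t x) + W1 Φ t (surf η t x) * (tp N (c1 t) x * I)) t := by
    have h3 := (Wt_differentiableAt hw.regΦ ht (surf η t x)).hasFDerivAt
    have h4 : HasDerivAt (fun s : ℝ => (s, surf η s x)) ((1 : ℝ), tp N (c1 t) x * I) t :=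
      (hasDerivAt_id t).prodMk hsurf
    have h5 := h3.comp_hasDerivAt t h4
    refine h5.congr_deriv ?_
    have h6 : (((1 : ℝ), tp N (c1 t) x * I) : ℝ × ℂ) = (1, 0) + (0, tp N (c1 t) x * I) := by
      simp
    rw [h6, map_add, CR_surf hw ht (surf_im_re t x).le]
    rfl
  have h4 := hasDerivAt_tp_time (hc.der0 t ht) N (x : ℂ)
  have h5 := hasDerivAt_tp_time (der_Dc (hc.der0 t ht)) N (x : ℂ)
  have h6 := hasDerivAt_tp_time (hc.der1 t ht) N (x : ℂ)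
  have h7 := (h2.mul ((h5.const_mul I).const_add 1)).add
    ((h6.sub ((h4.mul h5).const_mul (γ : ℂ))).const_mul I)
  refine h7.congr_deriv ?_
  unfold atf Gtp
  rw [surf_cast hc ht]
  ring

/-- **The identity on the real line.** -/
theorem line_identity (hw : WaterWave g κ γ a b η ψ Φ q p) (hc : Coeff N a b η c0 c1 c2) {t : ℝ}
    (ht : t ∈ Ioo a b) (x : ℝ) :
    Jp g γ (tp N (c0 t) x) (tp N (Dc (c0 t)) x) (tp N (Dc (Dc (c0 t))) x)
        (Gp γ (tp N (c0 t) x) (tp N (Dc (c0 t)) x) (tp N (c1 t) x))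
        (Gxp γ (tp N (c0 t) x) (tp N (Dc (c0 t)) x) (tp N (Dc (Dc (c0 t))) x)
          (tp N (Dc (c1 t)) x))
        (af γ N Φ t (c0 t) (c1 t) x) (axf γ N Φ t (c0 t) (c1 t) x)
        (atf γ N Φ t (c0 t) (c1 t) (c2 t) x) ^ 2
      * (1 + (tp N (Dc (c0 t)) x) ^ 2)
      = 4 * κ ^ 2 * (Kp (tp N (Dc (c0 t)) x) (tp N (Dc (Dc (c0 t))) x)
          (tp N (Dc (Dc (Dc (c0 t)))) x)) ^ 2 := by
  have hr0 := hc.real0 t ht
  have hr1 := hc.real1 t ht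
  have hr2 := hc.real2 t ht
  have d0 : ∀ x, HasDerivAt (η t) (etax η t x) x := fun x => by
    rw [etax_eq hc ht, eta_eq hc ht]
    exact hasDerivAt_tpR N (c0 t) x
  have d1 : ∀ x, HasDerivAt (etax η t) (tpR N (Dc (Dc (c0 t))) x) x := fun x => by
    have : etax η t = tpR N (Dc (c0 t)) := funext fun y => etax_eq hc ht y
    rw [this]
    exact hasDerivAt_tpR N (Dc (c0 t)) x
  have d2 := hasDerivAt_tpR N (Dc (Dc (c0 t)))
  have dG : ∀ x, HasDerivAt (DN Φ η t) (tpR N (Dc (c1 t)) x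
      - γ * (tpR N (Dc (c0 t)) x * tpR N (Dc (c0 t)) x
        + tpR N (c0 t) x * tpR N (Dc (Dc (c0 t))) x)) x := fun x => by
    have : DN Φ η t = fun x => tpR N (c1 t) x - γ * (tpR N (c0 t) x * tpR N (Dc (c0 t)) x) :=
      funext fun y => DN_eq hw hc ht y
    rw [this]
    exact (hasDerivAt_tpR N (c1 t) x).sub
      (((hasDerivAt_tpR N (c0 t) x).mul (hasDerivAt_tpR N (Dc (c0 t)) x)).const_mul γ)
  have ds := fun x => real_of_cast (deriv_ax hw hc ht x)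
  have dP' := fun x => real_of_cast (deriv_at hw hc ht x)
  have dP : ∀ x : ℝ, HasDerivAt (fun y => deriv (fun s => ψ s y) t)
      (atf γ N Φ t (c0 t) (c1 t) (c2 t) x).re x := fun x =>
    psi_mixed hw ht x (dP' x).1
  have key := bernoulli_real d0 d1 d2 dG (fun x => (ds x).1) dP (hw.derq t ht) (hw.dyn t ht) x
  have e1 : ((Jr g γ (η t x) (etax η t x) (tpR N (Dc (Dc (c0 t))) x) (DN Φ η t x)
      (tpR N (Dc (c1 t)) x - γ * (tpR N (Dc (c0 t)) x * tpR N (Dc (c0 t)) x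
        + tpR N (c0 t) x * tpR N (Dc (Dc (c0 t))) x)) (deriv (ψ t) x)
      (axf γ N Φ t (c0 t) (c1 t) x).re (atf γ N Φ t (c0 t) (c1 t) (c2 t) x).re : ℝ) : ℂ)
      = Jp g γ (tp N (c0 t) x) (tp N (Dc (c0 t)) x) (tp N (Dc (Dc (c0 t))) x)
        (Gp γ (tp N (c0 t) x) (tp N (Dc (c0 t)) x) (tp N (c1 t) x))
        (Gxp γ (tp N (c0 t) x) (tp N (Dc (c0 t)) x) (tp N (Dc (Dc (c0 t))) x)
          (tp N (Dc (c1 t)) x))
        (af γ N Φ t (c0 t) (c1 t) x) (axf γ N Φ t (c0 t) (c1 t) x)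
        (atf γ N Φ t (c0 t) (c1 t) (c2 t) x) := by
    have f1 : (((axf γ N Φ t (c0 t) (c1 t) x).re : ℝ) : ℂ) = axf γ N Φ t (c0 t) (c1 t) x := by
      apply Complex.ext
      · simp
      · simp [(ds x).2]
    have f2 : (((atf γ N Φ t (c0 t) (c1 t) (c2 t) x).re : ℝ) : ℂ)
        = atf γ N Φ t (c0 t) (c1 t) (c2 t) x := by
      apply Complex.ext
      · simp
      · simp [(dP' x).2]
    unfold Jr Jp
    push_cast
    rw [f1, f2, af_eq hw hc ht, DN_cast hw hc ht, etax_cast hc ht, hc.rep t ht, tpR_cast hr0,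
      tpR_cast hr0.Dc, tpR_cast hr0.Dc.Dc, tpR_cast hr1.Dc]
    rfl
  have e2 : ((Kr (etax η t x) (tpR N (Dc (Dc (c0 t))) x) (tpR N (Dc (Dc (Dc (c0 t)))) x) : ℝ) : ℂ)
      = Kp (tp N (Dc (c0 t)) x) (tp N (Dc (Dc (c0 t))) x) (tp N (Dc (Dc (Dc (c0 t)))) x) := by
    unfold Kr Kp
    push_cast
    rw [etax_cast hc ht, tpR_cast hr0.Dc.Dc, tpR_cast hr0.Dc.Dc.Dc]
  rw [← e1, ← e2, ← etax_cast hc ht]
  exact_mod_cast key

end

end WW47
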