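import Pool.Agent.WW47.Assembly2
import Pool.Agent.WW47.Algebra
import Pool.Agent.WW47.Flat

/-!
# No wave in infinite depth has a band-limited surface
-/

open Complex Set Filter Topology

namespace WW47

theorem noWave {g κ γ : ℝ} (hg : 0 < g) (η ψ : ℝ → ℝ → ℝ) (Φ : ℝ → ℂ → ℝ) (q : ℝ → ℝ → ℝ)
    (p : ℝ → ℝ) : NoWave g κ γ η ψ Φ q p := by
  intro a b N c0 c1 c2 t hw hc hN ht hcN
  refine algebra N hN (c0 t) (c1 t) (c2 t) (hc.real0 t ht) (hc.real1 t ht) (hc.real2 t ht) hcN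
    g κ γ hg fun x => ?_
  have := QQ_zero hw hc ht hN hcN x
  unfold QQ at this
  exact sub_eq_zero.mp this

theorem main {g κ γ a b : ℝ} (hg : 0 < g) {η ψ : ℝ → ℝ → ℝ} {Φ : ℝ → ℂ → ℝ} {q : ℝ → ℝ → ℝ}
    {p : ℝ → ℝ} (hw : WaterWave g κ γ a b η ψ Φ q p)
    (h : ∀ t ∈ Ioo a b, ∃ (N : ℕ) (c : ℤ → ℂ), ∀ x : ℝ, (η t x : ℂ) = tp N c x) :
    ∃ h0 : ℝ, ∀ t ∈ Ioo a b, (∀ x, η t x = h0) ∧ (∀ x, deriv (ψ t) x = 0) ∧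
      ∀ z : ℂ, z.im < h0 → px Φ t z = 0 ∧ py Φ t z = 0 :=
  rest hw (noWave hg η ψ Φ q p) h

end WW47
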