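import Pool.Agent.WW47.Line4

/-!
# Near the real line the complexified surface curve is inside the fluid
-/

open Complex Set Filter Topology

namespace WW47

/-- `η(Re Z) - Im Z` along vertical lines -/
noncomputable def gapf (N : ℕ) (c : ℤ → ℂ) (x s : ℝ) : ℝ :=
  tpR N c (ZZ N c (x - s * I)).re - (ZZ N c (x - s * I)).im

noncomputable def gapd (N : ℕ) (c : ℤ → ℂ) (x s : ℝ) : ℝ :=
  tpR N (Dc c) (ZZ N c (x - s * I)).re * (tp N (Dc c) (x - s * I)).re
    + 1 - (tp N (Dc c) (x - s * I)).im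

lemma hasDerivAt_ZZ (N : ℕ) (c : ℤ → ℂ) (x : ℂ) :
    HasDerivAt (ZZ N c) (1 + I * tp N (Dc c) x) x :=
  (hasDerivAt_id x).add ((hasDerivAt_tp N c x).const_mul I)

lemma hasDerivAt_gapf (N : ℕ) (c : ℤ → ℂ) (x s : ℝ) :
    HasDerivAt (gapf N c x) (gapd N c x s) s := by
  have h1 : HasDerivAt (fun u : ℝ => (x : ℂ) - u * I) (-I) s := by
    have := ((hasDerivAt_id s).ofReal_comp.mul_const I).const_sub (x : ℂ)
    simpa using this
  have h2 : HasDerivAt (fun u : ℝ => ZZ N c (x - u * I))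
      ((1 + I * tp N (Dc c) (x - s * I)) * -I) s := by
    have := (hasDerivAt_ZZ N c ((x : ℂ) - s * I)).scomp s h1
    refine this.congr_deriv ?_
    rw [smul_eq_mul]
    ring
  have h3 : (1 + I * tp N (Dc c) (x - s * I)) * -I = tp N (Dc c) (x - s * I) - I := by
    ring_nf
    rw [I_sq]
    ring
  rw [h3] at h2
  have h4 : HasDerivAt (fun u : ℝ => (ZZ N c (x - u * I)).re) (tp N (Dc c) (x - s * I)).re s := by
    have := reCLM.hasFDerivAt.comp_hasDerivAt s h2
    simpa [Function.comp_def] using this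
  have h5 : HasDerivAt (fun u : ℝ => (ZZ N c (x - u * I)).im)
      ((tp N (Dc c) (x - s * I)).im - 1) s := by
    have := imCLM.hasFDerivAt.comp_hasDerivAt s h2
    simpa [Function.comp_def] using this
  have h6 : HasDerivAt (fun u : ℝ => tpR N c (ZZ N c (x - u * I)).re)
      (tpR N (Dc c) (ZZ N c (x - s * I)).re * (tp N (Dc c) (x - s * I)).re) s :=
    (hasDerivAt_tpR N c _).comp s h4
  refine (h6.sub h5).congr_deriv ?_
  unfold gapd
  ring

lemma tpR_cont (N : ℕ) (c : ℤ → ℂ) : Continuous (tpR N c) := by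
  unfold tpR
  exact continuous_re.comp ((continuous_tp N c).comp continuous_ofReal)

lemma tpR_per (N : ℕ) (c : ℤ → ℂ) (x : ℝ) : tpR N c (x + 2 * Real.pi) = tpR N c x := by
  unfold tpR
  push_cast
  rw [tp_add_two_pi]

lemma ZZ_per (N : ℕ) (c : ℤ → ℂ) (x : ℂ) : ZZ N c (x + 2 * Real.pi) = ZZ N c x + 2 * Real.pi := by
  unfold ZZ
  rw [tp_add_two_pi]
  ring

lemma gapd_cont (N : ℕ) (c : ℤ → ℂ) : Continuous fun P : ℝ × ℝ => gapd N c P.2 P.1 := by
  have h0 : Continuous fun P : ℝ × ℝ => ((P.2 : ℂ) - P.1 * I) := by fun_prop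
  have h1 : Continuous fun P : ℝ × ℝ => tp N (Dc c) ((P.2 : ℂ) - P.1 * I) :=
    (continuous_tp N _).comp h0
  have h2 : Continuous fun P : ℝ × ℝ => ZZ N c ((P.2 : ℂ) - P.1 * I) :=
    (continuous_ZZ N _).comp h0
  unfold gapd
  exact ((((tpR_cont N (Dc c)).comp (continuous_re.comp h2)).mul (continuous_re.comp h1)).add
    continuous_const).sub (continuous_im.comp h1)

lemma gapd_per (N : ℕ) (c : ℤ → ℂ) (s x : ℝ) :
    gapd N c (x + 2 * Real.pi) s = gapd N c x s := by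
  have h : (((x + 2 * Real.pi : ℝ) : ℂ) - s * I) = ((x : ℂ) - s * I) + 2 * Real.pi := by
    push_cast; ring
  unfold gapd
  rw [h, tp_add_two_pi, ZZ_per]
  have h2 : (ZZ N c ((x : ℂ) - s * I) + 2 * Real.pi).re
      = (ZZ N c ((x : ℂ) - s * I)).re + 2 * Real.pi := by simp
  rw [h2, tpR_per]

lemma gapd_zero (N : ℕ) {c : ℤ → ℂ} (hc : RealC c) (x : ℝ) : 0 < gapd N c x 0 := by
  unfold gapd
  have h0 : ((x : ℂ) - (0 : ℝ) * I) = x := by simp
  rw [h0, tp_real_im N _ hc.Dc]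
  have h1 : (ZZ N c x).re = x := by
    unfold ZZ
    simp [tp_real_im N c hc]
  rw [h1]
  have : (tp N (Dc c) x).re = tpR N (Dc c) x := rfl
  rw [this]
  nlinarith [sq_nonneg (tpR N (Dc c) x)]

lemma gapf_zero (N : ℕ) {c : ℤ → ℂ} (hc : RealC c) (x : ℝ) : gapf N c x 0 = 0 := by
  unfold gapf
  have h0 : ((x : ℂ) - (0 : ℝ) * I) = x := by simp
  rw [h0]
  have h1 : (ZZ N c x).re = x := by
    unfold ZZ
    simp [tp_real_im N c hc]
  have h2 : (ZZ N c x).im = tpR N c x := by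
    unfold ZZ tpR
    simp
  rw [h1, h2]
  ring

theorem near_line (N : ℕ) {c : ℤ → ℂ} (hc : RealC c) :
    ∃ δ > 0, ∀ x : ℂ, -δ < x.im → x.im < 0 → (ZZ N c x).im < tpR N c (ZZ N c x).re := by
  set n : Set (ℝ × ℝ) := {P | 0 < gapd N c P.2 P.1} with hn
  have hno : IsOpen n := isOpen_lt continuous_const (gapd_cont N c)
  have hsub : ({0} : Set ℝ) ×ˢ Icc 0 (2 * Real.pi) ⊆ n := by
    rintro ⟨s, x⟩ ⟨hs, _⟩
    have hs' : s = 0 := hs
    subst hs'
    exact gapd_zero N hc x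
  obtain ⟨u, v, hu, hv, hsu, hxv, huv⟩ :=
    generalized_tube_lemma isCompact_singleton isCompact_Icc hno hsub
  obtain ⟨r, hr, hru⟩ := Metric.isOpen_iff.mp hu 0 (hsu rfl)
  have hpos : ∀ s : ℝ, |s| < r → ∀ x : ℝ, 0 < gapd N c x s := by
    intro s hs x
    obtain ⟨y, hy, hxy⟩ := real_reduce (f := fun x => gapd N c x s) (gapd_per N c s) x
    have hxy' : gapd N c x s = gapd N c y s := hxy
    have hsu : s ∈ u := hru (by rw [Metric.mem_ball, Real.dist_eq, sub_zero]; exact hs)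
    have hmem : ((s, y) : ℝ × ℝ) ∈ n := huv (Set.mk_mem_prod hsu (hxv hy))
    rw [hn, mem_ofPred_eq] at hmem
    rw [hxy']
    exact hmem
  refine ⟨r, hr, fun x h1 h2 => ?_⟩
  have hx : x = ((x.re : ℝ) : ℂ) - ((-x.im : ℝ) : ℂ) * I := by
    apply Complex.ext <;> simp
  have hmono : StrictMonoOn (gapf N c x.re) (Icc 0 (-x.im)) := by
    refine strictMonoOn_of_deriv_pos (convex_Icc _ _) ?_ ?_
    · exact fun s _ => (hasDerivAt_gapf N c x.re s).continuousAt.continuousWithinAt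
    · intro s hs
      rw [interior_Icc] at hs
      rw [(hasDerivAt_gapf N c x.re s).deriv]
      apply hpos
      rw [abs_lt]
      constructor <;> linarith [hs.1, hs.2]
  have h3 := hmono (left_mem_Icc.mpr (by linarith)) (right_mem_Icc.mpr (by linarith))
    (by linarith : (0 : ℝ) < -x.im)
  rw [gapf_zero N hc] at h3
  unfold gapf at h3
  rw [← hx] at h3
  linarith

end WW47
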