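import Pool.Agent.WW47.Base

/-!
# Module M3: boundary uniqueness in a strip, and boundedness of periodic functions
-/

open Complex Set Filter Topology

namespace WW47

lemma per_int {g : ℂ → ℂ} (hper : ∀ z, g (z + 2 * Real.pi) = g z) (n : ℤ) (z : ℂ) :
    g (z + n * (2 * Real.pi)) = g z := by
  have h : Function.Periodic g (2 * Real.pi : ℂ) := hper
  exact (h.int_mul n) z

lemma exists_reduced (z : ℂ) : ∃ n : ℤ, ∃ w : ℂ, z = w + n * (2 * Real.pi) ∧ w.im = z.im ∧
    0 ≤ w.re ∧ w.re ≤ 2 * Real.pi := by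
  have hp : (0 : ℝ) < 2 * Real.pi := by positivity
  refine ⟨⌊z.re / (2 * Real.pi)⌋, z - ⌊z.re / (2 * Real.pi)⌋ * (2 * Real.pi), by ring, ?_, ?_, ?_⟩
  · simp
  · have h1 := Int.floor_le (z.re / (2 * Real.pi))
    have h2 : (⌊z.re / (2 * Real.pi)⌋ : ℝ) * (2 * Real.pi) ≤ z.re := by
      calc _ ≤ z.re / (2 * Real.pi) * (2 * Real.pi) := by gcongr
        _ = z.re := by field_simp
    simp
    linarith
  · have h1 := Int.lt_floor_add_one (z.re / (2 * Real.pi))
    have h2 : z.re < ((⌊z.re / (2 * Real.pi)⌋ : ℝ) + 1) * (2 * Real.pi) := by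
      calc z.re = z.re / (2 * Real.pi) * (2 * Real.pi) := by field_simp
        _ < _ := by gcongr
    simp
    linarith

lemma bdd_of_periodic {g : ℂ → ℂ} (hper : ∀ z, g (z + 2 * Real.pi) = g z) {a b : ℝ}
    (hcont : ContinuousOn g {z | a ≤ z.im ∧ z.im ≤ b}) :
    ∃ B : ℝ, ∀ z : ℂ, a ≤ z.im → z.im ≤ b → ‖g z‖ ≤ B := by
  have hK : IsCompact (Icc (0 : ℝ) (2 * Real.pi) ×ℂ Icc a b) := isCompact_Icc.reProdIm isCompact_Icc
  have hsub : (Icc (0 : ℝ) (2 * Real.pi) ×ℂ Icc a b) ⊆ {z : ℂ | a ≤ z.im ∧ z.im ≤ b} := by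
    intro z hz
    exact (mem_reProdIm.mp hz).2
  obtain ⟨B, hB⟩ := hK.exists_bound_of_continuousOn (hcont.mono hsub)
  refine ⟨B, fun z h1 h2 => ?_⟩
  obtain ⟨n, w, hzw, him, h0, h2p⟩ := exists_reduced z
  rw [hzw, per_int hper]
  exact hB w (mem_reProdIm.mpr ⟨⟨h0, h2p⟩, ⟨him ▸ h1, him ▸ h2⟩⟩)

theorem bdry {g : ℂ → ℂ} {δ : ℝ} (hδ : 0 < δ) (hper : ∀ z, g (z + 2 * Real.pi) = g z)
    (hcont : ContinuousOn g {z | -δ ≤ z.im ∧ z.im ≤ 0})
    (hd : DifferentiableOn ℂ g {z | -δ < z.im ∧ z.im < 0})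
    (h0 : ∀ x : ℝ, g x = 0) : ∀ z : ℂ, -δ < z.im → z.im ≤ 0 → g z = 0 := by
  obtain ⟨B, hB⟩ := bdd_of_periodic hper hcont
  set F : ℂ → ℂ := fun w => g (-(I * δ) * w) with hF
  have him : ∀ w : ℂ, (-(I * δ) * w).im = -δ * w.re := by
    intro w; simp
  have hmaps : ∀ w ∈ Complex.HadamardThreeLines.verticalClosedStrip 0 1,
      -δ ≤ (-(I * δ) * w).im ∧ (-(I * δ) * w).im ≤ 0 := by
    intro w hw
    have h1 : 0 ≤ w.re := hw.1
    have h2 : w.re ≤ 1 := hw.2
    rw [him]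
    constructor <;> nlinarith
  have hclos : closure (Complex.HadamardThreeLines.verticalStrip 0 1) ⊆
      Complex.HadamardThreeLines.verticalClosedStrip 0 1 := by
    refine closure_minimal ?_ ?_
    · exact preimage_mono Ioo_subset_Icc_self
    · exact isClosed_Icc.preimage continuous_re
  have hdc : DiffContOnCl ℂ F (Complex.HadamardThreeLines.verticalStrip 0 1) := by
    refine ⟨?_, ?_⟩
    · refine hd.comp (by fun_prop) ?_
      intro w hw
      have h1 : 0 < w.re := hw.1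
      have h2 : w.re < 1 := hw.2
      show -δ < (-(I * δ) * w).im ∧ (-(I * δ) * w).im < 0
      rw [him]
      constructor <;> nlinarith
    · refine hcont.comp (by fun_prop) ?_
      intro w hw
      exact hmaps w (hclos hw)
  have hBdd : BddAbove ((norm ∘ F) '' Complex.HadamardThreeLines.verticalClosedStrip 0 1) := by
    refine ⟨B, ?_⟩
    rintro _ ⟨w, hw, rfl⟩
    exact hB _ (hmaps w hw).1 (hmaps w hw).2
  have ha : ∀ w ∈ re ⁻¹' ({0} : Set ℝ), ‖F w‖ ≤ 0 := by
    intro w hw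
    have hw0 : w.re = 0 := hw
    have : -(I * δ) * w = ((δ * w.im : ℝ) : ℂ) := by
      apply Complex.ext <;> simp [hw0]
    simp only [hF]
    rw [this, h0]
    simp
  have hb : ∀ w ∈ re ⁻¹' ({1} : Set ℝ), ‖F w‖ ≤ B := by
    intro w hw
    have hw1 : w.re = 1 := hw
    have hw' : w ∈ Complex.HadamardThreeLines.verticalClosedStrip 0 1 := by
      show w.re ∈ Icc (0 : ℝ) 1
      rw [hw1]; simp
    exact hB _ (hmaps w hw').1 (hmaps w hw').2
  intro z hz1 hz2
  have hδ' : (δ : ℂ) ≠ 0 := by exact_mod_cast hδ.ne'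
  set w : ℂ := I * z / δ with hw
  have hwre : w.re = -z.im / δ := by
    simp [hw]
  have hzw : -(I * δ) * w = z := by
    rw [hw]
    field_simp
    ring_nf
    simp
  have hw01 : w ∈ Complex.HadamardThreeLines.verticalClosedStrip 0 1 := by
    show w.re ∈ Icc (0 : ℝ) 1
    rw [hwre]
    constructor
    · apply div_nonneg _ hδ.le; linarith
    · rw [div_le_one hδ]; linarith
  have hlt : w.re < 1 := by
    rw [hwre, div_lt_one hδ]; linarith
  have key := Complex.HadamardThreeLines.norm_le_interp_of_mem_verticalClosedStrip₀₁' F hw01 hdc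
    hBdd ha hb
  rw [Real.zero_rpow (by linarith : (1 - w.re) ≠ 0), zero_mul] at key
  have h3 : F w = 0 := by simpa using key
  have h4 : F w = g z := by simp only [hF]; rw [hzw]
  rw [← h4]; exact h3

end WW47
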