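import Pool.Agent.WW47.Base

/-!
# The algebra of trigonometric polynomials (as entire functions)
-/

open Complex Filter Topology

namespace WW47

/-- `e^{ikx}` -/
noncomputable def ek (k : ℤ) : ℂ → ℂ := fun x => exp (I * k * x)

lemma ek_mul (k l : ℤ) : ek k * ek l = ek (k + l) := by
  funext x
  simp only [ek, Pi.mul_apply]
  rw [← exp_add]
  congr 1
  push_cast
  ring

lemma ek_zero : ek 0 = 1 := by
  funext x; simp [ek]

/-- The algebra of trigonometric polynomials. -/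
noncomputable def TPA : Subalgebra ℂ (ℂ → ℂ) :=
  (Submodule.span ℂ (Set.range ek)).toSubalgebra
    (by rw [← ek_zero]; exact Submodule.subset_span ⟨0, rfl⟩)
    (by
      intro f g hf hg
      induction hf using Submodule.span_induction with
      | mem f hf =>
        obtain ⟨k, rfl⟩ := hf
        induction hg using Submodule.span_induction with
        | mem g hg =>
          obtain ⟨l, rfl⟩ := hg
          rw [ek_mul]; exact Submodule.subset_span ⟨_, rfl⟩
        | zero => rw [mul_zero]; exact Submodule.zero_mem _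
        | add g1 g2 _ _ h1 h2 => rw [mul_add]; exact Submodule.add_mem _ h1 h2
        | smul a g1 _ h1 => rw [mul_smul_comm]; exact Submodule.smul_mem _ _ h1
      | zero => rw [zero_mul]; exact Submodule.zero_mem _
      | add f1 f2 _ _ h1 h2 => rw [add_mul]; exact Submodule.add_mem _ h1 h2
      | smul a f1 _ h1 => rw [smul_mul_assoc]; exact Submodule.smul_mem _ _ h1)

lemma mem_TPA_iff_span (f : ℂ → ℂ) : f ∈ TPA ↔ f ∈ Submodule.span ℂ (Set.range ek) :=
  Submodule.mem_toSubalgebra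

lemma ek_mem (k : ℤ) : ek k ∈ TPA := by
  rw [mem_TPA_iff_span]; exact Submodule.subset_span ⟨k, rfl⟩

lemma tp_eq_sum (m : ℕ) (c : ℤ → ℂ) :
    tp m c = ∑ k ∈ Finset.Icc (-(m : ℤ)) m, c k • ek k := by
  funext x
  simp [tp, ek, Finset.sum_apply, smul_eq_mul]

lemma tp_mem (m : ℕ) (c : ℤ → ℂ) : tp m c ∈ TPA := by
  rw [tp_eq_sum]
  exact Subalgebra.sum_mem _ fun k _ => Subalgebra.smul_mem _ (ek_mem k) _

lemma const_mem (a : ℂ) : (fun _ : ℂ => a) ∈ TPA := by
  have : (fun _ : ℂ => a) = algebraMap ℂ (ℂ → ℂ) a := rfl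
  rw [this]; exact TPA.algebraMap_mem a

/-- coefficients cut off to `[-m, m]` -/
lemma exists_tp {f : ℂ → ℂ} (hf : f ∈ TPA) :
    ∃ (m : ℕ) (c : ℤ → ℂ), (∀ k : ℤ, (m : ℤ) < |k| → c k = 0) ∧ f = tp m c := by
  rw [mem_TPA_iff_span, Finsupp.mem_span_range_iff_exists_finsupp] at hf
  obtain ⟨c, hc⟩ := hf
  obtain ⟨m, hm⟩ : ∃ m : ℕ, ∀ k ∈ c.support, |k| ≤ (m : ℤ) := by
    refine ⟨c.support.sup fun k => k.natAbs, fun k hk => ?_⟩
    have h1 : k.natAbs ≤ c.support.sup fun k => k.natAbs :=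
      Finset.le_sup (f := fun k : ℤ => k.natAbs) hk
    rw [Int.abs_eq_natAbs]
    exact_mod_cast h1
  refine ⟨m, fun k => c k, ?_, ?_⟩
  · intro k hk
    by_contra h
    have := hm k (Finsupp.mem_support_iff.mpr h)
    omega
  · rw [← hc, tp_eq_sum, Finsupp.sum]
    refine Finset.sum_subset ?_ ?_
    · intro k hk
      have := hm k hk
      rw [abs_le] at this
      simp only [Finset.mem_Icc]
      exact this
    · intro k _ hk
      rw [Finsupp.notMem_support_iff.mp hk, zero_smul]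

/-- Dominant term: a nonzero trigonometric polynomial is bounded below by `const * e^{k s}` as
`Im x = -s → -∞`. -/
lemma tp_lower {m : ℕ} {c : ℤ → ℂ} {j : ℤ} (hj : j ∈ Finset.Icc (-(m : ℤ)) m) (hcj : c j ≠ 0)
    (hmax : ∀ k ∈ Finset.Icc (-(m : ℤ)) m, j < k → c k = 0) :
    ∃ S : ℝ, ∀ x : ℂ, S ≤ -x.im → ‖c j‖ / 2 * Real.exp (j * (-x.im)) ≤ ‖tp m c x‖ := by
  classical
  set K : ℝ := ∑ k ∈ Finset.Icc (-(m : ℤ)) m, ‖c k‖ with hK
  have hcj' : 0 < ‖c j‖ := norm_pos_iff.mpr hcj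
  have hKpos : 0 < K := by
    refine lt_of_lt_of_le hcj' ?_
    exact Finset.single_le_sum (f := fun k => ‖c k‖) (fun k _ => norm_nonneg _) hj
  refine ⟨max 0 (Real.log (2 * K / ‖c j‖)), fun x hx => ?_⟩
  have hs0 : 0 ≤ -x.im := (le_max_left _ _).trans hx
  have hs1 : 2 * K / ‖c j‖ ≤ Real.exp (-x.im) := by
    have h1 : Real.log (2 * K / ‖c j‖) ≤ -x.im := (le_max_right _ _).trans hx
    calc 2 * K / ‖c j‖ = Real.exp (Real.log (2 * K / ‖c j‖)) := by
          rw [Real.exp_log]; positivity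
      _ ≤ _ := Real.exp_le_exp.mpr h1
  have hexp : ∀ k : ℤ, ‖exp (I * k * x)‖ = Real.exp (k * (-x.im)) := by
    intro k
    rw [norm_exp]
    congr 1
    simp
  have hsplit : tp m c x = c j * exp (I * j * x) +
      ∑ k ∈ (Finset.Icc (-(m : ℤ)) m).erase j, c k * exp (I * k * x) := by
    unfold tp
    exact (Finset.add_sum_erase _ (fun k : ℤ => c k * exp (I * k * x)) hj).symm
  have hrest : ‖∑ k ∈ (Finset.Icc (-(m : ℤ)) m).erase j, c k * exp (I * k * x)‖ ≤
      K * Real.exp ((j - 1) * (-x.im)) := by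
    calc _ ≤ ∑ k ∈ (Finset.Icc (-(m : ℤ)) m).erase j, ‖c k * exp (I * k * x)‖ :=
          norm_sum_le _ _
      _ ≤ ∑ k ∈ (Finset.Icc (-(m : ℤ)) m).erase j, ‖c k‖ * Real.exp ((j - 1) * (-x.im)) := by
          refine Finset.sum_le_sum fun k hk => ?_
          rw [norm_mul, hexp]
          rw [Finset.mem_erase] at hk
          by_cases hkj : j < k
          · rw [hmax k hk.2 hkj]; simp
          · have : k ≤ j - 1 := by have := hk.1; omega
            have h2 : (k : ℝ) ≤ (j : ℝ) - 1 := by exact_mod_cast this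
            gcongr
      _ = (∑ k ∈ (Finset.Icc (-(m : ℤ)) m).erase j, ‖c k‖) * Real.exp ((j - 1) * (-x.im)) := by
          rw [Finset.sum_mul]
      _ ≤ K * Real.exp ((j - 1) * (-x.im)) := by
          gcongr
          exact Finset.sum_le_sum_of_subset_of_nonneg (Finset.erase_subset _ _)
            (fun _ _ _ => norm_nonneg _)
  have hmain : ‖c j * exp (I * j * x)‖ = ‖c j‖ * Real.exp (j * (-x.im)) := by
    rw [norm_mul, hexp]
  have h3 : K * Real.exp ((j - 1) * (-x.im)) ≤ ‖c j‖ / 2 * Real.exp (j * (-x.im)) := by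
    have h4 : Real.exp (j * (-x.im)) = Real.exp ((j - 1) * (-x.im)) * Real.exp (-x.im) := by
      rw [← Real.exp_add]; ring_nf
    rw [h4]
    have h5 : K ≤ ‖c j‖ / 2 * Real.exp (-x.im) := by
      rw [div_le_iff₀ hcj'] at hs1
      linarith
    calc K * Real.exp ((j - 1) * (-x.im))
        ≤ (‖c j‖ / 2 * Real.exp (-x.im)) * Real.exp ((j - 1) * (-x.im)) := by gcongr
      _ = _ := by ring
  rw [hsplit]
  have h6 := norm_sub_le_norm_add (c j * exp (I * j * x))
    (∑ k ∈ (Finset.Icc (-(m : ℤ)) m).erase j, c k * exp (I * k * x))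
  rw [hmain] at h6
  linarith

/-- exists a dominant coefficient of a nonzero trigonometric polynomial -/
lemma exists_top {m : ℕ} {c : ℤ → ℂ} (h : ∃ k ∈ Finset.Icc (-(m : ℤ)) m, c k ≠ 0) :
    ∃ j ∈ Finset.Icc (-(m : ℤ)) m, c j ≠ 0 ∧ ∀ k ∈ Finset.Icc (-(m : ℤ)) m, j < k → c k = 0 := by
  classical
  set S := (Finset.Icc (-(m : ℤ)) m).filter fun k => c k ≠ 0 with hS
  have hne : S.Nonempty := by
    obtain ⟨k, hk, hck⟩ := h
    exact ⟨k, Finset.mem_filter.mpr ⟨hk, hck⟩⟩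
  have hmem := Finset.mem_filter.mp (S.max'_mem hne)
  refine ⟨S.max' hne, hmem.1, hmem.2, fun k hk hlt => ?_⟩
  by_contra hck
  have : k ≤ S.max' hne := S.le_max' k (Finset.mem_filter.mpr ⟨hk, hck⟩)
  omega

/-- A trigonometric polynomial which is `O(e^{-A s})` for every `A` along a sequence with
`s = -Im x → ∞` vanishes. -/
theorem TP_zero {f : ℂ → ℂ} (hf : f ∈ TPA) {x : ℕ → ℂ} (hx : Tendsto (fun n => -(x n).im) atTop atTop)
    (hsmall : ∀ A : ℝ, Tendsto (fun n => Real.exp (A * (-(x n).im)) * ‖f (x n)‖) atTop (𝓝 0)) :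
    ∀ z, f z = 0 := by
  obtain ⟨m, c, -, rfl⟩ := exists_tp hf
  by_cases h : ∃ k ∈ Finset.Icc (-(m : ℤ)) m, c k ≠ 0
  · exfalso
    obtain ⟨j, hj, hcj, hmax⟩ := exists_top h
    obtain ⟨S, hS⟩ := tp_lower hj hcj hmax
    have h1 := hsmall (-j)
    have hpos : 0 < ‖c j‖ / 2 := by
      have := norm_pos_iff.mpr hcj
      positivity
    have h2 : ∀ᶠ n in atTop, ‖c j‖ / 2 ≤ Real.exp (-j * (-(x n).im)) * ‖tp m c (x n)‖ := by
      filter_upwards [hx.eventually_ge_atTop S] with n hn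
      have h3 := hS (x n) hn
      have h4 : Real.exp (-j * (-(x n).im)) * Real.exp (j * (-(x n).im)) = 1 := by
        rw [← Real.exp_add]; simp
      calc ‖c j‖ / 2 = Real.exp (-j * (-(x n).im)) * (‖c j‖ / 2 * Real.exp (j * (-(x n).im))) := by
            linear_combination (-(‖c j‖ / 2)) * h4
        _ ≤ _ := by gcongr
    have h3 := ge_of_tendsto h1 h2
    linarith
  · push Not at h
    intro z
    unfold tp
    exact Finset.sum_eq_zero fun k hk => by rw [h k hk, zero_mul]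

/-- trigonometric polynomials are tempered -/
lemma TP_tempered {f : ℂ → ℂ} (hf : f ∈ TPA) :
    ∃ (A K : ℝ), ∀ x : ℂ, 0 ≤ -x.im → ‖f x‖ ≤ K * Real.exp (A * (-x.im)) := by
  obtain ⟨m, c, -, rfl⟩ := exists_tp hf
  refine ⟨m, ∑ k ∈ Finset.Icc (-(m : ℤ)) m, ‖c k‖, fun x hx => ?_⟩
  unfold tp
  refine (norm_sum_le _ _).trans ?_
  rw [Finset.sum_mul]
  refine Finset.sum_le_sum fun k hk => ?_
  rw [norm_mul, norm_exp]
  have h1 : (I * k * x).re = k * (-x.im) := by simp
  rw [h1]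
  rw [Finset.mem_Icc] at hk
  have h2 : (k : ℝ) ≤ m := by exact_mod_cast hk.2
  gcongr

end WW47
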