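import Pool.Agent.WW47.Wave

/-!
# The complex velocity: regularity, holomorphy, periodicity
-/

open Complex Set Filter Topology InnerProductSpace

namespace WW47

/-- derivative of the complex velocity in the direction `x` -/
noncomputable def W1 (Φ : ℝ → ℂ → ℝ) (t : ℝ) (z : ℂ) : ℂ := fderiv ℝ (Wt Φ) (t, z) (0, 1)

/-- time derivative of the complex velocity -/
noncomputable def W2 (Φ : ℝ → ℂ → ℝ) (t : ℝ) (z : ℂ) : ℂ := fderiv ℝ (Wt Φ) (t, z) (1, 0)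

section

variable {g κ γ a b : ℝ} {η ψ : ℝ → ℝ → ℝ} {Φ : ℝ → ℂ → ℝ} {q : ℝ → ℝ → ℝ} {p : ℝ → ℝ}

lemma Wt_differentiableAt (hΦ : ContDiffOn ℝ 2 (fun P : ℝ × ℂ => Φ P.1 P.2) (Ioo a b ×ˢ univ))
    {t : ℝ} (ht : t ∈ Ioo a b) (z : ℂ) : DifferentiableAt ℝ (Wt Φ) (t, z) :=
  ((contDiffOn_Wt hΦ).contDiffAt
    ((isOpen_dom a b).mem_nhds ⟨ht, mem_univ _⟩)).differentiableAt (by norm_num)

lemma fderiv_Wt_cont (hΦ : ContDiffOn ℝ 2 (fun P : ℝ × ℂ => Φ P.1 P.2) (Ioo a b ×ˢ univ)) :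
    ContinuousOn (fderiv ℝ (Wt Φ)) (Ioo a b ×ˢ univ) :=
  (contDiffOn_Wt hΦ).continuousOn_fderiv_of_isOpen (isOpen_dom a b) (by norm_num)

lemma slice_cont {E : Type*} [TopologicalSpace E] {f : ℝ × ℂ → E}
    (hf : ContinuousOn f (Ioo a b ×ˢ univ)) {t : ℝ} (ht : t ∈ Ioo a b) :
    Continuous fun z : ℂ => f (t, z) := by
  rw [← continuousOn_univ]
  exact hf.comp (by fun_prop) fun z _ => ⟨ht, mem_univ _⟩

lemma Wt_cont (hΦ : ContDiffOn ℝ 2 (fun P : ℝ × ℂ => Φ P.1 P.2) (Ioo a b ×ˢ univ))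
    {t : ℝ} (ht : t ∈ Ioo a b) : Continuous fun z : ℂ => Wt Φ (t, z) :=
  slice_cont (contDiffOn_Wt hΦ).continuousOn ht

lemma W1_cont (hΦ : ContDiffOn ℝ 2 (fun P : ℝ × ℂ => Φ P.1 P.2) (Ioo a b ×ˢ univ))
    {t : ℝ} (ht : t ∈ Ioo a b) : Continuous (W1 Φ t) :=
  (slice_cont (fderiv_Wt_cont hΦ) ht).clm_apply continuous_const

lemma W2_cont (hΦ : ContDiffOn ℝ 2 (fun P : ℝ × ℂ => Φ P.1 P.2) (Ioo a b ×ˢ univ))
    {t : ℝ} (ht : t ∈ Ioo a b) : Continuous (W2 Φ t) :=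
  (slice_cont (fderiv_Wt_cont hΦ) ht).clm_apply continuous_const

lemma W2_contOn (hΦ : ContDiffOn ℝ 2 (fun P : ℝ × ℂ => Φ P.1 P.2) (Ioo a b ×ˢ univ)) :
    ContinuousOn (fun P : ℝ × ℂ => W2 Φ P.1 P.2) (Ioo a b ×ˢ univ) :=
  (fderiv_Wt_cont hΦ).clm_apply continuousOn_const

lemma hasDerivAt_time (hΦ : ContDiffOn ℝ 2 (fun P : ℝ × ℂ => Φ P.1 P.2) (Ioo a b ×ˢ univ))
    {t : ℝ} (ht : t ∈ Ioo a b) (z : ℂ) :
    HasDerivAt (fun s => Wt Φ (s, z)) (W2 Φ t z) t := by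
  have h1 := (Wt_differentiableAt hΦ ht z).hasFDerivAt
  have h2 : HasFDerivAt (fun s : ℝ => (s, z)) (ContinuousLinearMap.inl ℝ ℝ ℂ) t :=
    hasFDerivAt_prodMk_left t z
  have h3 := (h1.comp t h2).hasDerivAt
  simpa [W2] using! h3

lemma hasFDerivAt_space (hΦ : ContDiffOn ℝ 2 (fun P : ℝ × ℂ => Φ P.1 P.2) (Ioo a b ×ˢ univ))
    {t : ℝ} (ht : t ∈ Ioo a b) (z : ℂ) :
    HasFDerivAt (fun w : ℂ => Wt Φ (t, w))
      ((fderiv ℝ (Wt Φ) (t, z)).comp (ContinuousLinearMap.inr ℝ ℝ ℂ)) z :=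
  ((Wt_differentiableAt hΦ ht z).hasFDerivAt).comp z (hasFDerivAt_prodMk_right t z)

/-- periodicity -/
lemma Wt_per (hw : WaterWave g κ γ a b η ψ Φ q p) {t : ℝ} (ht : t ∈ Ioo a b) (z : ℂ) :
    Wt Φ (t, z + 2 * Real.pi) = Wt Φ (t, z) := by
  rw [← vel_eq hw.regΦ ht, ← vel_eq hw.regΦ ht]
  have h1 : (fun w => Φ t (w + 2 * Real.pi)) = Φ t := funext fun w => hw.perΦ t ht w
  have h2 : fderiv ℝ (Φ t) (z + 2 * Real.pi) = fderiv ℝ (Φ t) z := by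
    rw [← fderiv_comp_add_right, h1]
  unfold vel
  rw [h2]

lemma W1_per (hw : WaterWave g κ γ a b η ψ Φ q p) {t : ℝ} (ht : t ∈ Ioo a b) (z : ℂ) :
    W1 Φ t (z + 2 * Real.pi) = W1 Φ t z := by
  have h1 : (fun w => Wt Φ (t, w + 2 * Real.pi)) = fun w => Wt Φ (t, w) :=
    funext fun w => Wt_per hw ht w
  have h2 : fderiv ℝ (fun w => Wt Φ (t, w)) (z + 2 * Real.pi)
      = fderiv ℝ (fun w => Wt Φ (t, w)) z := by
    rw [← fderiv_comp_add_right (f := fun w => Wt Φ (t, w)), h1]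
  rw [(hasFDerivAt_space hw.regΦ ht _).fderiv, (hasFDerivAt_space hw.regΦ ht _).fderiv] at h2
  have h3 := congrArg (fun L : ℂ →L[ℝ] ℂ => L 1) h2
  simpa [W1] using h3

lemma W2_per (hw : WaterWave g κ γ a b η ψ Φ q p) {t : ℝ} (ht : t ∈ Ioo a b) (z : ℂ) :
    W2 Φ t (z + 2 * Real.pi) = W2 Φ t z := by
  have h1 := hasDerivAt_time hw.regΦ ht (z + 2 * Real.pi)
  have h2 := hasDerivAt_time hw.regΦ ht z
  have h3 : (fun s => Wt Φ (s, z + 2 * Real.pi)) =ᶠ[𝓝 t] fun s => Wt Φ (s, z) := by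
    filter_upwards [isOpen_Ioo.mem_nhds ht] with s hs using Wt_per hw hs z
  exact (h1.congr_of_eventuallyEq h3.symm).unique h2

/-- holomorphy below the surface -/
lemma Wt_hol (hw : WaterWave g κ γ a b η ψ Φ q p) {t : ℝ} (ht : t ∈ Ioo a b) {z : ℂ}
    (hz : z.im < η t z.re) : DifferentiableAt ℂ (fun w => Wt Φ (t, w)) z := by
  have h1 := HarmonicAt.differentiableAt_complex_partial (hw.harm t ht z hz)
  have h2 : (fun w : ℂ => (fderiv ℝ (Φ t) w 1 : ℂ) - I * (fderiv ℝ (Φ t) w I : ℂ))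
      = fun w => Wt Φ (t, w) := funext fun w => vel_eq hw.regΦ ht w
  rw [h2] at h1
  exact h1

lemma eta_cont (hw : WaterWave g κ γ a b η ψ Φ q p) {t : ℝ} (ht : t ∈ Ioo a b) :
    Continuous (η t) := by
  rw [← continuousOn_univ]
  exact hw.regη.continuousOn.comp (f := fun x : ℝ => (t, x)) (by fun_prop)
    fun z _ => ⟨ht, mem_univ _⟩

lemma isOpen_fluid (hw : WaterWave g κ γ a b η ψ Φ q p) {t : ℝ} (ht : t ∈ Ioo a b) :
    IsOpen {z : ℂ | z.im < η t z.re} :=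
  isOpen_lt continuous_im ((eta_cont hw ht).comp continuous_re)

/-- Cauchy-Riemann below the surface -/
lemma CR_below (hw : WaterWave g κ γ a b η ψ Φ q p) {t : ℝ} (ht : t ∈ Ioo a b) {z : ℂ}
    (hz : z.im < η t z.re) (v : ℂ) :
    fderiv ℝ (Wt Φ) (t, z) (0, v) = W1 Φ t z * v ∧
      W1 Φ t z = deriv (fun w => Wt Φ (t, w)) z := by
  have h1 := (Wt_hol hw ht hz).hasDerivAt
  have h2 : HasFDerivAt (fun w => Wt Φ (t, w))
      ((ContinuousLinearMap.smulRight (1 : ℂ →L[ℂ] ℂ)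
        (deriv (fun w => Wt Φ (t, w)) z)).restrictScalars ℝ) z :=
    h1.hasFDerivAt.restrictScalars ℝ
  have h3 := h2.unique (hasFDerivAt_space hw.regΦ ht z)
  have h4 : ∀ u : ℂ, fderiv ℝ (Wt Φ) (t, z) (0, u) = u * deriv (fun w => Wt Φ (t, w)) z := by
    intro u
    have := congrArg (fun L : ℂ →L[ℝ] ℂ => L u) h3
    simpa using this.symm
  have h5 : W1 Φ t z = deriv (fun w => Wt Φ (t, w)) z := by
    unfold W1; rw [h4]; ring
  exact ⟨by rw [h4, h5]; ring, h5⟩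

/-- Cauchy-Riemann at the surface -/
lemma CR_surf (hw : WaterWave g κ γ a b η ψ Φ q p) {t : ℝ} (ht : t ∈ Ioo a b) {z : ℂ}
    (hz : z.im ≤ η t z.re) (v : ℂ) :
    fderiv ℝ (Wt Φ) (t, z) (0, v) = W1 Φ t z * v := by
  have hc1 : Continuous fun w : ℂ => fderiv ℝ (Wt Φ) (t, w) (0, v) :=
    (slice_cont (fderiv_Wt_cont hw.regΦ) ht).clm_apply continuous_const
  have hc2 : Continuous fun w : ℂ => W1 Φ t w * v := (W1_cont hw.regΦ ht).mul continuous_const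
  have hlim : Tendsto (fun s : ℝ => z - s * I) (𝓝[>] 0) (𝓝 z) := by
    have : Continuous fun s : ℝ => z - s * I := by fun_prop
    have h := this.tendsto 0
    simp only [ofReal_zero, zero_mul, sub_zero] at h
    exact h.mono_left nhdsWithin_le_nhds
  have h1 := (hc1.tendsto z).comp hlim
  have h2 := (hc2.tendsto z).comp hlim
  refine tendsto_nhds_unique_of_eventuallyEq h1 h2 ?_
  filter_upwards [self_mem_nhdsWithin] with s hs
  have hs' : 0 < s := hs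
  refine (CR_below hw ht ?_ v).1
  simp only [sub_im, mul_im, ofReal_re, I_im, mul_one, ofReal_im, I_re, mul_zero, add_zero,
    sub_re, mul_re, sub_zero]
  linarith

lemma W1_hol (hw : WaterWave g κ γ a b η ψ Φ q p) {t : ℝ} (ht : t ∈ Ioo a b) {z : ℂ}
    (hz : z.im < η t z.re) : DifferentiableAt ℂ (W1 Φ t) z := by
  have hU := isOpen_fluid hw ht
  have h1 : DifferentiableOn ℂ (fun w => Wt Φ (t, w)) {z : ℂ | z.im < η t z.re} :=
    fun w hw' => (Wt_hol hw ht hw').differentiableWithinAt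
  have h2 := (h1.deriv hU).differentiableAt (hU.mem_nhds hz)
  refine h2.congr_of_eventuallyEq ?_
  filter_upwards [hU.mem_nhds hz] with w hw'
  exact (CR_below hw ht hw' 1).2

end

end WW47
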