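import Pool.Agent.WW47.Vel

/-!
# The time derivative of the complex velocity is holomorphic; decay estimates
-/

open Complex Set Filter Topology InnerProductSpace Asymptotics

namespace WW47

section

variable {g κ γ a b : ℝ} {η ψ : ℝ → ℝ → ℝ} {Φ : ℝ → ℂ → ℝ} {q : ℝ → ℝ → ℝ} {p : ℝ → ℝ}

lemma fluid_near (hw : WaterWave g κ γ a b η ψ Φ q p) {t : ℝ} (ht : t ∈ Ioo a b) {z : ℂ}
    (hz : z.im < η t z.re) :
    ∃ r > 0, ∀ s : ℝ, |s - t| < r → ∀ w : ℂ, ‖w - z‖ < r → s ∈ Ioo a b ∧ w.im < η s w.re := by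
  have h1 : ContinuousAt (fun P : ℝ × ℝ => η P.1 P.2) (t, z.re) :=
    (hw.regη.continuousOn).continuousAt ((isOpen_domR a b).mem_nhds ⟨ht, mem_univ _⟩)
  have h2 : ContinuousAt (fun P : ℝ × ℂ => η P.1 P.2.re - P.2.im) (t, z) := by
    have h3 : ContinuousAt (fun P : ℝ × ℂ => (P.1, P.2.re)) (t, z) := by fun_prop
    have h4 : ContinuousAt (fun P : ℝ × ℂ => η P.1 P.2.re) (t, z) :=
      ContinuousAt.comp (f := fun P : ℝ × ℂ => (P.1, P.2.re)) (x := (t, z)) h1 h3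
    exact h4.sub (by fun_prop)
  have h5 : ∀ᶠ P : ℝ × ℂ in 𝓝 (t, z), 0 < η P.1 P.2.re - P.2.im := by
    have : 0 < η t z.re - z.im := by linarith
    exact h2.eventually (lt_mem_nhds this)
  have h6 : ∀ᶠ P : ℝ × ℂ in 𝓝 (t, z), P.1 ∈ Ioo a b :=
    (isOpen_dom a b).mem_nhds ⟨ht, mem_univ z⟩ |> fun h => by
      filter_upwards [h] with P hP using hP.1
  obtain ⟨r, hr, hr2⟩ := Metric.eventually_nhds_iff.mp (h5.and h6)
  refine ⟨r, hr, fun s hs w hw' => ?_⟩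
  have h7 := hr2 (y := (s, w)) (by
    rw [Prod.dist_eq, max_lt_iff]
    refine ⟨?_, ?_⟩
    · rw [Real.dist_eq]; exact hs
    · rw [dist_eq_norm]; exact hw')
  exact ⟨h7.2, by linarith [h7.1]⟩

lemma W2_hol (hw : WaterWave g κ γ a b η ψ Φ q p) {t : ℝ} (ht : t ∈ Ioo a b) {z : ℂ}
    (hz : z.im < η t z.re) : DifferentiableAt ℂ (W2 Φ t) z := by
  obtain ⟨r, hr, hfl⟩ := fluid_near hw ht hz
  set F : ℝ → ℂ → ℂ := fun h w => (h : ℂ)⁻¹ * (Wt Φ (t + h, w) - Wt Φ (t, w)) with hF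
  have hlu : TendstoLocallyUniformlyOn F (W2 Φ t) (𝓝[≠] 0) (Metric.ball z r) := by
    rw [Metric.tendstoLocallyUniformlyOn_iff]
    intro ε hε w hwb
    have hs : HasStrictFDerivAt (Wt Φ) (fderiv ℝ (Wt Φ) (t, w)) (t, w) :=
      ((contDiffOn_Wt hw.regΦ).contDiffAt
        ((isOpen_dom a b).mem_nhds ⟨ht, mem_univ _⟩)).hasStrictFDerivAt (by norm_num)
    have h1 := (hs.isLittleO.def (by positivity : 0 < ε / 2))
    have h2 : ∀ᶠ P : (ℝ × ℂ) in 𝓝 ((0 : ℝ), w),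
        ‖Wt Φ (t + P.1, P.2) - Wt Φ (t, P.2) - fderiv ℝ (Wt Φ) (t, w) (P.1, 0)‖
          ≤ ε / 2 * ‖P.1‖ := by
      have hcont : Tendsto (fun P : ℝ × ℂ => ((t + P.1, P.2), ((t : ℝ), P.2))) (𝓝 ((0 : ℝ), w))
          (𝓝 ((t, w), (t, w))) := by
        have : Continuous (fun P : ℝ × ℂ => ((t + P.1, P.2), ((t : ℝ), P.2))) := by fun_prop
        have h := this.tendsto ((0 : ℝ), w)
        simpa using h
      have h3 := hcont.eventually h1
      filter_upwards [h3] with P hP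
      have h4 : ((t + P.1, P.2) - (t, P.2) : ℝ × ℂ) = (P.1, 0) := by
        ext <;> simp
      rw [h4] at hP
      refine hP.trans (le_of_eq ?_)
      simp [Prod.norm_def]
    have h3 : ∀ᶠ y in 𝓝 w, ‖W2 Φ t y - W2 Φ t w‖ < ε / 2 := by
      have := (W2_cont hw.regΦ ht).tendsto w
      rw [Metric.tendsto_nhds] at this
      simpa [dist_eq_norm] using this (ε / 2) (by positivity)
    rw [nhds_prod_eq] at h2
    obtain ⟨pa, hpa, pb, hpb, hp⟩ := Filter.eventually_prod_iff.mp h2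
    refine ⟨{y | pb y} ∩ {y | ‖W2 Φ t y - W2 Φ t w‖ < ε / 2},
      mem_nhdsWithin_of_mem_nhds (inter_mem hpb h3), ?_⟩
    have hpa' : ∀ᶠ h in 𝓝[≠] (0 : ℝ), pa h := hpa.filter_mono nhdsWithin_le_nhds
    filter_upwards [hpa', self_mem_nhdsWithin] with h hh hne y hy
    have hne' : h ≠ 0 := hne
    have h5 := hp hh hy.1
    simp only at h5
    have h6 : fderiv ℝ (Wt Φ) (t, w) (h, 0) = (h : ℂ) * W2 Φ t w := by
      have : ((h, 0) : ℝ × ℂ) = h • ((1 : ℝ), (0 : ℂ)) := by simp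
      rw [this, map_smul]
      simp [W2]
    rw [h6] at h5
    have h7 : F h y - W2 Φ t w
        = (h : ℂ)⁻¹ * (Wt Φ (t + h, y) - Wt Φ (t, y) - (h : ℂ) * W2 Φ t w) := by
      have : (h : ℂ) ≠ 0 := by exact_mod_cast hne'
      simp only [hF]
      field_simp
    have h8 : ‖F h y - W2 Φ t w‖ ≤ ε / 2 := by
      rw [h7, norm_mul, norm_inv, norm_real]
      have hpos : 0 < ‖h‖ := norm_pos_iff.mpr hne'
      rw [inv_mul_le_iff₀ hpos]
      linarith
    have h9 : ‖W2 Φ t y - W2 Φ t w‖ < ε / 2 := hy.2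
    rw [dist_eq_norm]
    calc ‖W2 Φ t y - F h y‖ = ‖(W2 Φ t y - W2 Φ t w) - (F h y - W2 Φ t w)‖ := by congr 1; ring
      _ ≤ ‖W2 Φ t y - W2 Φ t w‖ + ‖F h y - W2 Φ t w‖ := norm_sub_le _ _
      _ < ε := by linarith
  have hdiff : ∀ᶠ h in 𝓝[≠] (0 : ℝ), DifferentiableOn ℂ (F h) (Metric.ball z r) := by
    have h1 : ∀ᶠ h in 𝓝 (0 : ℝ), |h| < r := by
      have := Metric.ball_mem_nhds (0 : ℝ) hr
      filter_upwards [this] with h hh
      simpa [Metric.mem_ball, Real.dist_eq] using hh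
    filter_upwards [h1.filter_mono nhdsWithin_le_nhds] with h hh w hwb
    rw [Metric.mem_ball, dist_eq_norm] at hwb
    have h2 := hfl (t + h) (by simpa using hh) w hwb
    have h3 := hfl t (by simpa using hr) w hwb
    exact ((((Wt_hol hw h2.1 h2.2).sub (Wt_hol hw ht h3.2)).const_mul
      (h : ℂ)⁻¹)).differentiableWithinAt
  exact (hlu.differentiableOn hdiff Metric.isOpen_ball).differentiableAt
    (Metric.ball_mem_nhds z hr)

end

end WW47
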