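import Pool.Agent.WW47.Vel2

/-!
# Decay estimates for the complex velocity and its derivatives
-/

open Complex Set Filter Topology InnerProductSpace Asymptotics

namespace WW47

section

variable {g κ γ a b : ℝ} {η ψ : ℝ → ℝ → ℝ} {Φ : ℝ → ℂ → ℝ} {q : ℝ → ℝ → ℝ} {p : ℝ → ℝ}

lemma real_reduce {f : ℝ → ℝ} (hf : ∀ x, f (x + 2 * Real.pi) = f x) (x : ℝ) :
    ∃ y ∈ Icc 0 (2 * Real.pi), f x = f y := by
  have hper : Function.Periodic f (2 * Real.pi) := hf
  obtain ⟨y, hy, hxy⟩ := hper.exists_mem_Ico₀ (by positivity) x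
  exact ⟨y, ⟨hy.1, hy.2.le⟩, hxy⟩

lemma near_time (hw : WaterWave g κ γ a b η ψ Φ q p) {t : ℝ} (ht : t ∈ Ioo a b) {C : ℝ}
    (hC : ∀ x, -C < η t x) :
    ∃ τ > 0, ∀ s : ℝ, |s - t| ≤ τ → s ∈ Ioo a b ∧ ∀ x, -C < η s x := by
  set n : Set (ℝ × ℝ) := (Ioo a b ×ˢ (univ : Set ℝ)) ∩ {P | -C < η P.1 P.2} with hn
  have hno : IsOpen n := by
    have := hw.regη.continuousOn.isOpen_inter_preimage (isOpen_domR a b)
      (isOpen_Ioi (a := -C))
    exact this
  have hsub : ({t} : Set ℝ) ×ˢ Icc 0 (2 * Real.pi) ⊆ n := by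
    rintro ⟨s, x⟩ ⟨hs, _⟩
    have hs' : s = t := hs
    subst hs'
    exact ⟨⟨ht, mem_univ _⟩, hC x⟩
  obtain ⟨u, v, hu, hv, hsu, hxv, huv⟩ :=
    generalized_tube_lemma isCompact_singleton isCompact_Icc hno hsub
  have htu : t ∈ u := hsu rfl
  obtain ⟨r, hr, hru⟩ := Metric.isOpen_iff.mp hu t htu
  refine ⟨r / 2, by positivity, fun s hs => ?_⟩
  have hsu' : s ∈ u := hru (by rw [Metric.mem_ball, Real.dist_eq]; linarith)
  have h0v : (0 : ℝ) ∈ v := hxv ⟨le_rfl, by positivity⟩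
  have hsI : s ∈ Ioo a b := (huv (show ((s, 0) : ℝ × ℝ) ∈ u ×ˢ v from ⟨hsu', h0v⟩)).1.1
  refine ⟨hsI, fun x => ?_⟩
  obtain ⟨y, hy, hxy⟩ := real_reduce (hw.perη s hsI) x
  rw [hxy]
  exact (huv (show ((s, y) : ℝ × ℝ) ∈ u ×ˢ v from ⟨hsu', hxv hy⟩)).2

lemma Wt_decay0 (hw : WaterWave g κ γ a b η ψ Φ q p) {t : ℝ} (ht : t ∈ Ioo a b) :
    ∀ ε > 0, ∃ Y : ℝ, ∀ z : ℂ, z.im < Y → ‖Wt Φ (t, z)‖ ≤ ε := by
  intro ε hε
  obtain ⟨Y, hY⟩ := hw.decay t ht (ε / 2) (by positivity)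
  refine ⟨Y, fun z hz => ?_⟩
  rw [← vel_eq hw.regΦ ht]
  obtain ⟨h1, h2⟩ := hY z hz
  unfold vel
  unfold px at h1
  unfold py at h2
  calc _ ≤ ‖((fderiv ℝ (Φ t) z 1 : ℝ) : ℂ)‖ + ‖I * ((fderiv ℝ (Φ t) z I : ℝ) : ℂ)‖ :=
        norm_sub_le _ _
    _ = |fderiv ℝ (Φ t) z 1| + |fderiv ℝ (Φ t) z I| := by
        rw [norm_mul, norm_I, one_mul, norm_real, norm_real]; rfl
    _ ≤ ε := by linarith

lemma Wt_decay (hw : WaterWave g κ γ a b η ψ Φ q p) {t : ℝ} (ht : t ∈ Ioo a b) {C : ℝ}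
    (hC : ∀ x, -C < η t x) :
    ∃ B : ℝ, ∀ z : ℂ, z.im ≤ -C → ‖Wt Φ (t, z)‖ ≤ B * Real.exp (z.im + C) := by
  have hcont : Continuous fun z : ℂ => Wt Φ (t, z) := Wt_cont hw.regΦ ht
  obtain ⟨B, hB⟩ := bdd_of_periodic (a := -C) (b := -C) (Wt_per hw ht) hcont.continuousOn
  refine ⟨B, fun z hz => ?_⟩
  refine decay (f := fun z : ℂ => Wt Φ (t, z)) (Wt_per hw ht) ?_ hcont.continuousOn
    (Wt_decay0 hw ht) (B := B) ?_ z hz
  · intro w hw'
    refine (Wt_hol hw ht ?_).differentiableWithinAt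
    have : w.im < -C := hw'
    exact this.trans (hC _)
  · intro x
    apply hB <;> simp

lemma W1_decay (hw : WaterWave g κ γ a b η ψ Φ q p) {t : ℝ} (ht : t ∈ Ioo a b) {C : ℝ}
    (hC : ∀ x, -C < η t x) :
    ∃ B : ℝ, ∀ z : ℂ, z.im ≤ -C - 1 → ‖W1 Φ t z‖ ≤ B * Real.exp (z.im + C) := by
  obtain ⟨B, hB⟩ := Wt_decay hw ht hC
  have hB0 : 0 ≤ B := by
    have h1 := hB ((-C : ℝ) * I) (by simp)
    have h2 : 0 < Real.exp (((-C : ℝ) * I : ℂ).im + C) := Real.exp_pos _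
    have h3 := (norm_nonneg _).trans h1
    by_contra hneg
    push Not at hneg
    have := mul_neg_of_neg_of_pos hneg h2
    linarith
  refine ⟨B * Real.exp 1, fun z hz => ?_⟩
  have hlt : z.im < η t z.re := by
    have := hC z.re; linarith
  rw [(CR_below hw ht hlt 1).2]
  have hball : ∀ w ∈ Metric.closedBall z 1, w.im ≤ -C ∧ w.im ≤ z.im + 1 := by
    intro w hwb
    rw [Metric.mem_closedBall, dist_eq_norm] at hwb
    have h1 : |(w - z).im| ≤ 1 := (abs_im_le_norm _).trans hwb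
    rw [sub_im] at h1
    have h2 := (abs_le.mp h1).2
    constructor <;> linarith
  have key := Complex.norm_deriv_le_of_forall_mem_sphere_norm_le (c := z) (R := 1)
    (C := B * Real.exp (z.im + 1 + C)) (f := fun w => Wt Φ (t, w)) one_pos ?_ ?_
  · rw [div_one] at key
    refine key.trans (le_of_eq ?_)
    rw [mul_assoc, ← Real.exp_add]
    ring_nf
  · refine ⟨?_, (Wt_cont hw.regΦ ht).continuousOn⟩
    intro w hwb
    refine (Wt_hol hw ht ?_).differentiableWithinAt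
    have := (hball w (Metric.ball_subset_closedBall hwb)).1
    exact this.trans_lt (hC _)
  · intro w hws
    have h1 := hball w (Metric.sphere_subset_closedBall hws)
    refine (hB w h1.1).trans ?_
    gcongr
    exact h1.2

lemma W2_decay (hw : WaterWave g κ γ a b η ψ Φ q p) {t : ℝ} (ht : t ∈ Ioo a b) {C : ℝ}
    (hC : ∀ x, -C < η t x) :
    ∃ B : ℝ, ∀ z : ℂ, z.im ≤ -C → ‖W2 Φ t z‖ ≤ B * Real.exp (z.im + C) := by
  obtain ⟨τ, hτ, hnear⟩ := near_time hw ht hC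
  have hsub : Icc (t - τ) (t + τ) ⊆ Ioo a b := by
    intro s hs
    refine (hnear s ?_).1
    rw [abs_le]; constructor <;> linarith [hs.1, hs.2]
  -- uniform bound of the time derivative on the line `Im z = -C`
  have hK : IsCompact (Icc (t - τ) (t + τ) ×ˢ (Icc (0 : ℝ) (2 * Real.pi) ×ℂ ({-C} : Set ℝ))) :=
    isCompact_Icc.prod (isCompact_Icc.reProdIm isCompact_singleton)
  obtain ⟨K, hKb⟩ := hK.exists_bound_of_continuousOn
    ((W2_contOn hw.regΦ).mono (fun P hP => ⟨hsub hP.1, mem_univ _⟩))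
  have hK0 : 0 ≤ K := by
    refine (norm_nonneg _).trans (hKb (t, ((0 : ℝ) : ℂ) + (-C : ℝ) * I) ⟨?_, ?_⟩)
    · constructor <;> linarith
    · rw [mem_reProdIm]
      constructor
      · simp; positivity
      · simp
  refine ⟨K, fun z hz => ?_⟩
  -- Lipschitz bound on the line
  have hline : ∀ s ∈ Icc (t - τ) (t + τ), ∀ x : ℝ,
      ‖Wt Φ (s, x - C * I) - Wt Φ (t, x - C * I)‖ ≤ K * ‖s - t‖ := by
    intro s hs x
    obtain ⟨n, w, hzw, him, h0, h2p⟩ := exists_reduced ((x : ℂ) - C * I)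
    have him' : w.im = -C := by rw [him]; simp
    rw [hzw, per_int (g := fun w => Wt Φ (s, w)) (Wt_per hw (hsub hs)),
      per_int (g := fun w => Wt Φ (t, w)) (Wt_per hw ht)]
    refine Convex.norm_image_sub_le_of_norm_hasDerivWithin_le (f := fun s => Wt Φ (s, w))
      (f' := fun s => W2 Φ s w) (s := Icc (t - τ) (t + τ)) ?_ ?_ (convex_Icc _ _) ?_ hs
    · intro s' hs'
      exact (hasDerivAt_time hw.regΦ (hsub hs') w).hasDerivWithinAt
    · intro s' hs'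
      exact hKb (s', w) ⟨hs', by rw [mem_reProdIm]; exact ⟨⟨h0, h2p⟩, him'⟩⟩
    · constructor <;> linarith
  -- the difference decays
  have hdiff : ∀ s ∈ Icc (t - τ) (t + τ), ‖Wt Φ (s, z) - Wt Φ (t, z)‖
      ≤ (K * Real.exp (z.im + C)) * ‖s - t‖ := by
    intro s hs
    have hsI := hsub hs
    have hCs : ∀ x, -C < η s x := (hnear s (by
      rw [abs_le]; constructor <;> linarith [hs.1, hs.2])).2
    have h1 := decay (f := fun w : ℂ => Wt Φ (s, w) - Wt Φ (t, w)) (C := C)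
      (B := K * ‖s - t‖) ?_ ?_ ?_ ?_ (hline s hs) z hz
    · refine h1.trans (le_of_eq (by ring))
    · intro w
      rw [Wt_per hw hsI, Wt_per hw ht]
    · intro w hw'
      have hw2 : w.im < -C := hw'
      exact ((Wt_hol hw hsI (hw2.trans (hCs _))).sub
        (Wt_hol hw ht (hw2.trans (hC _)))).differentiableWithinAt
    · exact ((Wt_cont hw.regΦ hsI).sub (Wt_cont hw.regΦ ht)).continuousOn
    · intro ε hε
      obtain ⟨Y1, hY1⟩ := Wt_decay0 hw hsI (ε / 2) (by positivity)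
      obtain ⟨Y2, hY2⟩ := Wt_decay0 hw ht (ε / 2) (by positivity)
      refine ⟨min Y1 Y2, fun w hw' => ?_⟩
      have h1 := hY1 w (hw'.trans_le (min_le_left _ _))
      have h2 := hY2 w (hw'.trans_le (min_le_right _ _))
      exact (norm_sub_le _ _).trans (by linarith)
  refine (hasDerivAt_time hw.regΦ ht z).le_of_lip' (by positivity) ?_
  have : Icc (t - τ) (t + τ) ∈ 𝓝 t := Icc_mem_nhds (by linarith) (by linarith)
  filter_upwards [this] with s hs using hdiff s hs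

end

end WW47
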