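import Pool.Agent.WW47.Decay
import Pool.Agent.WW47.TP

/-!
# The water waves system in infinite depth with constant vorticity

`Φ t z` is the velocity potential at time `t` and the point `z = x + i y`.
-/

open Complex Set Filter Topology InnerProductSpace

namespace WW47

/-- `Φ_x` -/
noncomputable def px (Φ : ℝ → ℂ → ℝ) (t : ℝ) (z : ℂ) : ℝ := fderiv ℝ (Φ t) z 1

/-- `Φ_y` -/
noncomputable def py (Φ : ℝ → ℂ → ℝ) (t : ℝ) (z : ℂ) : ℝ := fderiv ℝ (Φ t) z I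

/-- the point `x + i η(t,x)` of the free surface -/
noncomputable def surf (η : ℝ → ℝ → ℝ) (t x : ℝ) : ℂ := x + η t x * I

/-- `η_x` -/
noncomputable def etax (η : ℝ → ℝ → ℝ) (t x : ℝ) : ℝ := deriv (η t) x

/-- The Dirichlet-Neumann operator `G(η)ψ = Φ_y - η_x Φ_x` at the free surface. -/
noncomputable def DN (Φ : ℝ → ℂ → ℝ) (η : ℝ → ℝ → ℝ) (t x : ℝ) : ℝ :=
  py Φ t (surf η t x) - etax η t x * px Φ t (surf η t x)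

/-- A classical solution, on the time interval from `a` to `b`, of the space periodic water waves
equations in infinite depth with gravity `g`, surface tension `κ` and constant vorticity `γ`;
`Φ` is the (generalised) velocity potential, `q = ∂_x⁻¹ G(η)ψ` up to a function of time, and `p`
is the Bernoulli constant. -/
structure WaterWave (g κ γ a b : ℝ) (η ψ : ℝ → ℝ → ℝ) (Φ : ℝ → ℂ → ℝ) (q : ℝ → ℝ → ℝ)
    (p : ℝ → ℝ) : Prop where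
  regη : ContDiffOn ℝ 2 (fun P : ℝ × ℝ => η P.1 P.2) (Ioo a b ×ˢ univ)
  regΦ : ContDiffOn ℝ 2 (fun P : ℝ × ℂ => Φ P.1 P.2) (Ioo a b ×ˢ univ)
  perη : ∀ t ∈ Ioo a b, ∀ x, η t (x + 2 * Real.pi) = η t x
  perΦ : ∀ t ∈ Ioo a b, ∀ z, Φ t (z + 2 * Real.pi) = Φ t z
  harm : ∀ t ∈ Ioo a b, ∀ z : ℂ, z.im < η t z.re → HarmonicAt (Φ t) z
  decay : ∀ t ∈ Ioo a b, ∀ ε > 0, ∃ Y : ℝ, ∀ z : ℂ, z.im < Y →
    |px Φ t z| ≤ ε ∧ |py Φ t z| ≤ ε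
  trace : ∀ t ∈ Ioo a b, ∀ x, ψ t x = Φ t (surf η t x)
  kin : ∀ t ∈ Ioo a b, ∀ x,
    deriv (fun s => η s x) t = DN Φ η t x + γ * η t x * etax η t x
  perq : ∀ t ∈ Ioo a b, ∀ x, q t (x + 2 * Real.pi) = q t x
  derq : ∀ t ∈ Ioo a b, ∀ x, HasDerivAt (q t) (DN Φ η t x) x
  dyn : ∀ t ∈ Ioo a b, ∀ x,
    deriv (fun s => ψ s x) t = -g * η t x - deriv (ψ t) x ^ 2 / 2
      + (etax η t x * deriv (ψ t) x + DN Φ η t x) ^ 2 / (2 * (1 + etax η t x ^ 2))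
      + κ * deriv (fun y => etax η t y / √(1 + etax η t y ^ 2)) x
      + γ * η t x * deriv (ψ t) x + γ * q t x + p t

/-- complex velocity `Φ_x - i Φ_y` -/
noncomputable def vel (Φ : ℝ → ℂ → ℝ) (t : ℝ) (z : ℂ) : ℂ :=
  (fderiv ℝ (Φ t) z 1 : ℂ) - I * (fderiv ℝ (Φ t) z I : ℂ)

/-- the joint complex velocity -/
noncomputable def Wt (Φ : ℝ → ℂ → ℝ) (P : ℝ × ℂ) : ℂ :=
  (fderiv ℝ (fun P : ℝ × ℂ => Φ P.1 P.2) P (0, 1) : ℂ)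
    - I * (fderiv ℝ (fun P : ℝ × ℂ => Φ P.1 P.2) P (0, I) : ℂ)

section

variable {g κ γ a b : ℝ} {η ψ : ℝ → ℝ → ℝ} {Φ : ℝ → ℂ → ℝ} {q : ℝ → ℝ → ℝ} {p : ℝ → ℝ}

lemma isOpen_dom (a b : ℝ) : IsOpen (Ioo a b ×ˢ (univ : Set ℂ)) := isOpen_Ioo.prod isOpen_univ

lemma isOpen_domR (a b : ℝ) : IsOpen (Ioo a b ×ˢ (univ : Set ℝ)) := isOpen_Ioo.prod isOpen_univ

lemma hasFDerivAt_slice (hΦ : ContDiffOn ℝ 2 (fun P : ℝ × ℂ => Φ P.1 P.2) (Ioo a b ×ˢ univ))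
    {t : ℝ} (ht : t ∈ Ioo a b) (z : ℂ) :
    HasFDerivAt (Φ t) ((fderiv ℝ (fun P : ℝ × ℂ => Φ P.1 P.2) (t, z)).comp
      (ContinuousLinearMap.inr ℝ ℝ ℂ)) z := by
  have h1 : DifferentiableAt ℝ (fun P : ℝ × ℂ => Φ P.1 P.2) (t, z) :=
    (hΦ.contDiffAt ((isOpen_dom a b).mem_nhds ⟨ht, mem_univ _⟩)).differentiableAt (by norm_num)
  have h2 : HasFDerivAt (fun w : ℂ => (t, w)) (ContinuousLinearMap.inr ℝ ℝ ℂ) z :=
    hasFDerivAt_prodMk_right t z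
  exact h1.hasFDerivAt.comp z h2

lemma vel_eq (hΦ : ContDiffOn ℝ 2 (fun P : ℝ × ℂ => Φ P.1 P.2) (Ioo a b ×ˢ univ))
    {t : ℝ} (ht : t ∈ Ioo a b) (z : ℂ) : vel Φ t z = Wt Φ (t, z) := by
  unfold vel Wt
  rw [(hasFDerivAt_slice hΦ ht z).fderiv]
  simp

lemma contDiffOn_Wt (hΦ : ContDiffOn ℝ 2 (fun P : ℝ × ℂ => Φ P.1 P.2) (Ioo a b ×ˢ univ)) :
    ContDiffOn ℝ 1 (Wt Φ) (Ioo a b ×ˢ univ) := by
  have h1 : ContDiffOn ℝ 1 (fderiv ℝ (fun P : ℝ × ℂ => Φ P.1 P.2)) (Ioo a b ×ˢ univ) :=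
    hΦ.fderiv_of_isOpen (isOpen_dom a b) (by norm_num)
  have h2 : ∀ v : ℝ × ℂ, ContDiffOn ℝ 1
      (fun P => ((fderiv ℝ (fun P : ℝ × ℂ => Φ P.1 P.2) P v : ℝ) : ℂ)) (Ioo a b ×ˢ univ) := by
    intro v
    exact (Complex.ofRealCLM.contDiff.comp_contDiffOn (h1.clm_apply contDiffOn_const))
  unfold Wt
  exact (h2 _).sub (contDiffOn_const.mul (h2 _))

end

end WW47
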